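import Pool.Agent.Lib_MP_b52a92_nt.Defs

set_option autoImplicit false

/-! Powers of roots of two. -/

namespace Pool.Agent.JS

open Polynomial MeasureTheory Set

theorem beta_pow (m : ℕ) (hm : 1 ≤ m) : β m ^ m = 2 := by
  unfold β
  rw [← Real.rpow_natCast, ← Real.rpow_mul (by norm_num)]
  have : ((1 : ℝ) / m) * m = 1 := by
    have : (m : ℝ) ≠ 0 := by positivity
    field_simp
  rw [this, Real.rpow_one]

theorem beta_mem (m : ℕ) (hm : 1 ≤ m) : 1 ≤ β m ∧ β m ≤ 2 := by
  unfold β
  constructor
  · exact Real.one_le_rpow (by norm_num) (by positivity)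
  · calc (2 : ℝ) ^ ((1 : ℝ) / m) ≤ (2 : ℝ) ^ (1 : ℝ) := by
          apply Real.rpow_le_rpow_of_exponent_le (by norm_num)
          have : (1 : ℝ) ≤ m := by exact_mod_cast hm
          rw [div_le_one (by positivity)]
          exact this
      _ = 2 := Real.rpow_one 2

theorem PP_pos (m d : ℕ) : 1 ≤ PP m d := by unfold PP; omega

theorem kap_mem (m d : ℕ) : 3 < kap m d ∧ kap m d ≤ 4 := by
  have h1 : (1 : ℝ) < (2 : ℝ) ^ ((1 : ℝ) / (PP m d)) := by
    apply Real.one_lt_rpow (by norm_num)
    have := PP_pos m d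
    positivity
  have h2 := (beta_mem (PP m d) (PP_pos m d)).2
  unfold β at h2
  unfold kap
  constructor <;> linarith

/-- the minimal polynomial of the `m`-th root of two -/
theorem irr_int (m : ℕ) (hm : 1 ≤ m) : Irreducible (X ^ m - C 2 : ℤ[X]) := by
  have hmon : (X ^ m - C 2 : ℤ[X]).Monic := monic_X_pow_sub_C 2 (by omega)
  have hdeg : (X ^ m - C 2 : ℤ[X]).natDegree = m := natDegree_X_pow_sub_C
  have hprime : (Ideal.span {(2 : ℤ)}).IsPrime := by
    rw [Ideal.span_singleton_prime (by norm_num)]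
    exact Int.prime_two
  refine Polynomial.IsEisensteinAt.irreducible (𝓟 := Ideal.span {(2 : ℤ)}) ?_ hprime
    hmon.isPrimitive (by rw [hdeg]; omega)
  refine ⟨?_, ?_, ?_⟩
  · rw [hmon.leadingCoeff, Ideal.mem_span_singleton]
    norm_num
  · intro n hn
    rw [hdeg] at hn
    rw [coeff_sub, coeff_X_pow, if_neg (by omega), zero_sub, Ideal.mem_span_singleton, coeff_C]
    split_ifs
    · exact dvd_neg.mpr dvd_rfl
    · simp
  · rw [coeff_sub, coeff_X_pow, if_neg (by omega), zero_sub, coeff_C, if_pos rfl,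
      Ideal.span_singleton_pow, Ideal.mem_span_singleton]
    norm_num

theorem beta_poly (m : ℕ) (hm : 1 ≤ m) (f : ℤ[X]) (hf : f.natDegree < m)
    (h : aeval (β m) f = 0) : f = 0 := by
  have hmon : (X ^ m - C 2 : ℤ[X]).Monic := monic_X_pow_sub_C 2 (by omega)
  have hirr : Irreducible (X ^ m - C 2 : ℚ[X]) := by
    have := (Polynomial.IsPrimitive.Int.irreducible_iff_irreducible_map_cast
      hmon.isPrimitive).mp (irr_int m hm)
    rw [Polynomial.map_sub, Polynomial.map_pow, map_X, map_C] at this
    exact this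
  have hmonQ : (X ^ m - C 2 : ℚ[X]).Monic := monic_X_pow_sub_C 2 (by omega)
  have hroot : aeval (β m) (X ^ m - C 2 : ℚ[X]) = 0 := by
    simp [beta_pow m hm]
  have hmin : X ^ m - C 2 = minpoly ℚ (β m) :=
    minpoly.eq_of_irreducible_of_monic hirr hroot hmonQ
  by_contra hne
  have hfQ : f.map (Int.castRingHom ℚ) ≠ 0 := by
    rw [Ne, Polynomial.map_eq_zero_iff (RingHom.injective_int _)]
    exact hne
  have hroot' : aeval (β m) (f.map (Int.castRingHom ℚ)) = 0 := by
    have : (Int.castRingHom ℚ) = algebraMap ℤ ℚ := rfl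
    rw [this, aeval_map_algebraMap]
    exact h
  have hle := natDegree_le_natDegree (minpoly.degree_le_of_ne_zero ℚ (β m) hfQ hroot')
  rw [← hmin, natDegree_X_pow_sub_C,
    natDegree_map_eq_of_injective (RingHom.injective_int (Int.castRingHom ℚ))] at hle
  omega

/-- the powers of the `m`-th root of two are independent -/
theorem beta_li (m : ℕ) (hm : 1 ≤ m) (c : Fin m → ℤ) (h : ∑ i, (c i : ℝ) * β m ^ (i : ℕ) = 0) :
    c = 0 := by
  set f : ℤ[X] := ∑ i : Fin m, C (c i) * X ^ (i : ℕ) with hfdef
  have hcoeff : ∀ j : Fin m, f.coeff j = c j := by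
    intro j
    rw [hfdef, finsetSum_coeff]
    rw [Finset.sum_eq_single j]
    · simp
    · intro i _ hij
      rw [coeff_C_mul_X_pow, if_neg]
      intro hji
      exact hij (Fin.ext hji.symm)
    · simp
  have hdeg : f.natDegree < m := by
    have : f.natDegree ≤ m - 1 := by
      apply natDegree_sum_le_of_forall_le
      intro i _
      refine (natDegree_C_mul_X_pow_le _ _).trans ?_
      have := i.isLt
      omega
    omega
  have hroot : aeval (β m) f = 0 := by
    rw [hfdef, map_sum, ← h]
    refine Finset.sum_congr rfl fun i _ => ?_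
    simp
  have hf0 := beta_poly m hm f hdeg hroot
  funext j
  rw [← hcoeff j, hf0]
  simp

/-- elements of `ℤ[β]` are integer combinations of `1, β, …, β^(m-1)` -/
theorem adjoin_repr (m : ℕ) (hm : 1 ≤ m) (x : ℝ) (hx : x ∈ Algebra.adjoin ℤ {β m}) :
    ∃ a : ℕ → ℤ, x = ∑ i ∈ Finset.range m, (a i : ℝ) * β m ^ i := by
  rw [Algebra.adjoin_singleton_eq_range_aeval] at hx
  obtain ⟨f, rfl⟩ := hx
  have hmon : (X ^ m - C 2 : ℤ[X]).Monic := monic_X_pow_sub_C 2 (by omega)
  have hroot : aeval (β m) (X ^ m - C 2 : ℤ[X]) = 0 := by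
    rw [map_sub, map_pow, aeval_X, aeval_C, beta_pow m hm]
    simp
  have h1 : aeval (β m) (f %ₘ (X ^ m - C 2 : ℤ[X])) = aeval (β m) f :=
    aeval_modByMonic_eq_self_of_root hroot
  have hdeg : (f %ₘ (X ^ m - C 2 : ℤ[X])).natDegree < m := by
    have hne : (X ^ m - C 2 : ℤ[X]) ≠ 1 := by
      intro h
      have := congrArg natDegree h
      rw [natDegree_X_pow_sub_C, natDegree_one] at this
      omega
    have := natDegree_modByMonic_lt f hmon hne
    rwa [natDegree_X_pow_sub_C] at this
  refine ⟨fun i => (f %ₘ (X ^ m - C 2 : ℤ[X])).coeff i, ?_⟩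
  change aeval (β m) f = _
  rw [← h1, aeval_eq_sum_range' hdeg]
  refine Finset.sum_congr rfl fun i _ => ?_
  rw [zsmul_eq_mul]

theorem beta_mul_pow (a b : ℕ) (ha : 1 ≤ a) (hb : 1 ≤ b) : β (a * b) ^ b = β a := by
  unfold β
  rw [← Real.rpow_natCast, ← Real.rpow_mul (by norm_num)]
  congr 1
  have h1 : (a : ℝ) ≠ 0 := by positivity
  have h2 : (b : ℝ) ≠ 0 := by positivity
  push_cast
  field_simp

/-- a polynomial of small degree with coefficients in `ℤ[β]` does not vanish at `kap` -/
theorem theta_ne (m d : ℕ) (hm : 1 ≤ m) (p : (Algebra.adjoin ℤ {β m})[X]) (hp : p ≠ 0)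
    (hdeg : p.natDegree ≤ (d + 1) ^ 2) : aeval (kap m d) p ≠ 0 := by
  intro h0
  set D := (d + 1) ^ 2 with hD
  set P := PP m d with hP
  have hPD : P = m * D + 1 := rfl
  have hP1 : 1 ≤ P := PP_pos m d
  set θ := β (m * P) with hθ
  have hθP : θ ^ P = β m := beta_mul_pow m P hm hP1
  have hθm : θ ^ m = kap m d - 2 := by
    rw [hθ, mul_comm, beta_mul_pow P m hP1 hm]
    unfold kap β
    ring
  set q := taylor 2 p with hq
  have hq0 : q ≠ 0 := by
    rw [hq]
    intro h
    apply hp
    exact taylor_injective 2 (by rw [h, map_zero])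
  have hqdeg : q.natDegree < D + 1 := by
    rw [hq, natDegree_taylor]
    omega
  have hqroot : aeval (θ ^ m) q = 0 := by
    rw [hq, taylor_apply, aeval_comp]
    have : aeval (θ ^ m) (X + C (2 : Algebra.adjoin ℤ {β m})) = kap m d := by
      rw [map_add, aeval_X, aeval_C, map_ofNat, hθm]
      ring
    rw [this]
    exact h0
  choose a ha using fun e : ℕ => adjoin_repr m hm (q.coeff e : ℝ) (q.coeff e).2
  set R : ℤ[X] := ∑ e ∈ Finset.range (D + 1), ∑ i ∈ Finset.range m, C (a e i) * X ^ (P * i + m * e)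
    with hR
  have hlt : ∀ e < D + 1, ∀ i < m, P * i + m * e < m * P := by
    intro e he i hi
    have h1 : m * e ≤ m * D := Nat.mul_le_mul_left m (by omega)
    have h2 : P * (i + 1) ≤ P * m := Nat.mul_le_mul_left P (by omega)
    rw [mul_comm m P]
    rw [mul_add, mul_one] at h2
    omega
  have hRdeg : R.natDegree < m * P := by
    have hmP : 1 ≤ m * P := Nat.mul_pos hm hP1
    have : R.natDegree ≤ m * P - 1 := by
      apply natDegree_sum_le_of_forall_le
      intro e he
      apply natDegree_sum_le_of_forall_le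
      intro i hi
      refine (natDegree_C_mul_X_pow_le _ _).trans ?_
      have := hlt e (Finset.mem_range.mp he) i (Finset.mem_range.mp hi)
      omega
    omega
  have hRroot : aeval (β (m * P)) R = 0 := by
    rw [← hqroot, aeval_eq_sum_range' hqdeg, hR, map_sum]
    refine Finset.sum_congr rfl fun e _ => ?_
    rw [map_sum, Algebra.smul_def]
    change _ = (q.coeff e : ℝ) * _
    rw [ha e, Finset.sum_mul]
    refine Finset.sum_congr rfl fun i _ => ?_
    rw [map_mul, aeval_C, map_pow, aeval_X, ← hθ, pow_add, pow_mul, hθP, pow_mul]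
    simp [mul_assoc]
  have hR0 := beta_poly (m * P) (Nat.mul_pos hm hP1) R hRdeg hRroot
  have hinj : ∀ e < D + 1, ∀ i < m, ∀ e' < D + 1, ∀ i' < m,
      P * i + m * e = P * i' + m * e' → e = e' ∧ i = i' := by
    intro e he i hi e' he' i' hi' h
    have h1 : m * e < P := by
      have : m * e ≤ m * D := Nat.mul_le_mul_left m (by omega)
      omega
    have h2 : m * e' < P := by
      have : m * e' ≤ m * D := Nat.mul_le_mul_left m (by omega)
      omega
    have hi3 : i = i' := by
      have h3 := congrArg (· / P) h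
      simp only [Nat.mul_add_div hP1, Nat.div_eq_of_lt h1, Nat.div_eq_of_lt h2] at h3
      omega
    subst hi3
    have : m * e = m * e' := by omega
    exact ⟨Nat.eq_of_mul_eq_mul_left hm this, rfl⟩
  have hazero : ∀ e < D + 1, ∀ i < m, a e i = 0 := by
    intro e he i hi
    have h1 : R.coeff (P * i + m * e) = a e i := by
      rw [hR, finsetSum_coeff, Finset.sum_eq_single e]
      · rw [finsetSum_coeff, Finset.sum_eq_single i]
        · rw [coeff_C_mul_X_pow, if_pos rfl]
        · intro i' hi' hne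
          rw [coeff_C_mul_X_pow, if_neg]
          intro hh
          exact hne (hinj e he i hi e he i' (Finset.mem_range.mp hi') hh).2.symm
        · intro hh
          exact absurd (Finset.mem_range.mpr hi) hh
      · intro e' he' hne
        rw [finsetSum_coeff]
        refine Finset.sum_eq_zero fun i' hi' => ?_
        rw [coeff_C_mul_X_pow, if_neg]
        intro hh
        exact hne (hinj e he i hi e' (Finset.mem_range.mp he') i' (Finset.mem_range.mp hi') hh).1.symm
      · intro hh
        exact absurd (Finset.mem_range.mpr he) hh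
    rw [← h1, hR0, coeff_zero]
  apply hq0
  ext e
  rw [coeff_zero]
  by_cases he : e < D + 1
  · rw [ha e]
    rw [Finset.sum_eq_zero]
    · rfl
    · intro i hi
      rw [hazero e he i (Finset.mem_range.mp hi)]
      simp
  · rw [coeff_eq_zero_of_natDegree_lt (by omega)]

end Pool.Agent.JS
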