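import Pool.Agent.Lib_MP_b52a92_nt.Basic
import Pool.Agent.Lib_MP_b52a92_nt.Theta

set_option autoImplicit false

/-! The algebraic numbers attached to admissible data: location, minimal polynomial, height. -/

namespace Pool.Agent.JS

open Polynomial MeasureTheory Set

theorem al_near (m : ℕ) (hm : 1 ≤ m) (t : ℕ) (p q k p' : ℤ) (h : Adm t p q k p') :
    |al m p q k p' - p / q| ≤ 1 / (q : ℝ) ^ 2 := by
  obtain ⟨h0, hpq, -, -, h3, h4, hdet⟩ := h
  have hq : (0 : ℝ) < q := by exact_mod_cast (lt_of_le_of_lt h0 hpq)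
  have hk : (3 : ℝ) * q ≤ k := by exact_mod_cast h3
  obtain ⟨hb1, hb2⟩ := beta_mem m hm
  have hd : (q : ℝ) * β m - k ≤ -q := by nlinarith
  have hd0 : (q : ℝ) * β m - k ≠ 0 := by linarith
  have hdet' : (p : ℝ) * k + p' * q = -1 := by exact_mod_cast hdet
  have key : al m p q k p' - p / q = 1 / (q * (k - q * β m)) := by
    unfold al
    have hd1 : (k : ℝ) - q * β m ≠ 0 := by linarith
    rw [div_sub_div _ _ hd0 hq.ne', div_eq_div_iff (mul_ne_zero hd0 hq.ne')
      (mul_ne_zero hq.ne' hd1)]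
    linear_combination (q * (k - q * β m) : ℝ) * hdet'
  rw [key, abs_of_pos (by apply one_div_pos.2; apply mul_pos hq; linarith)]
  apply one_div_le_one_div_of_le (by positivity)
  nlinarith

/-- height of powers of linear polynomials -/
theorem al_coeff_lin_pow (a b : ℤ) (M : ℝ) (ha : |(a : ℝ)| ≤ M) (hb : |(b : ℝ)| ≤ M) (m i : ℕ) :
    |((((C a * X + C b) ^ m : ℤ[X]).coeff i : ℤ) : ℝ)| ≤ (2 * M) ^ m := by
  have hM : 0 ≤ M := (abs_nonneg _).trans ha
  induction m generalizing i with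
  | zero =>
    rw [pow_zero, coeff_one]
    split_ifs <;> simp
  | succ m ih =>
    have e : ((C a * X + C b) ^ (m + 1) : ℤ[X]) =
        C a * ((C a * X + C b) ^ m * X) + C b * (C a * X + C b) ^ m := by
      rw [pow_succ]; ring
    rw [e, coeff_add, coeff_C_mul, coeff_C_mul]
    have h1 : |((((C a * X + C b) ^ m * X : ℤ[X]).coeff i : ℤ) : ℝ)| ≤ (2 * M) ^ m := by
      cases i with
      | zero => rw [coeff_mul_X_zero]; simp; positivity
      | succ i => rw [coeff_mul_X]; exact ih i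
    push_cast
    refine (abs_add_le _ _).trans ?_
    rw [abs_mul, abs_mul, pow_succ]
    have h2 := mul_le_mul ha h1 (abs_nonneg _) hM
    have h3 := mul_le_mul hb (ih i) (abs_nonneg _) hM
    linarith

theorem al_ht_le (P : ℤ[X]) (B : ℝ) (hB : 0 ≤ B) (h : ∀ i, |((P.coeff i : ℤ) : ℝ)| ≤ B) :
    (ht P : ℝ) ≤ B := by
  have : ht P ≤ ⌊B⌋₊ := by
    unfold ht
    refine Finset.sup_le fun i _ => ?_
    apply Nat.le_floor
    have h2 : |((P.coeff i : ℤ) : ℝ)| = ((P.coeff i).natAbs : ℝ) := by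
      rw [Nat.cast_natAbs, Int.cast_abs]
    rw [← h2]
    exact h i
  exact (Nat.cast_le.2 this).trans (Nat.floor_le hB)

/-- the Moebius substitution of an integer polynomial -/
noncomputable def mob (d : ℕ) (p q k p' : ℤ) (Q : ℤ[X]) : ℤ[X] :=
  ∑ l ∈ Finset.range (d + 1), C (Q.coeff l) * ((C p * X + C p') ^ l * (C q * X + C (-k)) ^ (d - l))

theorem al_mob_natDegree (d : ℕ) (p q k p' : ℤ) (Q : ℤ[X]) : (mob d p q k p' Q).natDegree ≤ d := by
  unfold mob
  refine natDegree_sum_le_of_forall_le _ _ fun l hl => ?_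
  refine (natDegree_C_mul_le _ _).trans ?_
  refine (natDegree_mul_le).trans ?_
  have h1 : ((C p * X + C p') ^ l : ℤ[X]).natDegree ≤ l * 1 :=
    natDegree_pow_le_of_le l natDegree_linear_le
  have h2 : ((C q * X + C (-k)) ^ (d - l) : ℤ[X]).natDegree ≤ (d - l) * 1 :=
    natDegree_pow_le_of_le (d - l) natDegree_linear_le
  have := Finset.mem_range.1 hl
  omega

theorem al_aeval_lin (a b : ℤ) (x : ℝ) : aeval x (C a * X + C b : ℤ[X]) = a * x + b := by
  simp

theorem al_mob_aeval (d : ℕ) (p q k p' : ℤ) (Q : ℤ[X]) (hQ : Q.natDegree ≤ d) (x : ℝ)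
    (hx : (q : ℝ) * x - k ≠ 0) :
    aeval x (mob d p q k p' Q) =
      ((q : ℝ) * x - k) ^ d * aeval (((p : ℝ) * x + p') / ((q : ℝ) * x - k)) Q := by
  unfold mob
  rw [map_sum, aeval_eq_sum_range' (Nat.lt_succ_of_le hQ), Finset.mul_sum]
  refine Finset.sum_congr rfl fun l hl => ?_
  have hl' := Finset.mem_range.1 hl
  obtain ⟨e, he⟩ : ∃ e, d = l + e := ⟨d - l, by omega⟩
  have he' : d - l = e := by omega
  rw [he', map_mul, map_mul, map_pow, map_pow, al_aeval_lin, al_aeval_lin, he, div_pow, pow_add,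
    zsmul_eq_mul, aeval_C]
  have e1 : (q : ℝ) * x + ((-k : ℤ) : ℝ) = (q : ℝ) * x - k := by push_cast; ring
  rw [e1]
  set D := (q : ℝ) * x - k with hD
  field_simp
  simp only [algebraMap_int_eq, eq_intCast]
  ring

/-- no non zero integer polynomial of degree less than `m` vanishes at `al` -/
theorem al_deg (m : ℕ) (hm : 1 ≤ m) (t : ℕ) (p q k p' : ℤ) (h : Adm t p q k p') (Q : ℤ[X])
    (hQ : Q.natDegree < m) (h0 : aeval (al m p q k p') Q = 0) : Q = 0 := by
  obtain ⟨hp0, hpq, -, -, h3, h4, hdet⟩ := h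
  have hq : (0 : ℝ) < q := by exact_mod_cast (lt_of_le_of_lt hp0 hpq)
  have hk : (3 : ℝ) * q ≤ k := by exact_mod_cast h3
  obtain ⟨hb1, hb2⟩ := beta_mem m hm
  have hd : (q : ℝ) * β m - k ≤ -q := by nlinarith
  have hd0 : (q : ℝ) * β m - k ≠ 0 := by linarith
  have hdet' : (p : ℝ) * k + p' * q = -1 := by exact_mod_cast hdet
  have hQ' : Q.natDegree ≤ m - 1 := by omega
  have e1 : aeval (β m) (mob (m - 1) p q k p' Q) = 0 := by
    rw [al_mob_aeval (m - 1) p q k p' Q hQ' (β m) hd0]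
    have : aeval (((p : ℝ) * β m + p') / ((q : ℝ) * β m - k)) Q = 0 := h0
    rw [this, mul_zero]
  have hG : mob (m - 1) p q k p' Q = 0 := by
    have hdeg := al_mob_natDegree (m - 1) p q k p' Q
    have hc : (fun i : Fin m => (mob (m - 1) p q k p' Q).coeff i) = 0 := by
      apply beta_li m hm
      rw [aeval_eq_sum_range' (n := m) (by omega), Finset.sum_range] at e1
      rw [← e1]
      refine Finset.sum_congr rfl fun l _ => ?_
      simp
    ext i
    by_cases hi : i < m
    · exact congrFun hc ⟨i, hi⟩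
    · rw [coeff_eq_zero_of_natDegree_lt (by omega), coeff_zero]
  have hroot : ∀ y : ℝ, y ≠ p / q → aeval y Q = 0 := by
    intro y hy
    have hy1 : (q : ℝ) * y - p ≠ 0 := by
      intro hh
      apply hy
      field_simp
      linarith
    set x : ℝ := ((k : ℝ) * y + p') / ((q : ℝ) * y - p) with hx
    have e2 : (q : ℝ) * x - k = -1 / ((q : ℝ) * y - p) := by
      rw [hx]
      field_simp
      linear_combination hdet'
    have e3 : (p : ℝ) * x + p' = -y / ((q : ℝ) * y - p) := by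
      rw [eq_div_iff hy1, add_mul, hx, mul_assoc, div_mul_cancel₀ _ hy1]
      linear_combination y * hdet'
    have e4 : (q : ℝ) * x - k ≠ 0 := by
      rw [e2]
      exact div_ne_zero (by norm_num) hy1
    have e5 := al_mob_aeval (m - 1) p q k p' Q hQ' x e4
    rw [hG, map_zero] at e5
    have e6 : ((p : ℝ) * x + p') / ((q : ℝ) * x - k) = y := by
      rw [div_eq_iff e4, e2, e3]
      ring
    rw [e6] at e5
    rcases mul_eq_zero.1 e5.symm with h | h
    · exact absurd h (pow_ne_zero _ e4)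
    · exact h
  have hinj : Function.Injective (Int.castRingHom ℝ) := Int.cast_injective
  apply Polynomial.map_injective (Int.castRingHom ℝ) hinj
  rw [Polynomial.map_zero]
  apply Polynomial.eq_zero_of_infinite_isRoot
  apply Set.Infinite.mono (s := {y : ℝ | y ≠ p / q})
  · intro y hy
    have := hroot y hy
    simp only [Set.mem_ofPred_eq, IsRoot.def, eval_map]
    exact this
  · have : {y : ℝ | y ≠ p / q} = {(p / q : ℝ)}ᶜ := by ext; simp
    rw [this]
    exact (Set.finite_singleton _).infinite_compl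

theorem al_poly (m : ℕ) (hm : 1 ≤ m) : ∃ C : ℝ, 1 ≤ C ∧ ∀ (t : ℕ) (p q k p' : ℤ),
    Adm t p q k p' → ∃ P : ℤ[X], Irreducible P ∧ P.natDegree = m ∧
      aeval (al m p q k p') P = 0 ∧ (ht P : ℝ) ≤ C * pw t m := by
  refine ⟨3 * 8 ^ m, ?_, ?_⟩
  · have : (1 : ℝ) ≤ 8 ^ m := one_le_pow₀ (by norm_num)
    linarith
  intro t p q k p' hadm
  have hadm' := hadm
  obtain ⟨hp0, hpq, hqT, -, h3, h4, hdet⟩ := hadm
  have hq0 : 0 < q := lt_of_le_of_lt hp0 hpq
  have hq : (0 : ℝ) < q := by exact_mod_cast hq0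
  have hk : (3 : ℝ) * q ≤ k := by exact_mod_cast h3
  obtain ⟨hb1, hb2⟩ := beta_mem m hm
  have hd : (q : ℝ) * β m - k ≤ -q := by nlinarith
  have hd0 : (q : ℝ) * β m - k ≠ 0 := by linarith
  have hdet' : (p : ℝ) * k + p' * q = -1 := by exact_mod_cast hdet
  set α := al m p q k p' with hα
  have hrel : (-(k : ℝ)) * α - p' = β m * (p - q * α) := by
    have : α * ((q : ℝ) * β m - k) = p * β m + p' := by
      rw [hα]; unfold al
      rw [div_mul_cancel₀ _ hd0]
    linear_combination this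
  set F : ℤ[X] := (C (-k) * X + C (-p')) ^ m - C 2 * (C (-q) * X + C p) ^ m with hF
  have hFα : aeval α F = 0 := by
    rw [hF]
    rw [map_sub, map_mul, map_pow, map_pow, al_aeval_lin, al_aeval_lin, aeval_C]
    have e1 : ((-k : ℤ) : ℝ) * α + ((-p' : ℤ) : ℝ) = β m * (p - q * α) := by
      rw [← hrel]; push_cast; ring
    have e2 : ((-q : ℤ) : ℝ) * α + p = p - q * α := by push_cast; ring
    rw [e1, e2, mul_pow, beta_pow m hm]
    simp
  have hFdeg : F.natDegree ≤ m := by
    rw [hF]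
    refine (natDegree_sub_le _ _).trans (max_le ?_ ?_)
    · have := natDegree_pow_le_of_le m (natDegree_linear_le (a := -k) (b := -p'))
      omega
    · refine (natDegree_C_mul_le _ _).trans ?_
      have := natDegree_pow_le_of_le m (natDegree_linear_le (a := -q) (b := p))
      omega
  have hF0 : F ≠ 0 := by
    intro h
    have e : aeval ((p : ℝ) / q) F = 0 := by rw [h, map_zero]
    rw [hF] at e
    rw [map_sub, map_mul, map_pow, map_pow, al_aeval_lin, al_aeval_lin] at e
    have e1 : ((-q : ℤ) : ℝ) * (p / q) + p = 0 := by push_cast; field_simp; ring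
    have e2 : ((-k : ℤ) : ℝ) * (p / q) + ((-p' : ℤ) : ℝ) = 1 / q := by
      push_cast
      field_simp
      linear_combination -hdet'
    rw [e1, e2, zero_pow (by omega), mul_zero, sub_zero] at e
    exact absurd e (pow_ne_zero _ (one_div_ne_zero hq.ne'))
  -- irreducible factor
  obtain ⟨P, hPirr, hPdvd, hPα⟩ : ∃ P : ℤ[X], Irreducible P ∧ P ∣ F ∧ aeval α P = 0 := by
    obtain ⟨f, hf, hfF⟩ := WfDvdMonoid.exists_factors F hF0
    obtain ⟨u, hu⟩ := hfF
    have e : aeval α (f.prod) = 0 := by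
      have h1 : aeval α f.prod * aeval α (u : ℤ[X]) = 0 := by
        rw [← map_mul, hu, hFα]
      rcases mul_eq_zero.1 h1 with h | h
      · exact h
      · have hu2 : IsUnit (aeval α (u : ℤ[X])) := u.isUnit.map _
        exact absurd h hu2.ne_zero
    rw [map_multiset_prod, Multiset.prod_eq_zero_iff, Multiset.mem_map] at e
    obtain ⟨P, hPf, hP⟩ := e
    exact ⟨P, hf P hPf, (Multiset.dvd_prod hPf).trans ⟨u, hu.symm⟩, hP⟩
  have hPdeg : P.natDegree = m := by
    apply le_antisymm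
    · exact (natDegree_le_of_dvd hPdvd hF0).trans hFdeg
    · by_contra hlt
      push Not at hlt
      exact hPirr.ne_zero (al_deg m hm t p q k p' hadm' P hlt hPα)
  refine ⟨P, hPirr, hPdeg, hPα, ?_⟩
  obtain ⟨G, hG⟩ := hPdvd
  have hG0 : G ≠ 0 := by rintro rfl; exact hF0 (by rw [hG, mul_zero])
  have hGdeg : G.natDegree = 0 := by
    have := natDegree_mul hPirr.ne_zero hG0
    rw [← hG] at this
    omega
  obtain ⟨c, hc⟩ : ∃ c, G = C c := ⟨_, eq_C_of_natDegree_eq_zero hGdeg⟩
  have hc0 : c ≠ 0 := by rintro rfl; exact hG0 (by rw [hc, C_0])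
  set T : ℝ := 2 ^ t with hT
  have hqT' : (q : ℝ) ≤ T := by rw [hT]; exact_mod_cast hqT
  have hpw : pw t m = T ^ m := pw_nat t m
  have hT1 : 1 ≤ T := one_le_pow₀ (by norm_num)
  have hcoef : ∀ i, |((F.coeff i : ℤ) : ℝ)| ≤ 3 * 8 ^ m * T ^ m := by
    intro i
    rw [hF, coeff_sub, coeff_C_mul]
    push_cast
    have hk' : |((-k : ℤ) : ℝ)| ≤ 4 * T := by
      push_cast
      rw [abs_neg, abs_of_pos (by linarith)]
      have : (k : ℝ) < 4 * q := by exact_mod_cast h4
      linarith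
    have hp0' : (0 : ℝ) ≤ p := by exact_mod_cast hp0
    have hpq' : (p : ℝ) + 1 ≤ q := by exact_mod_cast hpq
    have hk4 : (k : ℝ) < 4 * q := by exact_mod_cast h4
    have hp' : |((-p' : ℤ) : ℝ)| ≤ 4 * T := by
      push_cast
      have e1 : -(p' : ℝ) * q = 1 + p * k := by linear_combination -hdet'
      have e2 : 0 ≤ -(p' : ℝ) := by
        by_contra hh
        push Not at hh
        have : 0 ≤ (p : ℝ) * k := mul_nonneg hp0' (by linarith)
        nlinarith
      rw [abs_of_nonneg e2]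
      have e3 : -(p' : ℝ) * q ≤ 4 * q * q := by
        rw [e1]
        have : (p : ℝ) * k ≤ (q - 1) * (4 * q) := by
          apply mul_le_mul <;> linarith
        nlinarith
      have e4 : -(p' : ℝ) ≤ 4 * q := le_of_mul_le_mul_right e3 hq
      linarith
    have hq' : |((-q : ℤ) : ℝ)| ≤ T := by
      push_cast
      rw [abs_neg, abs_of_pos hq]
      exact hqT'
    have hp'' : |(p : ℝ)| ≤ T := by
      rw [abs_of_nonneg hp0']
      linarith
    have b1 := al_coeff_lin_pow (-k) (-p') (4 * T) hk' hp' m i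
    have b2 := al_coeff_lin_pow (-q) p T hq' hp'' m i
    have b3 : (2 * (4 * T)) ^ m = 8 ^ m * T ^ m := by rw [← mul_pow]; ring
    have b4 : (2 * T) ^ m ≤ 8 ^ m * T ^ m := by
      rw [← mul_pow]
      exact pow_le_pow_left₀ (by positivity) (by linarith) _
    rw [b3] at b1
    refine (abs_sub _ _).trans ?_
    rw [abs_mul, abs_of_pos (by norm_num : (0 : ℝ) < 2)]
    linarith
  rw [hpw]
  apply al_ht_le
  · positivity
  intro i
  refine le_trans ?_ (hcoef i)
  rw [hG, hc, coeff_mul_C]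
  push_cast
  rw [abs_mul]
  have : (1 : ℝ) ≤ |(c : ℝ)| := by
    exact_mod_cast Int.one_le_abs hc0
  nlinarith [abs_nonneg ((P.coeff i : ℤ) : ℝ)]

end Pool.Agent.JS
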