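import Pool.Agent.Lib_MP_b52a92_nt.Defs

set_option autoImplicit false

/-! Integer bases of rational subspaces (MP_b52a92_nt, piece Basis). -/

namespace Pool.Agent.JS

/-- the cast map as a linear map over the integers -/
def cvqL (k : ℕ) : (Fin k → ℤ) →ₗ[ℤ] (Fin k → ℚ) where
  toFun := cvq
  map_add' x y := by
    funext i
    simp [cvq]
  map_smul' c x := by
    funext i
    simp [cvq]

theorem cvqL_apply {k : ℕ} (z : Fin k → ℤ) : cvqL k z = cvq z := rfl

theorem cvqL_inj (k : ℕ) : Function.Injective (cvqL k) := by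
  intro x y h
  funext i
  have := congrFun h i
  simpa [cvqL, cvq] using this

/-- common denominator of a rational vector -/
theorem exists_denom {k : ℕ} (w : Fin k → ℚ) :
    ∃ D : ℤ, D ≠ 0 ∧ ∃ z : Fin k → ℤ, cvq z = (D : ℚ) • w := by
  refine ⟨∏ i, ((w i).den : ℤ), ?_, ?_⟩
  · rw [Finset.prod_ne_zero_iff]
    intro i _
    exact_mod_cast (w i).den_nz
  · refine ⟨fun i => (∏ j ∈ Finset.univ.erase i, ((w j).den : ℤ)) * (w i).num, ?_⟩
    funext i
    simp only [cvq, Pi.smul_apply, smul_eq_mul]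
    rw [← Finset.mul_prod_erase Finset.univ _ (Finset.mem_univ i)]
    push_cast
    have h := Rat.mul_den_eq_num (w i)
    rw [← h]
    ring

theorem exists_int_basis {k : ℕ} (W : Submodule ℚ (Fin k → ℚ)) :
    ∃ B : Fin (Module.finrank ℚ W) → Fin k → ℤ, LinearIndependent ℚ (fun l => cvq (B l)) ∧
      Submodule.span ℚ (Set.range fun l => cvq (B l)) = W ∧
      ∀ z : Fin k → ℤ, cvq z ∈ W ↔ ∃ c : Fin (Module.finrank ℚ W) → ℤ, z = ∑ l, c l • B l := by
  classical
  let N : Submodule ℤ (Fin k → ℤ) := (W.restrictScalars ℤ).comap (cvqL k)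
  have hN : ∀ z : Fin k → ℤ, z ∈ N ↔ cvq z ∈ W := fun z => Iff.rfl
  obtain ⟨n, bN⟩ := Submodule.basisOfPid (Pi.basisFun ℤ (Fin k)) N
  let B : Fin n → Fin k → ℤ := fun l => (bN l : Fin k → ℤ)
  have hBW : ∀ l, cvq (B l) ∈ W := fun l => (hN _).1 (bN l).2
  have hz : ∀ z : Fin k → ℤ, cvq z ∈ W ↔ ∃ c : Fin n → ℤ, z = ∑ l, c l • B l := by
    intro z
    constructor
    · intro h
      refine ⟨fun l => bN.repr ⟨z, (hN z).2 h⟩ l, ?_⟩
      have := congrArg (N.subtype) (bN.sum_repr ⟨z, (hN z).2 h⟩)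
      rw [map_sum] at this
      simp only [map_smul, Submodule.subtype_apply] at this
      exact this.symm
    · rintro ⟨c, rfl⟩
      rw [← cvqL_apply, map_sum]
      refine Submodule.sum_mem _ fun l _ => ?_
      rw [map_smul, cvqL_apply]
      have := W.smul_mem (c l : ℚ) (hBW l)
      rwa [Int.cast_smul_eq_zsmul] at this
  have hliZ : LinearIndependent ℤ (fun l => cvq (B l)) := by
    have h1 : LinearIndependent ℤ (fun l => B l) := by
      have := bN.linearIndependent.map' N.subtype (Submodule.ker_subtype N)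
      exact this
    have := h1.map' (cvqL k) (LinearMap.ker_eq_bot.2 (cvqL_inj k))
    exact this
  have hli : LinearIndependent ℚ (fun l => cvq (B l)) :=
    (LinearIndependent.iff_fractionRing ℤ ℚ).1 hliZ
  have hspan : Submodule.span ℚ (Set.range fun l => cvq (B l)) = W := by
    apply le_antisymm
    · rw [Submodule.span_le]
      rintro _ ⟨l, rfl⟩
      exact hBW l
    · intro w hw
      obtain ⟨D, hD, z, hzz⟩ := exists_denom w
      have h1 : cvq z ∈ W := by
        rw [hzz]
        exact W.smul_mem _ hw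
      obtain ⟨c, hc⟩ := (hz z).1 h1
      have hD' : (D : ℚ) ≠ 0 := by exact_mod_cast hD
      have h2 : w = (D : ℚ)⁻¹ • cvq z := by
        rw [hzz, smul_smul, inv_mul_cancel₀ hD', one_smul]
      rw [h2]
      refine Submodule.smul_mem _ _ ?_
      rw [hc, ← cvqL_apply, map_sum]
      refine Submodule.sum_mem _ fun l _ => ?_
      rw [map_smul, cvqL_apply, ← Int.cast_smul_eq_zsmul ℚ]
      exact Submodule.smul_mem _ _ (Submodule.subset_span ⟨l, rfl⟩)
  have hn : n = Module.finrank ℚ W := by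
    have h1 := finrank_span_eq_card hli
    rw [hspan] at h1
    rw [h1, Fintype.card_fin]
  clear_value B
  clear hN hliZ
  subst hn
  exact ⟨B, hli, hspan, hz⟩

end Pool.Agent.JS
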