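import Pool.Agent.Lib_MP_b52a92_nt.Defs
import Pool.Agent.Lib_MP_10b5ac_nt.Mink1

set_option autoImplicit false

/-! Piece Minor: the sup norm of the minors. -/

namespace Pool.Agent.JS

open Matrix

theorem mm_mul {k j : ℕ} (A : Matrix (Fin k) (Fin j) ℝ) (N : Matrix (Fin j) (Fin j) ℝ) :
    mm (A * N) = mm A * |N.det| := by
  unfold mm
  have h : (fun f : Fin j → Fin k => ((A * N).submatrix f id).det)
      = N.det • (fun f : Fin j → Fin k => (A.submatrix f id).det) := by
    funext f
    have h1 : (A * N).submatrix f id = A.submatrix f id * N := by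
      ext a b
      simp [Matrix.mul_apply]
    rw [h1, Matrix.det_mul, Pi.smul_apply, smul_eq_mul, mul_comm]
  rw [h, norm_smul, Real.norm_eq_abs, mul_comm]

theorem le_mm {k j : ℕ} (A : Matrix (Fin k) (Fin j) ℝ) (f : Fin j → Fin k) :
    |(A.submatrix f id).det| ≤ mm A := by
  have := norm_le_pi_norm (fun f : Fin j → Fin k => (A.submatrix f id).det) f
  simpa [mm] using this

theorem mm_nonneg {k j : ℕ} (A : Matrix (Fin k) (Fin j) ℝ) : 0 ≤ mm A := norm_nonneg _

theorem mm_snoc_le {k j : ℕ} (A : Matrix (Fin k) (Fin (j + 1)) ℝ) :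
    mm A ≤ (j + 1) * mm (A.submatrix id Fin.castSucc) * ‖fun i => A i (Fin.last j)‖ := by
  have h0 : 0 ≤ (j + 1 : ℝ) * mm (A.submatrix id Fin.castSucc) * ‖fun i => A i (Fin.last j)‖ := by
    have := mm_nonneg (A.submatrix id (Fin.castSucc : Fin j → Fin (j + 1)))
    positivity
  conv_lhs => unfold mm
  rw [pi_norm_le_iff_of_nonneg h0]
  intro f
  rw [Matrix.det_succ_column _ (Fin.last j), Real.norm_eq_abs]
  refine (Finset.abs_sum_le_sum_abs _ _).trans ?_
  have hterm : ∀ i ∈ (Finset.univ : Finset (Fin (j + 1))),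
      |(-1 : ℝ) ^ ((i : ℕ) + ((Fin.last j : Fin (j + 1)) : ℕ)) * (A.submatrix f id) i (Fin.last j) *
        ((A.submatrix f id).submatrix i.succAbove (Fin.last j).succAbove).det|
      ≤ mm (A.submatrix id Fin.castSucc) * ‖fun i => A i (Fin.last j)‖ := by
    intro i _
    rw [abs_mul, abs_mul, abs_pow, abs_neg, abs_one, one_pow, one_mul]
    have h1 : |(A.submatrix f id) i (Fin.last j)| ≤ ‖fun i => A i (Fin.last j)‖ := by
      have := norm_le_pi_norm (fun i => A i (Fin.last j)) (f i)
      simpa using this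
    have h2 : |((A.submatrix f id).submatrix i.succAbove (Fin.last j).succAbove).det|
        ≤ mm (A.submatrix id Fin.castSucc) := by
      have h3 : (A.submatrix f id).submatrix i.succAbove (Fin.last j).succAbove
          = (A.submatrix id Fin.castSucc).submatrix (f ∘ i.succAbove) id := by
        ext a b
        simp [Fin.succAbove_last]
      rw [h3]
      exact le_mm _ _
    calc |(A.submatrix f id) i (Fin.last j)| *
          |((A.submatrix f id).submatrix i.succAbove (Fin.last j).succAbove).det|
        ≤ ‖fun i => A i (Fin.last j)‖ * mm (A.submatrix id Fin.castSucc) :=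
          mul_le_mul h1 h2 (abs_nonneg _) (norm_nonneg _)
      _ = _ := mul_comm _ _
  refine (Finset.sum_le_sum hterm).trans (le_of_eq ?_)
  rw [Finset.sum_const, Finset.card_univ, Fintype.card_fin, nsmul_eq_mul]
  push_cast
  ring

theorem mm_ne_zero {k j : ℕ} (A : Matrix (Fin k) (Fin j) ℝ)
    (h : ∀ c : Fin j → ℝ, A.mulVec c = 0 → c = 0) : 0 < mm A := by
  classical
  have hinj : Function.Injective A.mulVecLin := by
    rw [← LinearMap.ker_eq_bot, LinearMap.ker_eq_bot']
    intro c hc
    exact h c (by simpa using hc)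
  have hrank : A.rank = j := by
    rw [Matrix.rank, LinearMap.finrank_range_of_inj hinj]
    simp
  have hspan : Submodule.span ℝ (Set.range A.row) = ⊤ := by
    apply Submodule.eq_top_of_finrank_eq
    rw [← Matrix.rank_eq_finrank_span_row, hrank]
    simp
  obtain ⟨b, hb, hbs, hbl⟩ := exists_linearIndependent ℝ (Set.range A.row)
  rw [hspan] at hbs
  let B : Module.Basis b ℝ (Fin j → ℝ) := Module.Basis.mk hbl (by
    rw [Subtype.range_coe, hbs])
  have : Finite b := Module.Finite.finite_basis B
  have : Fintype b := Fintype.ofFinite b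
  have hcard : Fintype.card b = j := by
    have := Module.finrank_eq_card_basis B
    rw [← this]
    simp
  let e : Fin j ≃ b := (Fintype.equivFinOfCardEq hcard).symm
  have hf : ∀ l : Fin j, ∃ i : Fin k, A.row i = (e l : Fin j → ℝ) := fun l => hb (e l).2
  choose f hf using hf
  have hli : LinearIndependent ℝ (A.submatrix f id).row := by
    have h1 : (A.submatrix f id).row = (fun l => ((e l : b) : Fin j → ℝ)) := by
      funext l
      rw [← hf l]
      rfl
    rw [h1]
    exact hbl.comp e e.injective
  have hu := Matrix.linearIndependent_rows_iff_isUnit.1 hli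
  have hdet : (A.submatrix f id).det ≠ 0 := by
    rw [Matrix.isUnit_iff_isUnit_det] at hu
    exact hu.ne_zero
  exact lt_of_lt_of_le (abs_pos.2 hdet) (le_mm A f)

/-- if all non zero integer combinations of the columns have sup norm at least `lam` -/
theorem mm_lower {k j : ℕ} (hj : 1 ≤ j) (A : Matrix (Fin k) (Fin j) ℝ) (hA : 0 < mm A)
    (lam : ℝ) (hl : 0 < lam) (h : ∀ z : Fin j → ℤ, z ≠ 0 → lam ≤ ‖A.mulVec (rvr z)‖) :
    (lam / (2 * j)) ^ j ≤ mm A := by
  classical
  have hne : Nonempty (Fin j → Fin k) := by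
    by_contra hcon
    rw [not_nonempty_iff] at hcon
    have : mm A = 0 := by
      unfold mm
      rw [show (fun f : Fin j → Fin k => (A.submatrix f id).det) = 0 from
        funext fun f => (hcon.false f).elim]
      exact norm_zero
    exact hA.ne' this
  obtain ⟨f, hf⟩ := Finite.exists_max (fun f : Fin j → Fin k => |(A.submatrix f id).det|)
  have hmm : mm A = |(A.submatrix f id).det| := by
    apply le_antisymm _ (le_mm A f)
    unfold mm
    rw [pi_norm_le_iff_of_nonneg (abs_nonneg _)]
    intro f'
    exact hf f'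
  set M := A.submatrix f id with hM
  have hδ : 0 < |M.det| := by rw [← hmm]; exact hA
  have hj0 : (0 : ℝ) < j := by exact_mod_cast hj
  -- rows are combinations of the rows of `M`
  have hrow : ∀ (z : Fin j → ℝ) (i : Fin k), |A.mulVec z i| ≤ j * ‖M.mulVec z‖ := by
    intro z i
    have h1 := Matrix.mulVec_cramer Mᵀ (A i)
    rw [Matrix.det_transpose] at h1
    have h2 : M.det * A.mulVec z i = ∑ l, (Mᵀ.cramer (A i)) l * M.mulVec z l := by
      have h3 : M.det * A.mulVec z i = (M.det • A i) ⬝ᵥ z := by
        rw [smul_dotProduct, smul_eq_mul]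
        rfl
      rw [h3, ← h1, Matrix.mulVec_transpose]
      rw [← Matrix.dotProduct_mulVec]
      rfl
    have h4 : ∀ l, |(Mᵀ.cramer (A i)) l| ≤ |M.det| := by
      intro l
      rw [Matrix.cramer_transpose_apply]
      have h5 : M.updateRow l (A i) = A.submatrix (Function.update f l i) id := by
        ext a b
        by_cases hal : a = l
        · subst hal
          simp
        · simp [Matrix.updateRow_ne hal, Function.update_of_ne hal, hM]
      rw [h5]
      exact hf _
    have h6 : |M.det| * |A.mulVec z i| ≤ |M.det| * (j * ‖M.mulVec z‖) := by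
      rw [← abs_mul, h2]
      refine (Finset.abs_sum_le_sum_abs _ _).trans ?_
      have h7 : ∀ l ∈ (Finset.univ : Finset (Fin j)),
          |(Mᵀ.cramer (A i)) l * M.mulVec z l| ≤ |M.det| * ‖M.mulVec z‖ := by
        intro l _
        rw [abs_mul]
        exact mul_le_mul (h4 l) (by simpa using norm_le_pi_norm (M.mulVec z) l) (abs_nonneg _)
          (abs_nonneg _)
      refine (Finset.sum_le_sum h7).trans (le_of_eq ?_)
      rw [Finset.sum_const, Finset.card_univ, Fintype.card_fin, nsmul_eq_mul]
      ring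
    exact le_of_mul_le_mul_left h6 hδ
  obtain ⟨z, hz0, hz⟩ := Pool.Agent.Sub.mink1 j hj M (abs_pos.1 hδ)
  have hz' : ‖M.mulVec (rvr z)‖ ^ j ≤ 2 ^ j * |M.det| := hz
  have h1 : lam ≤ j * ‖M.mulVec (rvr z)‖ := by
    refine (h z hz0).trans ?_
    rw [pi_norm_le_iff_of_nonneg (by positivity)]
    intro i
    exact hrow (rvr z) i
  rw [hmm]
  have h2 : (lam / (2 * j)) ^ j ≤ (‖M.mulVec (rvr z)‖ / 2) ^ j := by
    apply pow_le_pow_left₀ (by positivity)
    rw [div_le_div_iff₀ (by positivity) (by positivity)]
    nlinarith [norm_nonneg (M.mulVec (rvr z))]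
  refine h2.trans ?_
  rw [div_pow, div_le_iff₀ (by positivity)]
  linarith [hz']

end Pool.Agent.JS
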