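import Pool.Agent.Lib_MP_b52a92_nt.Cover

set_option autoImplicit false

/-! The theorem of Kleinbock and Margulis on marked points (abstract version on an interval). -/

namespace Pool.Agent.JS

open MeasureTheory Set Topology Filter

/-- The interval around `x` on which `f` is at most `ρ`: left end. -/
theorem exists_left (f : ℝ → ℝ) (hf : Continuous f) (ρ u x : ℝ) (hux : u ≤ x) (hx : f x < ρ) :
    ∃ a, u ≤ a ∧ a ≤ x ∧ (a < x ∨ u = x) ∧ (∀ y ∈ Icc a x, f y ≤ ρ) ∧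
      (∀ y ∈ Icc u x, ρ ≤ f y → y ≤ a) ∧ (u < a → ρ ≤ f a) := by
  classical
  set A : Set ℝ := Icc u x ∩ ({y | ρ ≤ f y} ∪ {u}) with hA
  have hAc : IsClosed A :=
    isClosed_Icc.inter ((isClosed_le continuous_const hf).union isClosed_singleton)
  have hAne : A.Nonempty := ⟨u, ⟨le_refl u, hux⟩, Or.inr rfl⟩
  have hAbd : BddAbove A := ⟨x, fun y hy => hy.1.2⟩
  have haA : sSup A ∈ A := hAc.csSup_mem hAne hAbd
  refine ⟨sSup A, haA.1.1, haA.1.2, ?_, ?_, ?_, ?_⟩
  · rcases lt_or_eq_of_le haA.1.2 with h | h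
    · exact Or.inl h
    · right
      rcases haA.2 with h2 | h2
      · rw [h] at h2
        exact absurd hx (not_lt.2 h2)
      · rw [← h]
        exact h2.symm
  · intro y hy
    rcases lt_or_eq_of_le hy.1 with h | h
    · by_contra hc
      have hyA : y ∈ A := ⟨⟨haA.1.1.trans hy.1, hy.2⟩, Or.inl (le_of_lt (not_le.1 hc))⟩
      exact absurd (le_csSup hAbd hyA) (not_le.2 h)
    · rw [← h]
      rcases lt_or_eq_of_le haA.1.2 with h1 | h1
      · by_contra hc
        have hop : ∀ᶠ z in 𝓝[>] (sSup A), ρ < f z :=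
          (hf.continuousAt.eventually (isOpen_Ioi.mem_nhds (not_le.1 hc))).filter_mono
            nhdsWithin_le_nhds
        have hIoc : ∀ᶠ z in 𝓝[>] (sSup A), z ∈ Ioo (sSup A) x := Ioo_mem_nhdsGT h1
        obtain ⟨z, hz1, hz2⟩ := (hop.and hIoc).exists
        have hzA : z ∈ A := ⟨⟨haA.1.1.trans hz2.1.le, hz2.2.le⟩, Or.inl hz1.le⟩
        exact absurd (le_csSup hAbd hzA) (not_le.2 hz2.1)
      · rw [h1]
        exact hx.le
  · intro y hy hρ
    exact le_csSup hAbd ⟨hy, Or.inl hρ⟩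
  · intro h
    rcases haA.2 with h2 | h2
    · exact h2
    · exact absurd h2.symm (ne_of_lt h)

theorem exists_right (f : ℝ → ℝ) (hf : Continuous f) (ρ v x : ℝ) (hxv : x ≤ v) (hx : f x < ρ) :
    ∃ b, x ≤ b ∧ b ≤ v ∧ (x < b ∨ x = v) ∧ (∀ y ∈ Icc x b, f y ≤ ρ) ∧
      (∀ y ∈ Icc x v, ρ ≤ f y → b ≤ y) ∧ (b < v → ρ ≤ f b) := by
  obtain ⟨a, h1, h2, h3, h4, h5, h6⟩ := exists_left (fun y => f (-y))
    (hf.comp continuous_neg) ρ (-v) (-x) (neg_le_neg hxv) (by simpa using hx)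
  refine ⟨-a, by linarith, by linarith, ?_, ?_, ?_, ?_⟩
  · rcases h3 with h | h
    · left; linarith
    · right; linarith
  · intro y hy
    have := h4 (-y) ⟨by linarith [hy.2], by linarith [hy.1]⟩
    simpa using this
  · intro y hy hρ
    have := h5 (-y) ⟨by linarith [hy.2], by linarith [hy.1]⟩ (by simpa using hρ)
    linarith
  · intro h
    have := h6 (by linarith)
    simpa using this

/-- the maximal interval around an unmarked point -/
theorem exists_J {σ : Type*} (ψ : σ → ℝ → ℝ) (hψ : ∀ s, Continuous (ψ s)) (ρ : ℝ)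
    (P : Finset σ) (u v : ℝ) (hsup : ∀ s ∈ P, ∃ x ∈ Icc u v, ρ ≤ ψ s x) (x : ℝ)
    (hx : x ∈ Icc u v) (hun : ∃ s ∈ P, ψ s x < ρ) :
    ∃ a b : ℝ, ∃ s ∈ P, u ≤ a ∧ a ≤ b ∧ b ≤ v ∧ Icc a b ∈ 𝓝[Icc u v] x ∧
      (∀ y ∈ Icc a b, ψ s y ≤ ρ) ∧ ∀ s' ∈ P, ∃ y ∈ Icc a b, ρ ≤ ψ s' y := by
  classical
  have hL : ∀ s : σ, ∃ a, ψ s x < ρ → (u ≤ a ∧ a ≤ x ∧ (a < x ∨ u = x) ∧
      (∀ y ∈ Icc a x, ψ s y ≤ ρ) ∧
      (∀ y ∈ Icc u x, ρ ≤ ψ s y → y ≤ a) ∧ (u < a → ρ ≤ ψ s a)) := by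
    intro s
    by_cases h : ψ s x < ρ
    · obtain ⟨a, ha⟩ := exists_left (ψ s) (hψ s) ρ u x hx.1 h
      exact ⟨a, fun _ => ha⟩
    · exact ⟨0, fun h' => absurd h' h⟩
  have hR : ∀ s : σ, ∃ b, ψ s x < ρ → (x ≤ b ∧ b ≤ v ∧ (x < b ∨ x = v) ∧
      (∀ y ∈ Icc x b, ψ s y ≤ ρ) ∧
      (∀ y ∈ Icc x v, ρ ≤ ψ s y → b ≤ y) ∧ (b < v → ρ ≤ ψ s b)) := by
    intro s
    by_cases h : ψ s x < ρ
    · obtain ⟨a, ha⟩ := exists_right (ψ s) (hψ s) ρ v x hx.2 h
      exact ⟨a, fun _ => ha⟩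
    · exact ⟨0, fun h' => absurd h' h⟩
  choose a ha using hL
  choose b hb using hR
  obtain ⟨s0, hs0, hs0x⟩ := hun
  obtain ⟨s, hs, hmax⟩ := (P.filter fun s => ψ s x < ρ).exists_max_image (fun s => b s - a s)
    ⟨s0, Finset.mem_filter.2 ⟨hs0, hs0x⟩⟩
  rw [Finset.mem_filter] at hs
  obtain ⟨hsP, hsx⟩ := hs
  obtain ⟨a1, a2, a3, a4, a5, a6⟩ := ha s hsx
  obtain ⟨b1, b2, b3, b4, b5, b6⟩ := hb s hsx
  refine ⟨a s, b s, s, hsP, a1, a2.trans b1, b2, ?_, ?_, ?_⟩
  · rw [mem_nhdsWithin]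
    rcases a3 with a3 | a3 <;> rcases b3 with b3 | b3
    · refine ⟨Ioo (a s) (b s), isOpen_Ioo, ⟨a3, b3⟩, ?_⟩
      rintro y ⟨hy, -⟩
      exact ⟨hy.1.le, hy.2.le⟩
    · refine ⟨Ioi (a s), isOpen_Ioi, a3, ?_⟩
      rintro y ⟨hy, hy2⟩
      exact ⟨le_of_lt hy, hy2.2.trans (b3 ▸ b1)⟩
    · refine ⟨Iio (b s), isOpen_Iio, b3, ?_⟩
      rintro y ⟨hy, hy2⟩
      exact ⟨a2.trans (a3 ▸ hy2.1), le_of_lt hy⟩
    · refine ⟨univ, isOpen_univ, mem_univ _, ?_⟩
      rintro y ⟨-, hy2⟩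
      exact ⟨a2.trans (a3 ▸ hy2.1), hy2.2.trans (b3 ▸ b1)⟩
  · intro y hy
    rcases le_total y x with h | h
    · exact a4 y ⟨hy.1, h⟩
    · exact b4 y ⟨h, hy.2⟩
  · intro s' hs'
    by_contra hno
    push Not at hno
    have hs'x : ψ s' x < ρ := hno x ⟨a2, b1⟩
    obtain ⟨c1, c2, c3, c4, c5, c6⟩ := ha s' hs'x
    obtain ⟨d1, d2, d3, d4, d5, d6⟩ := hb s' hs'x
    have hle := hmax s' (Finset.mem_filter.2 ⟨hs', hs'x⟩)
    -- the left end
    have hal : a s' ≤ a s := by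
      by_contra hc
      rw [not_le] at hc
      have h1 := c6 (lt_of_le_of_lt a1 hc)
      exact absurd h1 (not_le.2 (hno (a s') ⟨hc.le, c2.trans b1⟩))
    have hbr : b s ≤ b s' := by
      by_contra hc
      rw [not_le] at hc
      have h1 := d6 (lt_of_lt_of_le hc b2)
      exact absurd h1 (not_le.2 (hno (b s') ⟨a2.trans d1, hc.le⟩))
    have hea : a s' = a s := by linarith
    have heb : b s' = b s := by linarith
    obtain ⟨y, hy, hyρ⟩ := hsup s' hs'
    rcases le_total y x with h | h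
    · have h1 := c5 y ⟨hy.1, h⟩ hyρ
      rcases lt_or_eq_of_le c1 with h2 | h2
      · exact absurd (c6 h2) (not_le.2 (hno (a s') ⟨hea.symm.le, c2.trans b1⟩))
      · have h3 : y = a s := by
          apply le_antisymm
          · rw [← hea]; exact h1
          · rw [← hea, ← h2]; exact hy.1
        exact absurd hyρ (not_le.2 (hno y ⟨h3.symm.le, h.trans b1⟩))
    · have h1 := d5 y ⟨h, hy.2⟩ hyρ
      rcases lt_or_eq_of_le d2 with h2 | h2
      · exact absurd (d6 h2) (not_le.2 (hno (b s') ⟨a2.trans d1, heb.le⟩))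
      · have h3 : y = b s := by
          apply le_antisymm
          · rw [← heb, h2]; exact hy.2
          · rw [← heb]; exact h1
        exact absurd hyρ (not_le.2 (hno y ⟨a2.trans h, h3.le⟩))

theorem marked_insert {σ : Type*} [PartialOrder σ] [DecidableEq σ] [DecidableLE σ]
    (ψ : σ → ℝ → ℝ) (ε ρ : ℝ)
    (P : Finset σ) (s : σ) (hs : s ∈ P) (y : ℝ) (h1 : ε ≤ ψ s y) (h2 : ψ s y ≤ ρ)
    (h : Marked ψ ε ρ (P.filter fun s' => s' ≠ s ∧ (s' ≤ s ∨ s ≤ s')) y) : Marked ψ ε ρ P y := by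
  obtain ⟨F, hFP, hch, hval, hrest⟩ := h
  refine ⟨insert s F, ?_, ?_, ?_, ?_⟩
  · intro z hz
    rcases Finset.mem_insert.1 hz with rfl | hz
    · exact hs
    · exact (Finset.mem_filter.1 (hFP hz)).1
  · intro z hz w hw
    rcases Finset.mem_insert.1 hz with hz | hz <;> rcases Finset.mem_insert.1 hw with hw | hw
    · rw [hz, hw]
      exact Or.inl le_rfl
    · rw [hz]
      exact (Finset.mem_filter.1 (hFP hw)).2.2.symm
    · rw [hw]
      exact (Finset.mem_filter.1 (hFP hz)).2.2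
    · exact hch z hz w hw
  · intro z hz
    rcases Finset.mem_insert.1 hz with rfl | hz
    · exact ⟨h1, h2⟩
    · exact hval z hz
  · intro z hz hzF hcmp
    have hzs : z ≠ s := fun h => hzF (h ▸ Finset.mem_insert_self s F)
    refine hrest z (Finset.mem_filter.2 ⟨hz, hzs, hcmp s (Finset.mem_insert_self s F)⟩)
      (fun h => hzF (Finset.mem_insert_of_mem h)) fun f hf => hcmp f (Finset.mem_insert_of_mem hf)

theorem marked_bound {σ : Type*} [PartialOrder σ] (rk : σ → ℕ) (hrk : StrictMono rk)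
    (ψ : σ → ℝ → ℝ) (hψ : ∀ s, Continuous (ψ s)) (ε ρ G : ℝ) (hG : 0 ≤ G) (hερ : ε ≤ ρ)
    (R : Finset ℕ) (P : Finset σ) (hR : ∀ s ∈ P, rk s ∈ R) (u v : ℝ) (huv : u ≤ v)
    (hsup : ∀ s ∈ P, ∃ x ∈ Icc u v, ρ ≤ ψ s x)
    (hgood : ∀ s ∈ P, ∀ a b, u ≤ a → a ≤ b → b ≤ v → (∃ x ∈ Icc a b, ρ ≤ ψ s x) →
      volume {x | x ∈ Icc a b ∧ ψ s x < ε} ≤ ENNReal.ofReal (G * (b - a))) :
    volume {x | x ∈ Icc u v ∧ ¬ Marked ψ ε ρ P x} ≤
      ENNReal.ofReal ((2 ^ (R.card + 1) - 2) * G * (v - u)) := by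
  classical
  obtain ⟨l, hl⟩ : ∃ l, R.card = l := ⟨_, rfl⟩
  induction l generalizing R P u v with
  | zero =>
    have hR0 : R = ∅ := Finset.card_eq_zero.1 hl
    have hP0 : ∀ s, s ∉ P := fun s hs => by
      have := hR s hs
      rw [hR0] at this
      simp at this
    have : {x | x ∈ Icc u v ∧ ¬ Marked ψ ε ρ P x} = ∅ := by
      rw [Set.eq_empty_iff_forall_notMem]
      rintro x ⟨-, hx⟩
      exact hx ⟨∅, Finset.empty_subset _, by simp, by simp, fun s hs => absurd hs (hP0 s)⟩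
    rw [this, measure_empty]
    exact bot_le
  | succ l ih =>
    set E : Set ℝ := {x | x ∈ Icc u v ∧ ¬ Marked ψ ε ρ P x} with hE
    set K : ℝ := (2 ^ (l + 1) - 1) * G with hK
    have h2l : (1 : ℝ) ≤ 2 ^ (l + 1) := one_le_pow₀ (by norm_num)
    have hK0 : 0 ≤ K := mul_nonneg (by linarith) hG
    have hloc : ∀ x : ℝ, ∃ ab : ℝ × ℝ, x ∈ E → (u ≤ ab.1 ∧ ab.1 ≤ ab.2 ∧ ab.2 ≤ v ∧
        Icc ab.1 ab.2 ∈ 𝓝[E] x ∧
        volume (E ∩ Icc ab.1 ab.2) ≤ ENNReal.ofReal (K * (ab.2 - ab.1))) := by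
      intro x
      by_cases hx : x ∈ E
      swap
      · exact ⟨(0, 0), fun h => absurd h hx⟩
      have hun : ∃ s ∈ P, ψ s x < ρ := by
        by_contra hno
        push Not at hno
        exact hx.2 ⟨∅, Finset.empty_subset _, by simp, by simp, fun s hs _ _ => hno s hs⟩
      obtain ⟨a, b, s, hs, h1, h2, h3, h4, h5, h6⟩ := exists_J ψ hψ ρ P u v hsup x hx.1 hun
      refine ⟨(a, b), fun _ => ⟨h1, h2, h3, ?_, ?_⟩⟩
      · exact nhdsWithin_mono x (fun y hy => hy.1) h4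
      · have hstep := ih (R.erase (rk s)) (P.filter fun s' => s' ≠ s ∧ (s' ≤ s ∨ s ≤ s'))
          (by
            intro s' hs'
            rw [Finset.mem_filter] at hs'
            refine Finset.mem_erase.2 ⟨?_, hR s' hs'.1⟩
            rcases hs'.2.2 with h | h
            · exact ne_of_lt (hrk (lt_of_le_of_ne h hs'.2.1))
            · exact (ne_of_lt (hrk (lt_of_le_of_ne h hs'.2.1.symm))).symm)
          a b h2
          (fun s' hs' => h6 s' (Finset.mem_filter.1 hs').1)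
          (fun s' hs' a' b' ha' hab' hb' hex => hgood s' (Finset.mem_filter.1 hs').1 a' b'
            (h1.trans ha') hab' (hb'.trans h3) hex)
          (by rw [Finset.card_erase_of_mem (hR s hs), hl]; rfl)
        rw [Finset.card_erase_of_mem (hR s hs), hl] at hstep
        have hg := hgood s hs a b h1 h2 h3 (h6 s hs)
        calc volume (E ∩ Icc a b)
            ≤ volume ({y | y ∈ Icc a b ∧ ¬ Marked ψ ε ρ
                (P.filter fun s' => s' ≠ s ∧ (s' ≤ s ∨ s ≤ s')) y} ∪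
                {y | y ∈ Icc a b ∧ ψ s y < ε}) := by
              refine measure_mono ?_
              rintro y ⟨hyE, hyJ⟩
              by_cases hye : ψ s y < ε
              · exact Or.inr ⟨hyJ, hye⟩
              · left
                refine ⟨hyJ, fun hm => hyE.2 ?_⟩
                exact marked_insert ψ ε ρ P s hs y (not_lt.1 hye) (h5 y hyJ) hm
          _ ≤ _ := measure_union_le _ _
          _ ≤ ENNReal.ofReal ((2 ^ (l + 1) - 2) * G * (b - a)) +
                ENNReal.ofReal (G * (b - a)) := add_le_add hstep hg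
          _ = ENNReal.ofReal (K * (b - a)) := by
              rw [← ENNReal.ofReal_add]
              · congr 1
                rw [hK]
                ring
              · refine mul_nonneg (mul_nonneg ?_ hG) (by linarith)
                have : (2 : ℝ) ^ 1 ≤ 2 ^ (l + 1) := pow_le_pow_right₀ (by norm_num) (by omega)
                linarith
              · exact mul_nonneg hG (by linarith)
    choose ab hab using hloc
    obtain ⟨T, hTE, hTc, hTcov⟩ := TopologicalSpace.countable_cover_nhdsWithin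
      (f := fun x => Icc (ab x).1 (ab x).2) (s := E) (fun x hx => (hab x hx).2.2.2.1)
    have : Countable T := hTc.to_subtype
    have hEeq : E = ⋃ F : Finset T, ⋃ x ∈ F, (E ∩ Icc (ab x).1 (ab x).2) := by
      ext y
      constructor
      · intro hy
        obtain ⟨x, hx⟩ := mem_iUnion.1 (hTcov hy)
        obtain ⟨hxT, hx2⟩ := mem_iUnion.1 hx
        refine mem_iUnion.2 ⟨{⟨x, hxT⟩}, ?_⟩
        simp only [Finset.mem_singleton, iUnion_iUnion_eq_left]
        exact ⟨hy, hx2⟩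
      · intro hy
        obtain ⟨F, hF⟩ := mem_iUnion.1 hy
        obtain ⟨x, hx⟩ := mem_iUnion.1 hF
        obtain ⟨_, hx2⟩ := mem_iUnion.1 hx
        exact hx2.1
    have hdir : Directed (· ⊆ ·)
        (fun F : Finset T => ⋃ x ∈ F, (E ∩ Icc (ab x).1 (ab x).2)) := by
      intro F1 F2
      refine ⟨F1 ∪ F2, ?_, ?_⟩
      · exact biUnion_subset_biUnion_left (fun x hx => Finset.mem_union_left _ hx)
      · exact biUnion_subset_biUnion_left (fun x hx => Finset.mem_union_right _ hx)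
    rw [hEeq, hdir.measure_iUnion]
    refine iSup_le fun F => ?_
    obtain ⟨F', hF', hcov, hlen⟩ := exists_subcover F (fun x : T => (ab x).1)
      (fun x : T => (ab x).2) u v huv (fun x _ => by
        have := hab x (hTE x.2)
        exact ⟨this.1, this.2.1, this.2.2.1⟩)
    calc volume (⋃ x ∈ F, (E ∩ Icc (ab x).1 (ab x).2))
        ≤ volume (⋃ x ∈ F', (E ∩ Icc (ab x).1 (ab x).2)) := by
          refine measure_mono ?_
          intro y hy
          obtain ⟨x, hx⟩ := mem_iUnion.1 hy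
          obtain ⟨hxF, hx2⟩ := mem_iUnion.1 hx
          obtain ⟨j, hj, hyj⟩ := hcov x hxF y hx2.2
          exact mem_iUnion.2 ⟨j, mem_iUnion.2 ⟨hj, hx2.1, hyj⟩⟩
      _ ≤ ∑ x ∈ F', volume (E ∩ Icc (ab x).1 (ab x).2) := measure_biUnion_finset_le _ _
      _ ≤ ∑ x ∈ F', ENNReal.ofReal (K * ((ab x).2 - (ab x).1)) :=
          Finset.sum_le_sum fun x _ => (hab x (hTE x.2)).2.2.2.2
      _ = ENNReal.ofReal (∑ x ∈ F', K * ((ab x).2 - (ab x).1)) := by
          rw [ENNReal.ofReal_sum_of_nonneg]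
          intro x _
          have := (hab x (hTE x.2)).2.1
          exact mul_nonneg hK0 (by linarith)
      _ ≤ _ := by
          refine ENNReal.ofReal_le_ofReal ?_
          rw [← Finset.mul_sum, hl]
          calc K * ∑ x ∈ F', ((ab x).2 - (ab x).1) ≤ K * (2 * (v - u)) :=
                mul_le_mul_of_nonneg_left hlen hK0
            _ = _ := by rw [hK]; ring

end Pool.Agent.JS
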