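import Pool.Agent.Lib_MP_b52a92_nt.Good
import Pool.Agent.Lib_MP_b52a92_nt.Poset
import Pool.Agent.Lib_MP_b52a92_nt.Basis
import Pool.Agent.Lib_MP_b52a92_nt.Minor

set_option autoImplicit false

/-! Quantitative nondivergence (Kleinbock and Margulis) for polynomial matrix curves. -/

namespace Pool.Agent.JS

open Polynomial MeasureTheory Set

/-- the real matrix with the given integer columns -/
def cm {k j : ℕ} (b : Fin j → Fin k → ℤ) : Matrix (Fin k) (Fin j) ℝ :=
  Matrix.of fun i l => (b l i : ℝ)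

/-- minors as polynomials -/
noncomputable def mpoly {k j : ℕ} (Φ : Matrix (Fin k) (Fin k) ℝ[X]) (b : Fin j → Fin k → ℤ)
    (f : Fin j → Fin k) : ℝ[X] :=
  ((Φ * (cm b).map (C : ℝ →+* ℝ[X])).submatrix f id).det

theorem eval_mpoly {k j : ℕ} (Φ : Matrix (Fin k) (Fin k) ℝ[X]) (b : Fin j → Fin k → ℤ)
    (f : Fin j → Fin k) (x : ℝ) :
    (mpoly Φ b f).eval x = (((Φ.map (eval x)) * cm b).submatrix f id).det := by
  unfold mpoly
  rw [← coe_evalRingHom, RingHom.map_det]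
  congr 1
  ext i l
  simp [Matrix.mul_apply, eval_finsetSum]

theorem natDegree_mpoly {k j D : ℕ} (Φ : Matrix (Fin k) (Fin k) ℝ[X])
    (hΦ : ∀ i j, (Φ i j).natDegree ≤ D) (b : Fin j → Fin k → ℤ) (f : Fin j → Fin k) :
    (mpoly Φ b f).natDegree ≤ j * D := by
  unfold mpoly
  rw [Matrix.det_apply]
  apply natDegree_sum_le_of_forall_le
  intro σ _
  have h1 : (Equiv.Perm.sign σ • ∏ i, (Φ * (cm b).map (C : ℝ →+* ℝ[X])).submatrix f id (σ i) i :
      ℝ[X]).natDegree ≤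
      (∏ i, (Φ * (cm b).map (C : ℝ →+* ℝ[X])).submatrix f id (σ i) i : ℝ[X]).natDegree := by
    rcases Int.units_eq_one_or (Equiv.Perm.sign σ) with h | h <;> rw [h] <;> simp
  refine h1.trans ((natDegree_prod_le _ _).trans ?_)
  refine (Finset.sum_le_card_nsmul _ _ D ?_).trans (by simp)
  intro i _
  simp only [Matrix.submatrix_apply, id, Matrix.mul_apply]
  apply natDegree_sum_le_of_forall_le
  intro m _
  simp only [Matrix.map_apply]
  exact (natDegree_mul_C_le _ _).trans (hΦ _ _)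

theorem mm_eq {k j : ℕ} (Φ : Matrix (Fin k) (Fin k) ℝ[X]) (b : Fin j → Fin k → ℤ) (x : ℝ) :
    mm ((Φ.map (eval x)) * cm b) = ‖fun f : Fin j → Fin k => (mpoly Φ b f).eval x‖ := by
  unfold mm
  congr 1
  funext f
  rw [eval_mpoly]

theorem mm_continuous {k j : ℕ} (Φ : Matrix (Fin k) (Fin k) ℝ[X]) (b : Fin j → Fin k → ℤ) :
    Continuous fun x : ℝ => mm ((Φ.map (eval x)) * cm b) := by
  simp_rw [mm_eq]
  exact continuous_norm.comp (continuous_pi fun f => (mpoly Φ b f).continuous)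

/-- goodness of the functions `mm` -/
theorem mm_good (N : ℕ) (C1 : ℝ)
    (hC : ∀ p : ℝ[X], p.natDegree ≤ N →
    ∀ u v : ℝ, u ≤ v → ∀ ρ : ℝ, 0 < ρ → (∃ x ∈ Icc u v, ρ ≤ |p.eval x|) → ∀ ε : ℝ, 0 < ε →
    volume {x | x ∈ Icc u v ∧ |p.eval x| < ε} ≤
      ENNReal.ofReal (C1 * (ε / ρ) ^ ((1 : ℝ) / N) * (v - u)))
    {k j D : ℕ} (hjD : j * D ≤ N) (Φ : Matrix (Fin k) (Fin k) ℝ[X])
    (hΦ : ∀ i j, (Φ i j).natDegree ≤ D) (b : Fin j → Fin k → ℤ) (u v : ℝ) (huv : u ≤ v)
    (ρ : ℝ) (hρ : 0 < ρ) (hx : ∃ x ∈ Icc u v, ρ ≤ mm ((Φ.map (eval x)) * cm b)) (ε : ℝ)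
    (hε : 0 < ε) :
    volume {x | x ∈ Icc u v ∧ mm ((Φ.map (eval x)) * cm b) < ε} ≤
      ENNReal.ofReal (C1 * (ε / ρ) ^ ((1 : ℝ) / N) * (v - u)) := by
  obtain ⟨x, hx, hxρ⟩ := hx
  have hf : ∃ f : Fin j → Fin k, ρ ≤ |(mpoly Φ b f).eval x| := by
    by_contra hcon
    push Not at hcon
    rw [mm_eq] at hxρ
    have := (pi_norm_lt_iff hρ).mpr (fun f => by
      rw [Real.norm_eq_abs]; exact hcon f : ∀ f, ‖(mpoly Φ b f).eval x‖ < ρ)
    exact absurd hxρ (not_le.mpr this)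
  obtain ⟨f, hf⟩ := hf
  refine (measure_mono ?_).trans (hC (mpoly Φ b f) ((natDegree_mpoly Φ hΦ b f).trans hjD) u v huv
    ρ hρ ⟨x, hx, hf⟩ ε hε)
  rintro y ⟨hy, hy2⟩
  refine ⟨hy, lt_of_le_of_lt ?_ hy2⟩
  rw [mm_eq, ← Real.norm_eq_abs]
  exact norm_le_pi_norm (fun f : Fin j → Fin k => (mpoly Φ b f).eval y) f

/-- the determinant of the base change is at least one -/
theorem mm_le_of_comb {k n j : ℕ} (hn : n = j) (M : Matrix (Fin k) (Fin k) ℝ)
    (b : Fin n → Fin k → ℤ) (a : Fin j → Fin k → ℤ)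
    (ha : LinearIndependent ℚ fun l => cvq (a l))
    (hc : ∀ l, ∃ c : Fin n → ℤ, a l = ∑ l', c l' • b l') : mm (M * cm b) ≤ mm (M * cm a) := by
  subst hn
  choose c hc using hc
  set N : Matrix (Fin n) (Fin n) ℤ := Matrix.of fun l' l => c l l' with hN
  have h1 : cm a = cm b * N.map (Int.cast : ℤ → ℝ) := by
    ext i l
    rw [Matrix.mul_apply]
    simp only [cm, Matrix.of_apply, Matrix.map_apply, hN]
    rw [hc l, Finset.sum_apply]
    push_cast
    refine Finset.sum_congr rfl fun l' _ => ?_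
    simp only [Pi.smul_apply, smul_eq_mul]
    push_cast
    ring
  have hdet : N.det ≠ 0 := by
    intro h0
    have h2 : (N.map (Int.cast : ℤ → ℚ)).det = 0 := by
      have := (Int.castRingHom ℚ).map_det N
      rw [h0, map_zero] at this
      exact this.symm
    obtain ⟨w, hw0, hw⟩ := Matrix.exists_mulVec_eq_zero_iff.mpr h2
    apply hw0
    rw [Fintype.linearIndependent_iff] at ha
    funext l
    refine ha w ?_ l
    have h3 : ∀ l, cvq (a l) = ∑ l', (c l l' : ℚ) • cvq (b l') := by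
      intro l
      funext i
      rw [Finset.sum_apply]
      simp only [cvq, Pi.smul_apply, smul_eq_mul]
      rw [hc l, Finset.sum_apply]
      push_cast
      refine Finset.sum_congr rfl fun l' _ => ?_
      simp [Pi.smul_apply]
    simp_rw [h3, Finset.smul_sum, smul_smul]
    rw [Finset.sum_comm]
    simp_rw [← Finset.sum_smul]
    apply Finset.sum_eq_zero
    intro l' _
    have h4 := congrFun hw l'
    simp only [Matrix.mulVec, dotProduct, Matrix.map_apply, hN, Matrix.of_apply, Pi.zero_apply]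
      at h4
    have h5 : ∑ l, w l * (c l l' : ℚ) = 0 := by
      rw [← h4]
      exact Finset.sum_congr rfl fun l _ => mul_comm _ _
    rw [h5, zero_smul]
  have h6 : (1 : ℝ) ≤ |(N.map (Int.cast : ℤ → ℝ)).det| := by
    have h7 : (N.map (Int.cast : ℤ → ℝ)).det = (N.det : ℝ) := ((Int.castRingHom ℝ).map_det N).symm
    rw [h7, ← Int.cast_abs]
    exact_mod_cast Int.one_le_abs hdet
  rw [h1, ← Matrix.mul_assoc, mm_mul]
  nlinarith [mm_nonneg (M * cm b)]

theorem mm_snoc {k j : ℕ} (M : Matrix (Fin k) (Fin k) ℝ) (b : Fin j → Fin k → ℤ)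
    (g : Fin k → ℤ) :
    mm (M * cm (Fin.snoc b g : Fin (j + 1) → Fin k → ℤ)) ≤
      (j + 1) * mm (M * cm b) * ‖M.mulVec (rvr g)‖ := by
  have h := mm_snoc_le (M * cm (Fin.snoc b g : Fin (j + 1) → Fin k → ℤ))
  have h1 : (M * cm (Fin.snoc b g : Fin (j + 1) → Fin k → ℤ)).submatrix id Fin.castSucc =
      M * cm b := by
    ext i l
    simp [Matrix.mul_apply, cm]
  have h2 : (fun i => (M * cm (Fin.snoc b g : Fin (j + 1) → Fin k → ℤ)) i (Fin.last j)) =
      M.mulVec (rvr g) := by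
    funext i
    simp [Matrix.mul_apply, cm, Matrix.mulVec, dotProduct, rvr]
  rwa [h1, h2] at h

theorem mm_zero_cols {k n : ℕ} (hn : n = 0) (A : Matrix (Fin k) (Fin n) ℝ) : mm A = 1 := by
  subst hn
  unfold mm
  have : (fun f : Fin 0 → Fin k => (A.submatrix f id).det) = fun _ => (1 : ℝ) := by
    funext f
    exact Matrix.det_isEmpty
  rw [this]
  simp

/-- rational independence of integer vectors implies real independence -/
theorem cm_indep {k j : ℕ} (b : Fin j → Fin k → ℤ)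
    (hb : LinearIndependent ℚ fun l => cvq (b l)) (c : Fin j → ℝ)
    (hc : (cm b).mulVec c = 0) : c = 0 := by
  rw [Fintype.linearIndependent_iff] at hb
  funext l
  rw [Pi.zero_apply, ← Module.forall_dual_apply_eq_zero_iff ℚ]
  intro φ
  refine hb (fun l => φ (c l)) ?_ l
  funext i
  rw [Finset.sum_apply]
  simp only [cvq, Pi.smul_apply, smul_eq_mul, Pi.zero_apply]
  have h1 := congrFun hc i
  simp only [Matrix.mulVec, dotProduct, cm, Matrix.of_apply, Pi.zero_apply] at h1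
  have h2 : φ (∑ l, (b l i : ℝ) * c l) = 0 := by rw [h1, map_zero]
  rw [map_sum] at h2
  rw [← h2]
  refine Finset.sum_congr rfl fun l _ => ?_
  have h3 : (b l i : ℝ) * c l = (b l i : ℚ) • c l := by
    rw [Rat.smul_def]
    push_cast
    rfl
  rw [h3, map_smul, smul_eq_mul, mul_comm]

theorem cm_mulVec_rvr {k j : ℕ} (b : Fin j → Fin k → ℤ) (z : Fin j → ℤ) :
    (cm b).mulVec (rvr z) = rvr (∑ l, z l • b l) := by
  funext i
  simp only [Matrix.mulVec, dotProduct, cm, Matrix.of_apply, rvr]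
  rw [Finset.sum_apply]
  push_cast
  refine Finset.sum_congr rfl fun l _ => ?_
  simp only [Pi.smul_apply, smul_eq_mul]
  push_cast
  ring

/-- the lower bound for the functions at the good point -/
theorem mm_sup {k j : ℕ} (hj : 1 ≤ j) (hjk : j ≤ k) (M : Matrix (Fin k) (Fin k) ℝ)
    (hM : ∀ c : Fin k → ℝ, M.mulVec c = 0 → c = 0)
    (hM1 : ∀ g : Fin k → ℤ, g ≠ 0 → 1 ≤ ‖M.mulVec (rvr g)‖) (b : Fin j → Fin k → ℤ)
    (hb : LinearIndependent ℚ fun l => cvq (b l)) :
    (1 / (2 * (k : ℝ))) ^ k ≤ mm (M * cm b) := by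
  have hinj : ∀ c : Fin j → ℝ, (M * cm b).mulVec c = 0 → c = 0 := by
    intro c hc
    rw [← Matrix.mulVec_mulVec] at hc
    exact cm_indep b hb c (hM _ hc)
  have h1 := mm_lower hj (M * cm b) (mm_ne_zero _ hinj) 1 one_pos (by
    intro z hz
    rw [← Matrix.mulVec_mulVec, cm_mulVec_rvr]
    apply hM1
    intro h0
    apply hz
    have h2 : (cm b).mulVec (rvr z) = 0 := by
      rw [cm_mulVec_rvr, h0]
      funext i
      simp [rvr]
    have h3 := cm_indep b hb _ h2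
    funext l
    have h4 := congrFun h3 l
    simp only [rvr, Pi.zero_apply] at h4
    exact_mod_cast h4)
  refine le_trans ?_ h1
  have hj' : (1 : ℝ) ≤ j := by exact_mod_cast hj
  have hjk' : (j : ℝ) ≤ k := by exact_mod_cast hjk
  have h5 : 1 / (2 * (k : ℝ)) ≤ 1 / (2 * (j : ℝ)) := by
    apply one_div_le_one_div_of_le <;> linarith
  have h6 : 1 / (2 * (k : ℝ)) ≤ 1 := by
    rw [div_le_one (by linarith)]
    linarith
  calc (1 / (2 * (k : ℝ))) ^ k ≤ (1 / (2 * (k : ℝ))) ^ j :=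
        pow_le_pow_of_le_one (by positivity) h6 hjk
    _ ≤ (1 / (2 * (j : ℝ))) ^ j := pow_le_pow_left₀ (by positivity) h5 j

/-- the chosen integer basis of a rational subspace -/
noncomputable def bm {k : ℕ} (W : Submodule ℚ (Fin k → ℚ)) :
    Fin (Module.finrank ℚ W) → Fin k → ℤ := (exists_int_basis W).choose

theorem bm_indep {k : ℕ} (W : Submodule ℚ (Fin k → ℚ)) :
    LinearIndependent ℚ (fun l => cvq (bm W l)) := (exists_int_basis W).choose_spec.1

theorem bm_span {k : ℕ} (W : Submodule ℚ (Fin k → ℚ)) :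
    Submodule.span ℚ (Set.range fun l => cvq (bm W l)) = W := (exists_int_basis W).choose_spec.2.1

theorem bm_mem {k : ℕ} (W : Submodule ℚ (Fin k → ℚ)) (z : Fin k → ℤ) (hz : cvq z ∈ W) :
    ∃ c : Fin (Module.finrank ℚ W) → ℤ, z = ∑ l, c l • bm W l :=
  ((exists_int_basis W).choose_spec.2.2 z).mp hz

theorem finrank_le_k {k : ℕ} (W : Submodule ℚ (Fin k → ℚ)) : Module.finrank ℚ W ≤ k := by
  have := Submodule.finrank_le W
  simpa using this

/-- adding one vector -/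
theorem mm_sup_vec {k : ℕ} (M : Matrix (Fin k) (Fin k) ℝ) (W : Submodule ℚ (Fin k → ℚ))
    (g : Fin k → ℤ) (hg : cvq g ∉ W) :
    mm (M * cm (bm (Submodule.span ℚ {cvq g} ⊔ W))) ≤
      k * mm (M * cm (bm W)) * ‖M.mulVec (rvr g)‖ := by
  set W2 := Submodule.span ℚ {cvq g} ⊔ W with hW2
  have hli : LinearIndependent ℚ
      (fun l => cvq ((Fin.snoc (bm W) g : Fin (Module.finrank ℚ W + 1) → Fin k → ℤ) l)) := by
    have h1 : (fun l => cvq ((Fin.snoc (bm W) g : Fin (Module.finrank ℚ W + 1) → Fin k → ℤ) l)) =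
        Fin.snoc (fun l => cvq (bm W l)) (cvq g) := by
      funext l
      refine Fin.lastCases ?_ (fun i => ?_) l
      · simp
      · simp
    rw [h1, linearIndependent_finSnoc]
    refine ⟨bm_indep W, ?_⟩
    rw [bm_span]
    exact hg
  have hmem : ∀ l, cvq ((Fin.snoc (bm W) g : Fin (Module.finrank ℚ W + 1) → Fin k → ℤ) l) ∈ W2 := by
    intro l
    refine Fin.lastCases ?_ (fun i => ?_) l
    · rw [Fin.snoc_last]
      exact Submodule.mem_sup_left (Submodule.mem_span_singleton_self _)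
    · rw [Fin.snoc_castSucc]
      apply Submodule.mem_sup_right
      have h2 : cvq (bm W i) ∈ Submodule.span ℚ (Set.range fun l => cvq (bm W l)) :=
        Submodule.subset_span ⟨i, rfl⟩
      rwa [bm_span] at h2
  have hspan : Submodule.span ℚ (Set.range fun l =>
      cvq ((Fin.snoc (bm W) g : Fin (Module.finrank ℚ W + 1) → Fin k → ℤ) l)) = W2 := by
    apply le_antisymm
    · rw [Submodule.span_le]
      rintro _ ⟨l, rfl⟩
      exact hmem l
    · apply sup_le
      · rw [Submodule.span_singleton_le_iff_mem]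
        exact Submodule.subset_span ⟨Fin.last _, by simp⟩
      · conv_lhs => rw [← bm_span W]
        rw [Submodule.span_le]
        rintro _ ⟨l, rfl⟩
        exact Submodule.subset_span ⟨Fin.castSucc l, by simp⟩
  have hrank : Module.finrank ℚ W2 = Module.finrank ℚ W + 1 := by
    have := finrank_span_eq_card hli
    rw [hspan] at this
    simpa using this
  have h3 := mm_le_of_comb hrank M (bm W2) _ hli (fun l => bm_mem W2 _ (hmem l))
  refine (h3.trans (mm_snoc M (bm W) g)).trans ?_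
  have h4 : ((Module.finrank ℚ W : ℝ) + 1) ≤ k := by
    have := finrank_le_k W2
    rw [hrank] at this
    exact_mod_cast this
  have h5 := mm_nonneg (M * cm (bm W))
  have h6 : 0 ≤ ‖M.mulVec (rvr g)‖ := norm_nonneg _
  have h7 : 0 ≤ mm (M * cm (bm W)) * ‖M.mulVec (rvr g)‖ := mul_nonneg h5 h6
  calc ((Module.finrank ℚ W : ℝ) + 1) * mm (M * cm (bm W)) * ‖M.mulVec (rvr g)‖ =
        ((Module.finrank ℚ W : ℝ) + 1) * (mm (M * cm (bm W)) * ‖M.mulVec (rvr g)‖) := by ring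
    _ ≤ k * (mm (M * cm (bm W)) * ‖M.mulVec (rvr g)‖) := mul_le_mul_of_nonneg_right h4 h7
    _ = _ := by ring

/-- at a marked point there are no short vectors -/
theorem no_short {k : ℕ} (Φ : Matrix (Fin k) (Fin k) ℝ[X]) (G0 : Finset (Fin k → ℤ))
    (P : Finset (Submodule ℚ (Fin k → ℚ)))
    (hP : ∀ W, W ∈ P ↔ W ≠ ⊥ ∧ ∃ G ⊆ G0, W = Submodule.span ℚ (cvq '' (G : Set (Fin k → ℤ))))
    (x ε1 ρ : ℝ) (hερ : ε1 ≤ ρ) (hρ : ρ ≤ 1)
    (hm : Marked (fun W x => mm ((Φ.map (eval x)) * cm (bm W))) ε1 ρ P x)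
    (g : Fin k → ℤ) (hg : g ≠ 0) (hgG : g ∈ G0) :
    ε1 ≤ k * ‖(Φ.map (eval x)).mulVec (rvr g)‖ := by
  classical
  obtain ⟨F, hFP, hchain, hFb, hout⟩ := hm
  set M := Φ.map (eval x) with hM
  have hcg : cvq g ≠ 0 := by
    intro h
    apply hg
    funext i
    have := congrFun h i
    simp only [cvq, Pi.zero_apply] at this
    exact_mod_cast this
  -- the subspace `W1`
  obtain ⟨W1, hW1g, hW1F, hW1F', hW1s, hW1m⟩ : ∃ W1 : Submodule ℚ (Fin k → ℚ), cvq g ∉ W1 ∧
      (∀ f ∈ F, cvq g ∉ f → f ≤ W1) ∧ (∀ f ∈ F, cvq g ∈ f → W1 ≤ f) ∧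
      (∃ G ⊆ G0, W1 = Submodule.span ℚ (cvq '' (G : Set (Fin k → ℤ)))) ∧
      mm (M * cm (bm W1)) ≤ 1 := by
    by_cases hne : (F.filter fun f => cvq g ∉ f).Nonempty
    · obtain ⟨W1, hW1⟩ := (F.filter fun f => cvq g ∉ f).exists_maximal hne
      have hW1F : W1 ∈ F ∧ cvq g ∉ W1 := by simpa using hW1.prop
      refine ⟨W1, hW1F.2, ?_, ?_, ?_, ?_⟩
      · intro f hf hfg
        rcases hchain f hf W1 hW1F.1 with h | h
        · exact h
        · exact hW1.le_of_ge (by simp [hf, hfg]) h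
      · intro f hf hfg
        rcases hchain f hf W1 hW1F.1 with h | h
        · exact absurd (h hfg) hW1F.2
        · exact h
      · exact ((hP W1).mp (hFP hW1F.1)).2
      · exact (hFb W1 hW1F.1).2.trans hρ
    · rw [Finset.not_nonempty_iff_eq_empty] at hne
      refine ⟨⊥, by simpa using hcg, ?_, fun _ _ _ => bot_le, ⟨∅, by simp, by simp⟩, ?_⟩
      · intro f hf hfg
        have : f ∈ F.filter fun f => cvq g ∉ f := by simp [hf, hfg]
        rw [hne] at this
        simp at this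
      · exact (mm_zero_cols (finrank_bot ℚ (Fin k → ℚ)) _).le
  have hkey := mm_sup_vec M W1 g hW1g
  set W2 := Submodule.span ℚ {cvq g} ⊔ W1 with hW2
  have hW2P : W2 ∈ P := by
    rw [hP]
    constructor
    · intro h
      apply hcg
      have : cvq g ∈ W2 := Submodule.mem_sup_left (Submodule.mem_span_singleton_self _)
      rw [h] at this
      simpa using this
    · obtain ⟨G, hG, hGs⟩ := hW1s
      refine ⟨insert g G, ?_, ?_⟩
      · intro y hy
        rw [Finset.mem_insert] at hy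
        rcases hy with rfl | hy
        · exact hgG
        · exact hG hy
      · rw [Finset.coe_insert, Set.image_insert_eq, Submodule.span_insert, ← hGs]
  have hcomp : ∀ f ∈ F, W2 ≤ f ∨ f ≤ W2 := by
    intro f hf
    by_cases hfg : cvq g ∈ f
    · left
      apply sup_le
      · rwa [Submodule.span_singleton_le_iff_mem]
      · exact hW1F' f hf hfg
    · right
      exact (hW1F f hf hfg).trans le_sup_right
  have hlow : ε1 ≤ mm (M * cm (bm W2)) := by
    by_cases hF : W2 ∈ F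
    · exact (hFb W2 hF).1
    · exact hερ.trans (hout W2 hW2P hF hcomp)
  refine hlow.trans (hkey.trans ?_)
  have h6 : 0 ≤ ‖M.mulVec (rvr g)‖ := norm_nonneg _
  have h7 : (k : ℝ) * mm (M * cm (bm W1)) ≤ k := by
    have : (0 : ℝ) ≤ k := by positivity
    nlinarith
  exact mul_le_mul_of_nonneg_right h7 h6

theorem KM (k D : ℕ) (hk : 1 ≤ k) (hD : 1 ≤ D) : ∃ C : ℝ, 0 < C ∧
    ∀ Φ : Matrix (Fin k) (Fin k) ℝ[X], (∀ i j, (Φ i j).natDegree ≤ D) →
    ∀ u v κ0 : ℝ, κ0 ∈ Icc u v →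
    (∀ c : Fin k → ℝ, (Φ.map (eval κ0)).mulVec c = 0 → c = 0) →
    (∀ g : Fin k → ℤ, g ≠ 0 → 1 ≤ ‖(Φ.map (eval κ0)).mulVec (rvr g)‖) →
    {g : Fin k → ℤ | ∃ κ ∈ Icc u v, ‖(Φ.map (eval κ)).mulVec (rvr g)‖ < 1}.Finite →
    ∀ ε : ℝ, 0 < ε → ε < 1 →
    volume {κ | κ ∈ Icc u v ∧ ∃ g : Fin k → ℤ, g ≠ 0 ∧ ‖(Φ.map (eval κ)).mulVec (rvr g)‖ < ε} ≤
      ENNReal.ofReal (C * ε ^ ((1 : ℝ) / (k * D)) * (v - u)) := by
  classical
  obtain ⟨C1, hC1, hC⟩ := poly_sublevel (k * D) (Nat.mul_pos hk hD)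
  have hkr : (1 : ℝ) ≤ k := by exact_mod_cast hk
  set ρ : ℝ := (1 / (2 * (k : ℝ))) ^ k with hρdef
  have hρ : 0 < ρ := by positivity
  have hρ1 : ρ ≤ 1 := by
    apply pow_le_one₀ (by positivity)
    rw [div_le_one (by linarith)]
    linarith
  set e : ℝ := (1 : ℝ) / (k * D) with he
  have he0 : 0 < e := by
    have : (0 : ℝ) < D := by exact_mod_cast hD
    positivity
  have heN : (1 : ℝ) / ((k * D : ℕ) : ℝ) = e := by rw [he]; push_cast; rfl
  set A : ℝ := (k / ρ) ^ e with hA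
  have hA0 : 0 < A := by positivity
  have h2k : (2 : ℝ) ≤ 2 ^ (k + 1) := by
    calc (2 : ℝ) = 2 ^ 1 := by norm_num
      _ ≤ 2 ^ (k + 1) := pow_le_pow_right₀ (by norm_num) (by omega)
  refine ⟨A + (2 ^ (k + 1) - 2) * C1 * A, by
    have : 0 ≤ (2 ^ (k + 1) - 2 : ℝ) * C1 * A := by
      have : (0 : ℝ) ≤ 2 ^ (k + 1) - 2 := by linarith
      positivity
    linarith, ?_⟩
  intro Φ hΦ u v κ0 hκ0 hinj hlow hfin ε hε hε1
  have huv : u ≤ v := hκ0.1.trans hκ0.2
  by_cases hsmall : (k : ℝ) * ε ≤ ρ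
  · -- the main case
    set G0 := hfin.toFinset with hG0
    set P : Finset (Submodule ℚ (Fin k → ℚ)) :=
      (G0.powerset.image fun G : Finset (Fin k → ℤ) =>
        Submodule.span ℚ (cvq '' (G : Set (Fin k → ℤ)))).filter
        (· ≠ ⊥) with hPdef
    have hP : ∀ W, W ∈ P ↔ W ≠ ⊥ ∧ ∃ G ⊆ G0, W = Submodule.span ℚ
        (cvq '' (G : Set (Fin k → ℤ))) := by
      intro W
      rw [hPdef, Finset.mem_filter, Finset.mem_image]
      constructor
      · rintro ⟨⟨G, hG, rfl⟩, h⟩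
        exact ⟨h, G, Finset.mem_powerset.mp hG, rfl⟩
      · rintro ⟨h, G, hG, rfl⟩
        exact ⟨⟨G, Finset.mem_powerset.mpr hG, rfl⟩, h⟩
    have hrk1 : ∀ W ∈ P, 1 ≤ Module.finrank ℚ W := by
      intro W hW
      rw [hP] at hW
      by_contra hcon
      have h0 : Module.finrank ℚ W = 0 := by omega
      exact hW.1 (Submodule.finrank_eq_zero.mp h0)
    set ε1 : ℝ := k * ε with hε1def
    have hε1p : 0 < ε1 := by positivity
    set Gd : ℝ := C1 * (ε1 / ρ) ^ e with hGd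
    have hGd0 : 0 ≤ Gd := by positivity
    have hmb := marked_bound (σ := Submodule ℚ (Fin k → ℚ)) (fun W => Module.finrank ℚ W)
      (fun W W' h => Submodule.finrank_lt_finrank_of_lt h)
      (fun W x => mm ((Φ.map (eval x)) * cm (bm W))) (fun W => mm_continuous Φ (bm W))
      ε1 ρ Gd hGd0 hsmall (Finset.Icc 1 k) P
      (fun W hW => Finset.mem_Icc.mpr ⟨hrk1 W hW, finrank_le_k W⟩) u v huv
      (fun W hW => ⟨κ0, hκ0, mm_sup (hrk1 W hW) (finrank_le_k W) _ hinj hlow _ (bm_indep W)⟩)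
      (fun W hW a b hua hab hbv hx => by
        have := mm_good (k * D) C1 hC (Nat.mul_le_mul_right D (finrank_le_k W)) Φ hΦ (bm W) a b hab
          ρ hρ hx ε1 hε1p
        rwa [heN] at this)
    have hcard : (Finset.Icc 1 k).card = k := by simp
    rw [hcard] at hmb
    refine (measure_mono ?_).trans (hmb.trans (ENNReal.ofReal_le_ofReal ?_))
    · rintro κ ⟨hκ, g, hg, hgε⟩
      refine ⟨hκ, fun hm => ?_⟩
      have hgG : g ∈ G0 := by
        rw [hG0, Set.Finite.mem_toFinset]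
        exact ⟨κ, hκ, hgε.trans hε1⟩
      have h1 := no_short Φ G0 P hP κ ε1 ρ hsmall hρ1 hm g hg hgG
      have h2 : (k : ℝ) * ‖(Φ.map (eval κ)).mulVec (rvr g)‖ < k * ε :=
        mul_lt_mul_of_pos_left hgε (by linarith)
      linarith
    · have h3 : (ε1 / ρ) ^ e = A * ε ^ e := by
        rw [hA, ← Real.mul_rpow (by positivity) hε.le]
        congr 1
        rw [hε1def]
        ring
      have h4 : 0 ≤ v - u := by linarith
      have h5 : 0 ≤ A * ε ^ e * (v - u) := by positivity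
      rw [hGd, h3]
      have h6 : (A + (2 ^ (k + 1) - 2) * C1 * A) * ε ^ e * (v - u) =
        A * ε ^ e * (v - u) + (2 ^ (k + 1) - 2) * (C1 * (A * ε ^ e)) * (v - u) := by ring
      rw [h6]
      linarith
  · -- the trivial case
    push Not at hsmall
    have h1 : 1 ≤ A * ε ^ e := by
      rw [hA, ← Real.mul_rpow (by positivity) hε.le]
      apply Real.one_le_rpow _ he0.le
      rw [div_mul_eq_mul_div, one_le_div hρ]
      exact hsmall.le
    refine (measure_mono (fun κ hκ => hκ.1 : _ ⊆ Icc u v)).trans ?_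
    rw [Real.volume_Icc]
    apply ENNReal.ofReal_le_ofReal
    have h4 : 0 ≤ v - u := by linarith
    have h5 : 0 ≤ (2 ^ (k + 1) - 2 : ℝ) * C1 * A * ε ^ e * (v - u) := by
      have : (0 : ℝ) ≤ 2 ^ (k + 1) - 2 := by linarith
      positivity
    have h6 : (A + (2 ^ (k + 1) - 2) * C1 * A) * ε ^ e * (v - u) =
      A * ε ^ e * (v - u) + (2 ^ (k + 1) - 2) * C1 * A * ε ^ e * (v - u) := by ring
    rw [h6]
    nlinarith

end Pool.Agent.JS
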