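import Pool.Agent.Lib_MP_b52a92_nt.Theta
import Pool.Agent.Lib_MP_b9fedf_ag.Wr1

set_option autoImplicit false

/-! Wronskian type determinants at the special point. -/

namespace Pool.Agent.JS

open Polynomial MeasureTheory Set

/-- complex Taylor coefficients -/
noncomputable def indTc {d : ℕ} (i : ℕ) (z : ℂ) (c : Fin (d + 1) → ℂ) : ℂ :=
  ∑ l, c l * (((l : ℕ).choose i : ℕ) : ℂ) * z ^ ((l : ℕ) - i)

theorem ind_iter {d : ℕ} (c : Fin (d + 1) → ℂ) (i : ℕ) (z : ℂ) :
    iteratedDeriv i (fun w => ∑ l, c l * w ^ (l : ℕ)) z = (i.factorial : ℂ) * indTc i z c := by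
  rw [iteratedDeriv_fun_sum (fun l _ => by fun_prop), indTc, Finset.mul_sum]
  refine Finset.sum_congr rfl fun l _ => ?_
  rw [iteratedDeriv_const_mul_field, iteratedDeriv_pow, Nat.descFactorial_eq_factorial_mul_choose]
  push_cast
  ring

theorem ind_wr {d j : ℕ} (c : Fin j → Fin (d + 1) → ℂ)
    (hc : ∀ a : Fin j → ℂ, (∀ k, ∑ l, a l * c l k = 0) → a = 0) :
    ∃ z, (Matrix.of fun i l : Fin j => indTc (i : ℕ) z (c l)).det ≠ 0 := by
  set g : Fin j → ℂ → ℂ := fun l w => ∑ k, c l k * w ^ (k : ℕ) with hg
  have hgd : ∀ l, Differentiable ℂ (g l) := by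
    intro l
    simp only [hg]
    fun_prop
  have hli : LinearIndependent ℂ g := by
    rw [Fintype.linearIndependent_iff]
    intro a ha
    have h1 : a = 0 := by
      apply hc a
      intro k
      set P : ℂ[X] := ∑ k : Fin (d + 1), C (∑ l, a l * c l k) * X ^ (k : ℕ) with hP
      have hP0 : P = 0 := by
        apply Polynomial.funext
        intro w
        have h2 := congrFun ha w
        simp only [Finset.sum_apply, Pi.smul_apply, smul_eq_mul, Pi.zero_apply, hg] at h2
        rw [hP, eval_finsetSum]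
        simp only [eval_mul, eval_C, eval_pow, eval_X, eval_zero]
        rw [← h2]
        simp_rw [Finset.sum_mul, Finset.mul_sum]
        rw [Finset.sum_comm]
        refine Finset.sum_congr rfl fun l _ => Finset.sum_congr rfl fun k _ => ?_
        ring
      have h3 : P.coeff (k : ℕ) = ∑ l, a l * c l k := by
        rw [hP, finsetSum_coeff]
        rw [Finset.sum_eq_single k]
        · rw [coeff_C_mul, coeff_X_pow_self, mul_one]
        · intro k' _ hk'
          rw [coeff_C_mul, coeff_X_pow, if_neg, mul_zero]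
          intro h
          exact hk' (Fin.ext h.symm)
        · simp
      rw [← h3, hP0, coeff_zero]
    intro i
    rw [h1]; rfl
  obtain ⟨z, hz⟩ := Pool.Agent.GGL.exists_Wr_ne_zero g hgd hli
  refine ⟨z, fun h0 => hz ?_⟩
  unfold Pool.Agent.GGL.Wr
  have h1 : (Matrix.of fun i l : Fin j => iteratedDeriv (i : ℕ) (g l) z) =
      Matrix.diagonal (fun i : Fin j => ((i : ℕ).factorial : ℂ)) *
        (Matrix.of fun i l : Fin j => indTc (i : ℕ) z (c l)) := by
    ext i l
    rw [Matrix.diagonal_mul]
    exact ind_iter (c l) i z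
  rw [h1, Matrix.det_mul, h0, mul_zero]

/-- independence over the rationals gives independence over every field of characteristic zero -/
theorem ind_ext {K : Type*} [Field K] [CharZero K] {k j : ℕ} (b : Fin j → Fin k → ℤ)
    (hb : LinearIndependent ℚ fun l => cvq (b l)) (a : Fin j → K)
    (h : ∀ i, ∑ l, a l * (b l i : K) = 0) : a = 0 := by
  classical
  have hinj := hb.fintypeLinearCombination_injective
  obtain ⟨G, hG⟩ := LinearMap.exists_leftInverse_of_injective
    (Fintype.linearCombination ℚ (fun l => cvq (b l))) (LinearMap.ker_eq_bot.2 hinj)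
  funext l'
  -- the left inverse as a matrix
  have h1 : ∀ l, ∑ i, (b l i : ℚ) * G (Pi.single i 1) l' = if l = l' then 1 else 0 := by
    intro l
    have h2 : cvq (b l) = ∑ i, (b l i : ℚ) • (Pi.single i (1 : ℚ) : Fin k → ℚ) := by
      funext i
      simp [cvq, Finset.sum_apply, Pi.single_apply]
    have h3 : G (cvq (b l)) = Pi.single l 1 := by
      have h4 := LinearMap.congr_fun hG (Pi.single l (1 : ℚ))
      simp only [LinearMap.comp_apply, LinearMap.id_apply] at h4
      rw [Fintype.linearCombination_apply_single, one_smul] at h4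
      exact h4
    have h5 := congrFun h3 l'
    rw [h2, map_sum] at h5
    simp only [map_smul, Finset.sum_apply, Pi.smul_apply, smul_eq_mul] at h5
    rw [h5, Pi.single_apply]
    by_cases hl : l = l'
    · simp [hl]
    · simp [hl, Ne.symm hl]
  have h6 : ∀ l, ∑ i, (b l i : K) * ((G (Pi.single i 1) l' : ℚ) : K) =
      if l = l' then 1 else 0 := by
    intro l
    have h7 := congrArg (fun q : ℚ => (q : K)) (h1 l)
    push_cast at h7
    rw [h7]
    split_ifs <;> simp
  have h8 : a l' = ∑ i, (∑ l, a l * (b l i : K)) * ((G (Pi.single i 1) l' : ℚ) : K) := by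
    calc a l' = ∑ l, a l * (if l = l' then 1 else 0) := by simp
      _ = ∑ l, a l * ∑ i, (b l i : K) * ((G (Pi.single i 1) l' : ℚ) : K) := by
          simp_rw [h6]
      _ = ∑ i, (∑ l, a l * (b l i : K)) * ((G (Pi.single i 1) l' : ℚ) : K) := by
          simp_rw [Finset.mul_sum, Finset.sum_mul]
          rw [Finset.sum_comm]
          refine Finset.sum_congr rfl fun i _ => Finset.sum_congr rfl fun l _ => ?_
          ring
  rw [h8]
  simp [h]

/-- Taylor coefficient polynomials -/
noncomputable def indPol {R : Type*} [CommRing R] {d : ℕ} (i : ℕ) (g : Fin (d + 1) → ℤ) : R[X] :=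
  ∑ l : Fin (d + 1), C ((g l : R) * (((l : ℕ).choose i : ℕ) : R)) * X ^ ((l : ℕ) - i)

theorem indPol_deg {R : Type*} [CommRing R] {d : ℕ} (i : ℕ) (g : Fin (d + 1) → ℤ) :
    (indPol i g : R[X]).natDegree ≤ d := by
  unfold indPol
  apply natDegree_sum_le_of_forall_le
  intro l _
  refine (natDegree_C_mul_X_pow_le _ _).trans ?_
  have := l.2
  omega

theorem ind_det_deg {R : Type*} [CommRing R] {n d : ℕ} (M : Matrix (Fin n) (Fin n) R[X])
    (h : ∀ i j, (M i j).natDegree ≤ d) : M.det.natDegree ≤ n * d := by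
  rw [Matrix.det_apply]
  apply natDegree_sum_le_of_forall_le
  intro σ _
  have h1 : (∏ i, M (σ i) i).natDegree ≤ n * d := by
    refine (natDegree_prod_le _ _).trans ?_
    calc ∑ i : Fin n, (M (σ i) i).natDegree ≤ ∑ _i : Fin n, d :=
          Finset.sum_le_sum fun i _ => h _ _
      _ = n * d := by simp
  rw [Units.smul_def]
  exact (natDegree_smul_le _ _).trans h1

theorem indPol_aeval (m : ℕ) {d : ℕ} (i : ℕ) (g : Fin (d + 1) → ℤ) (κ : ℝ) :
    aeval κ (indPol i g : (Algebra.adjoin ℤ {β m})[X]) = tc i κ g := by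
  unfold indPol tc
  rw [map_sum]
  refine Finset.sum_congr rfl fun l _ => ?_
  rw [map_mul, aeval_C, map_pow, aeval_X, map_mul, map_intCast, map_natCast]

/-- the embedding of the ring of coefficients in the complex numbers -/
noncomputable def indEmb (m : ℕ) : (Algebra.adjoin ℤ {β m}) →+* ℂ :=
  Complex.ofRealHom.comp (algebraMap (Algebra.adjoin ℤ {β m}) ℝ)

theorem indPol_eval₂ (m : ℕ) {d : ℕ} (i : ℕ) (g : Fin (d + 1) → ℤ) (z : ℂ) :
    eval₂RingHom (indEmb m) z (indPol i g : (Algebra.adjoin ℤ {β m})[X]) =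
      indTc i z (fun l => (g l : ℂ)) := by
  unfold indPol indTc
  rw [map_sum]
  refine Finset.sum_congr rfl fun l _ => ?_
  rw [map_mul, map_pow, coe_eval₂RingHom, eval₂_C, eval₂_X, map_mul, map_intCast, map_natCast]

theorem ind_card {d j : ℕ} (b : Fin j → Fin (d + 1) → ℤ)
    (hb : LinearIndependent ℚ fun l => cvq (b l)) : j ≤ d + 1 := by
  have h := hb.fintype_card_le_finrank
  simpa using h

theorem det_tc_ne_zero (m d j : ℕ) (hm : 1 ≤ m) (b : Fin j → Fin (d + 1) → ℤ)
    (hb : LinearIndependent ℚ fun l => cvq (b l)) :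
    (Matrix.of fun i l : Fin j => tc (i : ℕ) (kap m d) (b l)).det ≠ 0 := by
  set M : Matrix (Fin j) (Fin j) (Algebra.adjoin ℤ {β m})[X] :=
    Matrix.of fun i l : Fin j => indPol (i : ℕ) (b l) with hM
  have hj := ind_card b hb
  have hdeg : M.det.natDegree ≤ (d + 1) ^ 2 := by
    have h1 : M.det.natDegree ≤ j * d := ind_det_deg M (fun i l => indPol_deg _ _)
    refine h1.trans ?_
    nlinarith
  have hne : M.det ≠ 0 := by
    intro h0
    obtain ⟨z, hz⟩ := ind_wr (fun l k => (b l k : ℂ)) (fun a ha => ind_ext b hb a ha)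
    apply hz
    have h1 := congrArg (eval₂RingHom (indEmb m) z) h0
    rw [RingHom.map_det, map_zero] at h1
    rw [← h1]
    congr 1
    ext i l
    exact (indPol_eval₂ m i (b l) z).symm
  have h2 := theta_ne m d hm M.det hne hdeg
  rw [AlgHom.map_det] at h2
  intro h3
  apply h2
  rw [← h3]
  congr 1
  ext i l
  exact indPol_aeval m i (b l) (kap m d)

theorem indTc_sub {d : ℕ} (i : ℕ) (z : ℂ) (x y : Fin (d + 1) → ℂ) (t : ℂ) :
    indTc i z (fun k => x k - t * y k) = indTc i z x - t * indTc i z y := by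
  unfold indTc
  rw [Finset.mul_sum, ← Finset.sum_sub_distrib]
  refine Finset.sum_congr rfl fun l _ => ?_
  ring

/-- the value at `β` in the ring of coefficients -/
noncomputable def indEv (m : ℕ) {d : ℕ} (g : Fin (d + 1) → ℤ) : Algebra.adjoin ℤ {β m} :=
  ∑ l, (g l : Algebra.adjoin ℤ {β m}) *
    (⟨β m, Algebra.subset_adjoin (Set.mem_singleton _)⟩ : Algebra.adjoin ℤ {β m}) ^ (l : ℕ)

theorem indEv_coe (m : ℕ) {d : ℕ} (g : Fin (d + 1) → ℤ) :
    algebraMap (Algebra.adjoin ℤ {β m}) ℝ (indEv m g) = ev (β m) g := by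
  unfold indEv ev
  rw [map_sum]
  refine Finset.sum_congr rfl fun l _ => ?_
  rw [map_mul, map_pow, map_intCast]
  rfl

theorem det_ev_tc_ne_zero (m d j : ℕ) (hm : 1 ≤ m) (b : Fin (j + 1) → Fin (d + 1) → ℤ)
    (hb : LinearIndependent ℚ fun l => cvq (b l)) (hne : ∃ l, ev (β m) (b l) ≠ 0) :
    (Matrix.of (Fin.cons (fun l => ev (β m) (b l))
      (fun (i : Fin j) (l : Fin (j + 1)) => tc (i : ℕ) (kap m d) (b l)) :
        Fin (j + 1) → Fin (j + 1) → ℝ)).det ≠ 0 := by
  obtain ⟨l0, hl0⟩ := hne
  set M : Matrix (Fin (j + 1)) (Fin (j + 1)) (Algebra.adjoin ℤ {β m})[X] :=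
    Matrix.of (Fin.cons (fun l => C (indEv m (b l)))
      (fun (i : Fin j) (l : Fin (j + 1)) => indPol (i : ℕ) (b l)) :
        Fin (j + 1) → Fin (j + 1) → (Algebra.adjoin ℤ {β m})[X]) with hM
  have hj := ind_card b hb
  have hdeg : M.det.natDegree ≤ (d + 1) ^ 2 := by
    have h1 : M.det.natDegree ≤ (j + 1) * d := by
      apply ind_det_deg M
      intro i l
      refine Fin.cases ?_ (fun i => ?_) i
      · show (C (indEv m (b l))).natDegree ≤ d
        rw [natDegree_C]; exact Nat.zero_le _
      · exact indPol_deg _ _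
    refine h1.trans ?_
    nlinarith
  have hne : M.det ≠ 0 := by
    intro h0
    set e : Fin (j + 1) → ℂ := fun l => ((ev (β m) (b l) : ℝ) : ℂ) with he
    have he0 : e l0 ≠ 0 := by
      simp only [he]
      exact_mod_cast hl0
    set c : Fin j → Fin (d + 1) → ℂ := fun i k =>
      (b (l0.succAbove i) k : ℂ) - (e (l0.succAbove i) / e l0) * (b l0 k : ℂ) with hc
    have hcli : ∀ a : Fin j → ℂ, (∀ k, ∑ l, a l * c l k = 0) → a = 0 := by
      intro a ha
      set a' : Fin (j + 1) → ℂ := l0.insertNth (- ∑ l, a l * (e (l0.succAbove l) / e l0)) a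
        with ha'
      have h1 : a' = 0 := by
        apply ind_ext b hb a'
        intro k
        rw [Fin.sum_univ_succAbove _ l0]
        simp only [ha', Fin.insertNth_apply_same, Fin.insertNth_apply_succAbove]
        rw [← ha k]
        simp only [hc, mul_sub, Finset.sum_sub_distrib, neg_mul, Finset.sum_mul]
        have h2 : ∀ x y : ℂ, -x + y = y - x := fun x y => by ring
        rw [h2]
        congr 1
        refine Finset.sum_congr rfl fun l _ => ?_
        ring
      funext i
      have h2 := congrFun h1 (l0.succAbove i)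
      rw [ha', Fin.insertNth_apply_succAbove] at h2
      exact h2
    obtain ⟨z, hz⟩ := ind_wr c hcli
    -- the complex matrix is singular
    have h1 := congrArg (eval₂RingHom (indEmb m) z) h0
    rw [RingHom.map_det, map_zero] at h1
    obtain ⟨v, hv, hv0⟩ := Matrix.exists_mulVec_eq_zero_iff.mpr h1
    have hrow0 : ∑ l, e l * v l = 0 := by
      have h2 := congrFun hv0 0
      simp only [Matrix.mulVec, dotProduct, Pi.zero_apply] at h2
      rw [← h2]
      refine Finset.sum_congr rfl fun l _ => ?_
      congr 1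
      show e l = eval₂RingHom (indEmb m) z (C (indEv m (b l)))
      rw [coe_eval₂RingHom, eval₂_C]
      show ((ev (β m) (b l) : ℝ) : ℂ) = ((algebraMap (Algebra.adjoin ℤ {β m}) ℝ (indEv m (b l)) : ℝ) : ℂ)
      rw [indEv_coe]
    have hrow : ∀ i : Fin j, ∑ l, indTc (i : ℕ) z (fun k => (b l k : ℂ)) * v l = 0 := by
      intro i
      have h2 := congrFun hv0 i.succ
      simp only [Matrix.mulVec, dotProduct, Pi.zero_apply] at h2
      rw [← h2]
      refine Finset.sum_congr rfl fun l _ => ?_
      congr 1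
      exact (indPol_eval₂ m i (b l) z).symm
    rw [Fin.sum_univ_succAbove _ l0] at hrow0
    have ha : (fun i => v (l0.succAbove i)) = (0 : Fin j → ℂ) := by
      apply Matrix.eq_zero_of_mulVec_eq_zero hz
      funext i
      simp only [Matrix.mulVec, dotProduct, Matrix.of_apply, Pi.zero_apply]
      have h2 := hrow i
      rw [Fin.sum_univ_succAbove _ l0] at h2
      have h3 : v l0 = - (∑ l, e (l0.succAbove l) * v (l0.succAbove l)) / e l0 := by
        field_simp
        linear_combination hrow0
      simp only [hc]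
      have h4 : ∀ l : Fin j, indTc (i : ℕ) z (fun k => (b (l0.succAbove l) k : ℂ) -
          (e (l0.succAbove l) / e l0) * (b l0 k : ℂ)) * v (l0.succAbove l) =
          indTc (i : ℕ) z (fun k => (b (l0.succAbove l) k : ℂ)) * v (l0.succAbove l) -
            indTc (i : ℕ) z (fun k => (b l0 k : ℂ)) *
              (e (l0.succAbove l) * v (l0.succAbove l) / e l0) := by
        intro l
        rw [indTc_sub]
        ring
      rw [Finset.sum_congr rfl (fun l _ => h4 l), Finset.sum_sub_distrib, ← Finset.mul_sum,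
        ← Finset.sum_div]
      rw [h3] at h2
      rw [← h2]
      ring
    apply hv
    have h5 : v l0 = 0 := by
      have h6 : ∀ l, v (l0.succAbove l) = 0 := fun l => congrFun ha l
      simp only [h6, mul_zero, Finset.sum_const_zero, add_zero] at hrow0
      rcases mul_eq_zero.mp hrow0 with h7 | h7
      · exact absurd h7 he0
      · exact h7
    funext l
    rcases Fin.eq_self_or_eq_succAbove l0 l with h6 | ⟨i, h6⟩
    · rw [h6, h5]; rfl
    · rw [h6]; exact congrFun ha i
  have h2 := theta_ne m d hm M.det hne hdeg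
  rw [AlgHom.map_det] at h2
  intro h3
  apply h2
  rw [← h3]
  congr 1
  ext i l
  refine Fin.cases ?_ (fun i => ?_) i
  · show aeval (kap m d) (C (indEv m (b l))) = ev (β m) (b l)
    rw [aeval_C, indEv_coe]
  · exact indPol_aeval m i (b l) (kap m d)

/-- dimension of the space of relations of the powers of `β` -/
theorem vanish_dim (m d j : ℕ) (hm : 1 ≤ m) (hj : 1 ≤ j) (b : Fin j → Fin (d + 1) → ℤ)
    (hb : LinearIndependent ℚ fun l => cvq (b l)) (h0 : ∀ l, ev (β m) (b l) = 0) :
    j + m ≤ d + 1 := by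
  classical
  have hbZ : LinearIndependent ℤ fun l => cvq (b l) := (LinearIndependent.iff_fractionRing ℤ ℚ).2 hb
  rw [Fintype.linearIndependent_iff] at hbZ
  have hr : LinearIndependent ℤ (fun (l : Fin j) (k : {k : Fin (d + 1) // m ≤ (k : ℕ)}) =>
      ((b l k : ℤ) : ℚ)) := by
    rw [Fintype.linearIndependent_iff]
    intro a ha
    apply hbZ a
    set g : Fin (d + 1) → ℤ := fun k => ∑ l, a l * b l k with hg
    have hgm : ∀ k : Fin (d + 1), m ≤ (k : ℕ) → g k = 0 := by
      intro k hk
      have h1 := congrFun ha ⟨k, hk⟩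
      simp only [Finset.sum_apply, Pi.smul_apply, zsmul_eq_mul, Pi.zero_apply] at h1
      have h2 : ((g k : ℤ) : ℚ) = 0 := by
        simp only [hg]
        push_cast
        exact h1
      exact_mod_cast h2
    have hgev : ev (β m) g = 0 := by
      unfold ev
      simp only [hg]
      push_cast
      simp_rw [Finset.sum_mul]
      rw [Finset.sum_comm]
      apply Finset.sum_eq_zero
      intro l _
      have h1 := h0 l
      unfold ev at h1
      calc ∑ k : Fin (d + 1), (a l : ℝ) * (b l k : ℝ) * β m ^ (k : ℕ)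
          = (a l : ℝ) * ∑ k : Fin (d + 1), (b l k : ℝ) * β m ^ (k : ℕ) := by
            rw [Finset.mul_sum]
            refine Finset.sum_congr rfl fun k _ => ?_
            ring
        _ = 0 := by rw [h1, mul_zero]
    -- extension by zero
    set G : ℕ → ℤ := fun k => if h : k < d + 1 then g ⟨k, h⟩ else 0 with hG
    have hG1 : ∀ k, m ≤ k → G k = 0 := by
      intro k hk
      simp only [hG]
      by_cases h : k < d + 1
      · rw [dif_pos h]; exact hgm _ hk
      · rw [dif_neg h]
    have hG2 : ∀ k, d + 1 ≤ k → G k = 0 := by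
      intro k hk
      simp only [hG]
      rw [dif_neg (by omega)]
    have hs1 : ∑ k ∈ Finset.range (d + 1), (G k : ℝ) * β m ^ k = 0 := by
      rw [← Fin.sum_univ_eq_sum_range (fun k => (G k : ℝ) * β m ^ k) (d + 1)]
      unfold ev at hgev
      rw [← hgev]
      refine Finset.sum_congr rfl fun k _ => ?_
      simp only [hG]
      rw [dif_pos k.2]
    have hs2 : ∑ k ∈ Finset.range m, (G k : ℝ) * β m ^ k = 0 := by
      rw [← hs1]
      by_cases h : m ≤ d + 1
      · apply Finset.sum_subset (Finset.range_subset_range.2 h)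
        intro k _ hk
        rw [hG1 k (by simpa using hk)]
        simp
      · symm
        apply Finset.sum_subset (Finset.range_subset_range.2 (by omega))
        intro k _ hk
        rw [hG2 k (by simpa using hk)]
        simp
    rw [← Fin.sum_univ_eq_sum_range (fun k => (G k : ℝ) * β m ^ k) m] at hs2
    have hGz := beta_li m hm (fun i => G i) hs2
    have hgz : ∀ k : Fin (d + 1), g k = 0 := by
      intro k
      by_cases hk : m ≤ (k : ℕ)
      · exact hgm k hk
      · have h1 := congrFun hGz ⟨k, by omega⟩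
        simp only [hG, Pi.zero_apply] at h1
        rw [dif_pos k.2] at h1
        exact h1
    funext k
    have h1 := hgz k
    simp only [hg] at h1
    have h2 : ∀ l, (a l • cvq (b l)) k = (a l : ℚ) * (b l k : ℚ) := by
      intro l
      simp [cvq]
    rw [Finset.sum_apply, Finset.sum_congr rfl (fun l _ => h2 l), Pi.zero_apply]
    exact_mod_cast h1
  have hrQ := (LinearIndependent.iff_fractionRing ℤ ℚ).1 hr
  have h1 := hrQ.fintype_card_le_finrank
  rw [Module.finrank_fintype_fun_eq_card, Fintype.card_fin] at h1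
  have h2 : Fintype.card {k : Fin (d + 1) // m ≤ (k : ℕ)} ≤ Fintype.card (Fin (d + 1 - m)) := by
    apply Fintype.card_le_of_injective (fun k : {k : Fin (d + 1) // m ≤ (k : ℕ)} =>
      (⟨(k.1 : ℕ) - m, by have := k.1.2; have := k.2; omega⟩ : Fin (d + 1 - m)))
    intro x y hxy
    have h3 := congrArg Fin.val hxy
    simp only at h3
    apply Subtype.ext
    apply Fin.ext
    have := x.2
    have := y.2
    omega
  rw [Fintype.card_fin] at h2
  omega

end Pool.Agent.JS
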