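import Pool.Agent.Lib_MP_b52a92_nt.Basic
import Pool.Agent.Lib_MP_b52a92_nt.Basis
import Pool.Agent.Lib_MP_b52a92_nt.Indep
import Pool.Agent.Lib_MP_10b5ac_nt.Subspace

set_option autoImplicit false

/-! Piece SubGen of MP_b52a92_nt: application of the Subspace theorem at the special point. -/

namespace Pool.Agent.JS

open Polynomial MeasureTheory Set


/-! ### linearity and representability of the forms -/

theorem ev_comb {d j : ℕ} (x : ℝ) (b : Fin j → Fin (d + 1) → ℤ) (c : Fin j → ℤ) :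
    ev x (∑ l, c l • b l) = ∑ l, ev x (b l) * (c l : ℝ) := by
  unfold ev
  simp only [Finset.sum_mul]
  rw [Finset.sum_comm]
  refine Finset.sum_congr rfl fun i _ => ?_
  rw [Finset.sum_apply]
  push_cast
  rw [Finset.sum_mul]
  refine Finset.sum_congr rfl fun l _ => ?_
  simp only [Pi.smul_apply, smul_eq_mul]
  push_cast
  ring

theorem tc_comb {d j : ℕ} (i : ℕ) (κ : ℝ) (b : Fin j → Fin (d + 1) → ℤ) (c : Fin j → ℤ) :
    tc i κ (∑ l, c l • b l) = ∑ l, tc i κ (b l) * (c l : ℝ) := by
  unfold tc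
  simp only [Finset.sum_mul]
  rw [Finset.sum_comm]
  refine Finset.sum_congr rfl fun i _ => ?_
  rw [Finset.sum_apply]
  push_cast
  rw [Finset.sum_mul, Finset.sum_mul]
  refine Finset.sum_congr rfl fun l _ => ?_
  simp only [Pi.smul_apply, smul_eq_mul]
  push_cast
  ring

/-- representable for some bound -/
def RepE (θ : ℝ) (D : ℕ) (α : ℝ) : Prop := ∃ M : ℝ, Sub.Rep θ D M α

section repE
variable {θ : ℝ} {D : ℕ} {C₀ : ℝ}

theorem RepE.add {a b : ℝ} (ha : RepE θ D a) (hb : RepE θ D b) : RepE θ D (a + b) := by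
  obtain ⟨M, h⟩ := ha
  obtain ⟨M', h'⟩ := hb
  exact ⟨_, h.add h'⟩

theorem RepE.mul (hA : Sub.AlgData θ D C₀) {a b : ℝ} (ha : RepE θ D a) (hb : RepE θ D b) :
    RepE θ D (a * b) := by
  obtain ⟨M, h⟩ := ha
  obtain ⟨M', h'⟩ := hb
  exact ⟨_, hA.mul M M' a b (h.nonneg hA.hD) (h'.nonneg hA.hD) h h'⟩

theorem RepE.int (hA : Sub.AlgData θ D C₀) (n : ℤ) : RepE θ D (n : ℝ) := ⟨_, Sub.rep_int hA n⟩

theorem RepE.pow (hA : Sub.AlgData θ D C₀) {a : ℝ} (ha : RepE θ D a) (n : ℕ) :
    RepE θ D (a ^ n) := by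
  induction n with
  | zero => simpa using RepE.int hA 1
  | succ n ih => rw [pow_succ]; exact ih.mul hA ha

theorem RepE.sum {ι : Type*} (s : Finset ι) (f : ι → ℝ) (h : ∀ i ∈ s, RepE θ D (f i)) :
    RepE θ D (∑ i ∈ s, f i) := by
  choose! M hM using h
  exact ⟨_, Sub.rep_sum s M f hM⟩

theorem RepE.ev (hA : Sub.AlgData θ D C₀) {d : ℕ} {a : ℝ} (ha : RepE θ D a)
    (g : Fin (d + 1) → ℤ) : RepE θ D (ev a g) :=
  RepE.sum _ _ fun _ _ => (RepE.int hA _).mul hA (ha.pow hA _)

theorem RepE.tc (hA : Sub.AlgData θ D C₀) {d : ℕ} {a : ℝ} (ha : RepE θ D a) (i : ℕ)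
    (g : Fin (d + 1) → ℤ) : RepE θ D (tc i a g) := by
  refine RepE.sum _ _ fun l _ => ((RepE.int hA _).mul hA ?_).mul hA (ha.pow hA _)
  have := RepE.int hA (((l : ℕ).choose i : ℕ) : ℤ)
  simpa using this

end repE

/-- the algebraic data of the special point -/
theorem exists_special (m d : ℕ) (hm : 1 ≤ m) : ∃ (θ : ℝ) (D : ℕ) (C₀ : ℝ),
    Sub.AlgData θ D C₀ ∧ RepE θ D (β m) ∧ RepE θ D (kap m d) := by
  have hP : 0 < PP m d := by unfold PP; omega
  have hPR : (0 : ℝ) < PP m d := by exact_mod_cast hP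
  have hmR : (0 : ℝ) < m := by exact_mod_cast hm
  set θ : ℝ := (2 : ℝ) ^ ((1 : ℝ) / (m * PP m d)) with hθ
  have hpow : ∀ n : ℕ, θ ^ n = (2 : ℝ) ^ ((n : ℝ) / (m * PP m d)) := by
    intro n
    rw [hθ, ← Real.rpow_natCast, ← Real.rpow_mul (by norm_num)]
    congr 1
    ring
  have h1 : θ ^ (PP m d) = β m := by
    rw [hpow, β]
    congr 1
    field_simp
  have h2 : θ ^ m = (2 : ℝ) ^ ((1 : ℝ) / (PP m d)) := by
    rw [hpow]
    congr 1
    field_simp
  have h3 : θ ^ (m * PP m d) = 2 := by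
    rw [hpow]
    push_cast
    rw [div_self (by positivity), Real.rpow_one]
  have hint : IsIntegral ℤ θ := by
    have h4 : IsIntegral ℤ (θ ^ (m * PP m d)) := by
      rw [h3]
      exact_mod_cast (isIntegral_algebraMap (R := ℤ) (A := ℝ) (x := 2))
    exact IsIntegral.of_pow (Nat.mul_pos hm hP) h4
  obtain ⟨C₀, hA⟩ := Sub.exists_algData_of_integral hint
  have hθr : RepE θ (minpoly ℤ θ).natDegree θ := ⟨_, hA.hθ⟩
  refine ⟨θ, _, C₀, hA, ?_, ?_⟩
  · rw [← h1]; exact hθr.pow hA _
  · unfold kap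
    rw [← h2]
    have := RepE.int hA 2
    exact (by simpa using this : RepE θ (minpoly ℤ θ).natDegree (2 : ℝ)).add (hθr.pow hA _)

/-! ### the induction step -/

/-- no small solutions in the subspace `U` -/
def NoSmall (m d : ℕ) (ε x : ℝ) (U : Submodule ℚ (Fin (d + 1) → ℚ)) : Prop :=
  ∃ η : ℝ, 0 < η ∧ ∃ t0 : ℕ, ∀ t : ℕ, t0 ≤ t → ∀ g : Fin (d + 1) → ℤ, cvq g ∈ U → g ≠ 0 →
    ¬ Small m ε x η t (kap m d) g

theorem Small.mono {m d : ℕ} {ε x η η' : ℝ} {t : ℕ} {κ : ℝ} {g : Fin (d + 1) → ℤ}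
    (h : η ≤ η') (hs : Small m ε x η t κ g) : Small m ε x η' t κ g :=
  ⟨hs.1.trans (pw_mono t (by linarith)), fun i hi => (hs.2 i hi).trans (pw_mono t (by linarith))⟩

theorem step (m d : ℕ) (ε x : ℝ) (U : Submodule ℚ (Fin (d + 1) → ℚ)) (j : ℕ)
    (hj : 1 ≤ j) (b : Fin j → Fin (d + 1) → ℤ)
    (hspan : ∀ z : Fin (d + 1) → ℤ, cvq z ∈ U → ∃ c : Fin j → ℤ, z = ∑ l, c l • b l)
    (F : Fin j → (Fin (d + 1) → ℤ) → ℝ)
    (hlin : ∀ i (c : Fin j → ℤ), F i (∑ l, c l • b l) = ∑ l, F i (b l) * (c l : ℝ))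
    (hdet : (Matrix.of fun i l => F i (b l)).det ≠ 0)
    {θ : ℝ} {D : ℕ} {C₀ : ℝ} (hA : Sub.AlgData θ D C₀) (hrep : ∀ i l, RepE θ D (F i (b l)))
    (c : Fin j → ℝ) (hs : ∑ i, c i < 0)
    (hF : ∀ η t g, Small m ε x η t (kap m d) g → ∀ i, |F i g| ≤ pw t (c i + η))
    (IH : ∀ U' : Submodule ℚ (Fin (d + 1) → ℚ), Module.finrank ℚ U' < j → NoSmall m d ε x U') :
    NoSmall m d ε x U := by
  classical
  by_contra hcon
  unfold NoSmall at hcon
  push Not at hcon
  set s : ℝ := ∑ i, c i with hsdef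
  have hjR : (0 : ℝ) < j := by exact_mod_cast hj
  set δ : ℝ := -s / (2 * j) with hδdef
  have hδ : 0 < δ := by rw [hδdef]; apply div_pos <;> linarith
  have hsδ : s / j = -(2 * δ) := by rw [hδdef]; field_simp
  have hη : ∀ e : ℕ, 0 < min δ (1 / ((e : ℝ) + 1)) := fun e => lt_min hδ (by positivity)
  choose t ht g hgU hg0 hgS using fun e : ℕ => hcon _ (hη e) e
  choose y hy using fun e => hspan (g e) (hgU e)
  have ht_tend : Filter.Tendsto t Filter.atTop Filter.atTop :=
    Filter.tendsto_atTop_mono ht Filter.tendsto_id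
  have hsm : ∀ e i, |∑ l, F i (b l) * (y e l : ℝ)| ≤ pw (t e) (c i + δ) := by
    intro e i
    rw [← hlin, ← hy]
    exact (hF _ _ _ (hgS e) i).trans (pw_mono _ (by have := min_le_left δ (1 / ((e : ℝ) + 1)); linarith))
  have hy0 : ∀ e, y e ≠ 0 := by
    intro e h
    apply hg0 e
    rw [hy e, h]
    simp
  -- frequently a relation
  obtain ⟨z, hz0, hz⟩ : ∃ z : Fin j → ℤ, z ≠ 0 ∧ ∃ᶠ e in Filter.atTop, ∑ l, z l * y e l = 0 := by
    rcases Nat.lt_or_ge j 2 with hj2 | hj2
    · exfalso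
      have hj1 : j = 1 := by omega
      subst hj1
      have hL : F 0 (b 0) ≠ 0 := by
        intro h
        apply hdet
        rw [Matrix.det_fin_one]
        simpa using h
      have hc0 : c 0 = s := by rw [hsdef]; simp
      obtain ⟨t0, ht0⟩ := pw_small δ (|F 0 (b 0)| / 2) hδ (by positivity)
      have h1 := hsm t0 0
      rw [Fin.sum_univ_one, abs_mul] at h1
      have h2 : (1 : ℝ) ≤ |(y t0 0 : ℝ)| := by
        have : y t0 0 ≠ 0 := by
          intro h
          apply hy0 t0
          funext l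
          rw [Subsingleton.elim l 0, h]; rfl
        have h3 := Int.one_le_abs this
        exact_mod_cast h3
      have h4 : c 0 + δ = -δ := by
        rw [hc0]
        have : s / (1 : ℕ) = -(2 * δ) := hsδ
        simp at this
        linarith
      rw [h4] at h1
      have h5 := ht0 (t t0) (ht t0)
      have h6 : 0 < |F 0 (b 0)| := abs_pos.2 hL
      nlinarith
    · -- the Subspace theorem
      obtain ⟨M, hM1, hM⟩ : ∃ M : ℝ, 1 ≤ M ∧ ∀ i l, Sub.Rep θ D M (F i (b l)) := by
        choose M hM using hrep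
        refine ⟨1 + ∑ i, ∑ l, |M i l|, ?_, fun i l => ?_⟩
        · have : 0 ≤ ∑ i, ∑ l, |M i l| :=
            Finset.sum_nonneg fun _ _ => Finset.sum_nonneg fun _ _ => abs_nonneg _
          linarith
        · refine Sub.Rep.mono ?_ (hM i l)
          have h1 : |M i l| ≤ ∑ l, |M i l| :=
            Finset.single_le_sum (f := fun l => |M i l|) (fun _ _ => abs_nonneg _)
              (Finset.mem_univ l)
          have h2 : ∑ l, |M i l| ≤ ∑ i, ∑ l, |M i l| :=
            Finset.single_le_sum (f := fun i => ∑ l, |M i l|)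
              (fun _ _ => Finset.sum_nonneg fun _ _ => abs_nonneg _) (Finset.mem_univ i)
          have := le_abs_self (M i l)
          linarith
      have key := Sub.subspace hA 2 j le_rfl hj2 (Matrix.of fun i l => F i (b l)) hdet M hM1
        (fun i l => by simpa using hM i l) δ hδ (∑ i, |c i - s / j|) t ht_tend (fun _ _ => 0)
        (fun e i => pw (t e) (c i - s / j)) (fun e i => pw_pos _ _) ?_ ?_ ?_ ?_ y hy0 ?_ ?_
      · exact key
      · intro e
        simp only [Finset.sum_const_zero, pow_zero]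
        have h1 : ∀ S : Finset (Fin j), ∏ i ∈ S, pw (t e) (c i - s / j) =
            pw (t e) (∑ i ∈ S, (c i - s / j)) := by
          intro S
          induction S using Finset.induction_on with
          | empty => simp [pw_zero]
          | insert a S ha ih => rw [Finset.prod_insert ha, Finset.sum_insert ha, pw_add, ih]
        rw [h1, Finset.sum_sub_distrib, Finset.sum_const, Finset.card_univ, Fintype.card_fin,
          nsmul_eq_mul, ← hsdef, mul_div_cancel₀ _ hjR.ne', sub_self, pw_zero]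
      · intro e i
        have : 0 ≤ ∑ i, |c i - s / j| := Finset.sum_nonneg fun _ _ => abs_nonneg _
        push_cast
        positivity
      · intro e i
        show _ ≤ (2 : ℝ) ^ _
        push_cast
        refine Real.rpow_le_rpow_of_exponent_le (by norm_num) ?_
        have h1 : |c i - s / j| ≤ ∑ i, |c i - s / j| :=
          Finset.single_le_sum (f := fun i => |c i - s / j|) (fun _ _ => abs_nonneg _)
            (Finset.mem_univ i)
        have h2 := neg_abs_le (c i - s / j)
        have h3 : (0 : ℝ) ≤ t e := by positivity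
        nlinarith
      · intro e i
        show (2 : ℝ) ^ _ ≤ _
        push_cast
        refine Real.rpow_le_rpow_of_exponent_le (by norm_num) ?_
        have h1 : |c i - s / j| ≤ ∑ i, |c i - s / j| :=
          Finset.single_le_sum (f := fun i => |c i - s / j|) (fun _ _ => abs_nonneg _)
            (Finset.mem_univ i)
        have h2 := le_abs_self (c i - s / j)
        have h3 : (0 : ℝ) ≤ t e := by positivity
        nlinarith
      · intro e l
        simp
      · intro e i
        have h1 : pw (t e) (c i - s / j) * ((2 : ℕ) : ℝ) ^ (-(δ * (t e : ℝ))) =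
            pw (t e) (c i + δ) := by
          have h2 : ((2 : ℕ) : ℝ) ^ (-(δ * (t e : ℝ))) = pw (t e) (-δ) := by
            unfold pw
            push_cast
            congr 1
            ring
          rw [h2, ← pw_add, hsδ]
          congr 1
          ring
        rw [h1]
        simpa using hsm e i
  -- the smaller subspace
  let φ : (Fin j → ℚ) →ₗ[ℚ] (Fin (d + 1) → ℚ) := Fintype.linearCombination ℚ fun l => cvq (b l)
  let ζ : (Fin j → ℚ) →ₗ[ℚ] ℚ := Fintype.linearCombination ℚ fun l => (z l : ℚ)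
  have hlt : Module.finrank ℚ ((LinearMap.ker ζ).map φ) < j := by
    refine lt_of_le_of_lt (Submodule.finrank_map_le φ _) ?_
    have h1 : LinearMap.ker ζ ≠ ⊤ := by
      intro h
      apply hz0
      funext l
      have h2 : Pi.single l (1 : ℚ) ∈ LinearMap.ker ζ := by rw [h]; trivial
      rw [LinearMap.mem_ker] at h2
      simp only [ζ, Fintype.linearCombination_apply_single] at h2
      simpa using h2
    have h2 := Submodule.finrank_lt h1
    simpa using h2
  obtain ⟨η', hη', t0', hno⟩ := IH _ hlt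
  have hev : ∀ᶠ e : ℕ in Filter.atTop, min δ (1 / ((e : ℝ) + 1)) ≤ η' ∧ t0' ≤ t e := by
    have h1 : ∀ᶠ e : ℕ in Filter.atTop, t0' ≤ t e := ht_tend.eventually_ge_atTop t0'
    have h2 : ∀ᶠ e : ℕ in Filter.atTop, 1 / ((e : ℝ) + 1) < η' :=
      (tendsto_one_div_add_atTop_nhds_zero_nat (𝕜 := ℝ)).eventually_lt_const hη'
    filter_upwards [h1, h2] with e he1 he2
    exact ⟨(min_le_right _ _).trans he2.le, he1⟩
  obtain ⟨e, hze, he1, he2⟩ := (hz.and_eventually hev).exists
  refine hno (t e) he2 (g e) ?_ (hg0 e) ((hgS e).mono he1)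
  refine ⟨fun l => (y e l : ℚ), ?_, ?_⟩
  · show ζ _ = 0
    simp only [ζ, Fintype.linearCombination_apply]
    have : ((∑ l, z l * y e l : ℤ) : ℚ) = 0 := by rw [hze]; simp
    push_cast at this
    rw [← this]
    refine Finset.sum_congr rfl fun l _ => ?_
    simp [mul_comm]
  · simp only [φ, Fintype.linearCombination_apply]
    funext k
    rw [Finset.sum_apply]
    show _ = ((g e k : ℤ) : ℚ)
    conv_rhs => rw [hy e]
    rw [Finset.sum_apply]
    push_cast
    refine Finset.sum_congr rfl fun l _ => ?_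
    simp [cvq]

theorem exists_int_basis' {k : ℕ} (W : Submodule ℚ (Fin k → ℚ)) (n : ℕ)
    (hn : Module.finrank ℚ W = n) :
    ∃ B : Fin n → Fin k → ℤ, LinearIndependent ℚ (fun l => cvq (B l)) ∧
      ∀ z : Fin k → ℤ, cvq z ∈ W → ∃ c : Fin n → ℤ, z = ∑ l, c l • B l := by
  subst hn
  obtain ⟨B, h1, _, h3⟩ := exists_int_basis W
  exact ⟨B, h1, fun z hz => (h3 z).1 hz⟩

theorem noSmall_all (m d : ℕ) (hm : 1 ≤ m) (hd : 1 ≤ d) (ε x : ℝ) (hε : 0 < ε) (hx : 0 < x)
    (hxm : m ≤ d → x < m) : ∀ (j : ℕ) (U : Submodule ℚ (Fin (d + 1) → ℚ)),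
    Module.finrank ℚ U = j → NoSmall m d ε x U := by
  obtain ⟨θ, D, C₀, hA, hβ, hκ⟩ := exists_special m d hm
  intro j
  induction j using Nat.strong_induction_on with
  | _ j IH =>
  intro U hU
  have IH' : ∀ U' : Submodule ℚ (Fin (d + 1) → ℚ), Module.finrank ℚ U' < j →
      NoSmall m d ε x U' := fun U' h => IH _ h U' rfl
  rcases Nat.eq_zero_or_pos j with hj0 | hj
  · have hbot : U = ⊥ := by
      rw [hj0] at hU
      exact Submodule.finrank_eq_zero.1 hU
    refine ⟨1, one_pos, 0, fun t _ g hg hg0 _ => hg0 ?_⟩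
    rw [hbot, Submodule.mem_bot] at hg
    funext k
    have := congrFun hg k
    simpa [cvq] using this
  obtain ⟨b, hb, hspan⟩ := exists_int_basis' U j hU
  have hjd : j ≤ d + 1 := by
    rw [← hU]
    refine (Submodule.finrank_le U).trans ?_
    simp
  have hcases : (x < ((d + 1 - j : ℕ) : ℝ)) ∨ ((d + 1 - j : ℕ) : ℝ) ≤ x := lt_or_ge _ _
  have hcast : ((d + 1 - j : ℕ) : ℝ) = (d : ℝ) + 1 - j := by
    rw [Nat.cast_sub hjd]; push_cast; ring
  rcases hcases with hlt | hge
  · -- the forms tc_0, ..., tc_{j-1}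
    have hjd' : j ≤ d := by
      by_contra h
      have : d + 1 - j = 0 := by omega
      rw [this] at hlt
      simp at hlt
      linarith
    refine step m d ε x U j hj b hspan (fun i g => tc (i : ℕ) (kap m d) g)
      (fun i c => tc_comb _ _ _ _) (det_tc_ne_zero m d j hm b hb) hA (fun i l => hκ.tc hA _ _)
      (fun i => x + 2 * ((i : ℕ) : ℝ) - d) ?_ ?_ IH'
    · rw [hcast] at hlt
      have h1 : ∑ i : Fin j, (x + 2 * ((i : ℕ) : ℝ) - d) = j * (x - (d + 1 - j)) := by
        rw [Finset.sum_sub_distrib, Finset.sum_add_distrib, ← Finset.mul_sum]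
        rw [Fin.sum_univ_eq_sum_range (fun i => (i : ℝ)) j]
        simp only [Finset.sum_const, Finset.card_univ, Fintype.card_fin, nsmul_eq_mul]
        have h2 : (∑ i ∈ Finset.range j, (i : ℝ)) * 2 = j * (j - 1) := by
          have := Finset.sum_range_id_mul_two j
          have h3 : (((∑ i ∈ Finset.range j, i) * 2 : ℕ) : ℝ) = ((j * (j - 1) : ℕ) : ℝ) := by
            rw [this]
          rw [Nat.cast_mul, Nat.cast_mul, Nat.cast_sub hj] at h3
          push_cast at h3
          exact h3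
        linear_combination h2
      rw [h1]
      have hjR : (0 : ℝ) < j := by exact_mod_cast hj
      nlinarith
    · intro η t g hS i
      exact (hS.2 i (by omega))
  · -- the forms ev, tc_0, ..., tc_{j-2}
    obtain ⟨k, rfl⟩ : ∃ k, j = k + 1 := ⟨j - 1, by omega⟩
    have hne : ∃ l, ev (β m) (b l) ≠ 0 := by
      by_contra h
      push Not at h
      have h1 := vanish_dim m d (k + 1) hm (by omega) b hb h
      have h2 : m ≤ d := by omega
      have h3 := hxm h2
      have h4 : (m : ℝ) ≤ ((d + 1 - (k + 1) : ℕ) : ℝ) := by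
        exact_mod_cast (by omega : m ≤ d + 1 - (k + 1))
      linarith
    refine step m d ε x U (k + 1) hj b hspan
      (Fin.cons (fun g => ev (β m) g) (fun (i : Fin k) g => tc (i : ℕ) (kap m d) g))
      ?_ ?_ hA ?_
      (Fin.cons (d - (d + ε) * x) (fun i : Fin k => x + 2 * ((i : ℕ) : ℝ) - d)) ?_ ?_ IH'
    · intro i c
      refine Fin.cases ?_ (fun i => ?_) i
      · simp only [Fin.cons_zero]; exact ev_comb _ _ _
      · simp only [Fin.cons_succ]; exact tc_comb _ _ _ _
    · have h := det_ev_tc_ne_zero m d k hm b hb hne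
      convert h using 3
      funext i l
      refine Fin.cases ?_ (fun i => ?_) i
      · simp
      · simp
    · intro i l
      refine Fin.cases ?_ (fun i => ?_) i
      · simp only [Fin.cons_zero]; exact hβ.ev hA _
      · simp only [Fin.cons_succ]; exact hκ.tc hA _ _
    · rw [Fin.sum_univ_succ]
      simp only [Fin.cons_zero, Fin.cons_succ]
      have h1 : ∑ i : Fin k, (x + 2 * ((i : ℕ) : ℝ) - d) = k * (x - d + (k - 1)) := by
        rw [Finset.sum_sub_distrib, Finset.sum_add_distrib, ← Finset.mul_sum]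
        rw [Fin.sum_univ_eq_sum_range (fun i => (i : ℝ)) k]
        simp only [Finset.sum_const, Finset.card_univ, Fintype.card_fin, nsmul_eq_mul]
        have h2 : (∑ i ∈ Finset.range k, (i : ℝ)) * 2 = k * (k - 1) := by
          rcases Nat.eq_zero_or_pos k with h0 | hk
          · subst h0; simp
          · have := Finset.sum_range_id_mul_two k
            have h3 : (((∑ i ∈ Finset.range k, i) * 2 : ℕ) : ℝ) = ((k * (k - 1) : ℕ) : ℝ) := by
              rw [this]
            rw [Nat.cast_mul, Nat.cast_mul, Nat.cast_sub hk] at h3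
            push_cast at h3
            exact h3
        linear_combination h2
      rw [h1]
      rw [hcast] at hge
      push_cast at hge
      -- r = d - k
      have hr : (k : ℝ) ≤ d := by exact_mod_cast (by omega : k ≤ d)
      have hd1 : (1 : ℝ) ≤ d := by exact_mod_cast hd
      have e1 : (d : ℝ) - (d + ε) * x + k * (x - d + (k - 1)) =
          -(ε * x) - (d - k) * (x + d - 1 - (d - k)) := by ring
      rw [e1]
      rcases eq_or_lt_of_le hr with h0 | h0
      · rw [h0]; nlinarith [mul_pos hε hx]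
      · have h2 : (0 : ℝ) ≤ x + d - 1 - (d - k) := by
          have : (1 : ℝ) ≤ d := hd1
          nlinarith
        nlinarith [mul_pos hε hx]
    · intro η t g hS i
      refine Fin.cases ?_ (fun i => ?_) i
      · simp only [Fin.cons_zero]; exact hS.1
      · simp only [Fin.cons_succ]; exact hS.2 i (by omega)

theorem subgen (m d : ℕ) (hm : 1 ≤ m) (hd : 1 ≤ d) (ε x : ℝ) (hε : 0 < ε) (hx : 0 < x)
    (hxm : m ≤ d → x < m) : ∃ η : ℝ, 0 < η ∧ ∃ t0 : ℕ, ∀ t : ℕ, t0 ≤ t →
    ∀ g : Fin (d + 1) → ℤ, g ≠ 0 → ¬ Small m ε x η t (kap m d) g := by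
  obtain ⟨η, hη, t0, h⟩ := noSmall_all m d hm hd ε x hε hx hxm _ ⊤ rfl
  exact ⟨η, hη, t0, fun t ht g hg => h t ht g trivial hg⟩

end Pool.Agent.JS
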