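import Pool.Agent.Lib_MP_b52a92_nt.Basic
import Pool.Agent.Lib_MP_b52a92_nt.Theta
import Pool.Agent.Lib_MP_b52a92_nt.KM
import Pool.Agent.Lib_MP_b52a92_nt.SubGen

set_option autoImplicit false

/-! Genericity theorem (piece GT of MP_b52a92_nt). -/

namespace Pool.Agent.JS

open Polynomial MeasureTheory Set

theorem gt_taylor_coeff {d : ℕ} (i : ℕ) (κ : ℝ) (c : Fin (d + 1) → ℝ) :
    (taylor κ (polR c)).coeff i =
      ∑ l : Fin (d + 1), c l * (((l : ℕ).choose i : ℕ) : ℝ) * κ ^ ((l : ℕ) - i) := by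
  rw [taylor_coeff]
  unfold polR
  rw [map_sum, eval_finsetSum]
  refine Finset.sum_congr rfl fun l _ => ?_
  rw [C_mul_X_pow_eq_monomial, hasseDeriv_monomial, eval_monomial]
  ring

theorem gt_eval {d : ℕ} (x κ : ℝ) (c : Fin (d + 1) → ℝ) :
    (polR c).eval x = ∑ i ∈ Finset.range (d + 1), (taylor κ (polR c)).coeff i * (x - κ) ^ i := by
  have h1 : (polR c).eval x = (taylor κ (polR c)).eval (x - κ) := by
    rw [taylor_eval]
    ring_nf
  rw [h1, eval_eq_sum_range' (n := d + 1)]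
  rw [natDegree_taylor]
  exact Nat.lt_succ_of_le (polR_natDegree _)

/-- the matrix of polynomials of the system -/
noncomputable def gtM (m d : ℕ) (ε x η : ℝ) (t : ℕ) :
    Matrix (Fin (d + 1)) (Fin (d + 1)) ℝ[X] :=
  Matrix.of (Fin.cons (fun l : Fin (d + 1) => C (pw t (-(d - (d + ε) * x + η)) * β m ^ (l : ℕ)))
    (fun (i : Fin d) (l : Fin (d + 1)) => monomial ((l : ℕ) - (i : ℕ))
      (pw t (-(x + 2 * (i : ℕ) - d + η)) * (((l : ℕ).choose (i : ℕ) : ℕ) : ℝ))) :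
      Fin (d + 1) → Fin (d + 1) → ℝ[X])

theorem gtM_deg (m d : ℕ) (ε x η : ℝ) (t : ℕ) (i j : Fin (d + 1)) :
    (gtM m d ε x η t i j).natDegree ≤ d := by
  unfold gtM
  rw [Matrix.of_apply]
  refine Fin.cases ?_ (fun i => ?_) i
  · rw [Fin.cons_zero, natDegree_C]
    exact Nat.zero_le _
  · rw [Fin.cons_succ]
    refine (natDegree_monomial_le _).trans ?_
    have := j.2
    omega

theorem gtM_zero (m d : ℕ) (ε x η : ℝ) (t : ℕ) (κ : ℝ) (c : Fin (d + 1) → ℝ) :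
    ((gtM m d ε x η t).map (eval κ)).mulVec c 0 =
      pw t (-(d - (d + ε) * x + η)) * (polR c).eval (β m) := by
  unfold polR
  rw [Matrix.mulVec, dotProduct, eval_finsetSum, Finset.mul_sum]
  refine Finset.sum_congr rfl fun l _ => ?_
  simp only [Matrix.map_apply, gtM, Matrix.of_apply, Fin.cons_zero, eval_C, eval_mul, eval_pow,
    eval_X]
  ring

theorem gtM_succ (m d : ℕ) (ε x η : ℝ) (t : ℕ) (κ : ℝ) (c : Fin (d + 1) → ℝ) (i : Fin d) :
    ((gtM m d ε x η t).map (eval κ)).mulVec c i.succ =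
      pw t (-(x + 2 * (i : ℕ) - d + η)) * (taylor κ (polR c)).coeff i := by
  rw [gt_taylor_coeff, Matrix.mulVec, dotProduct, Finset.mul_sum]
  refine Finset.sum_congr rfl fun l _ => ?_
  simp only [Matrix.map_apply, gtM, Matrix.of_apply, Fin.cons_succ, eval_monomial]
  ring

theorem gt_kernel (m d : ℕ) (hm : 1 ≤ m) (ε x η : ℝ) (t : ℕ) (κ : ℝ) (hκ : 3 ≤ κ)
    (c : Fin (d + 1) → ℝ) (h : ((gtM m d ε x η t).map (eval κ)).mulVec c = 0) : c = 0 := by
  have h0 := congrFun h 0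
  rw [gtM_zero, Pi.zero_apply, mul_eq_zero, or_iff_right (pw_pos _ _).ne'] at h0
  have h1 : ∀ i < d, (taylor κ (polR c)).coeff i = 0 := by
    intro i hi
    have := congrFun h (Fin.succ ⟨i, hi⟩)
    rw [gtM_succ, Pi.zero_apply, mul_eq_zero, or_iff_right (pw_pos _ _).ne'] at this
    exact this
  rw [gt_eval (β m) κ, Finset.sum_range_succ, Finset.sum_eq_zero, zero_add, mul_eq_zero] at h0
  · have hβ : (β m - κ) ^ d ≠ 0 := by
      have := (beta_mem m hm).2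
      exact pow_ne_zero _ (by intro h; linarith)
    rw [or_iff_left hβ] at h0
    have h2 : taylor κ (polR c) = 0 := by
      ext i
      rw [coeff_zero]
      rcases lt_trichotomy i d with hi | hi | hi
      · exact h1 i hi
      · rw [hi]; exact h0
      · refine coeff_eq_zero_of_natDegree_lt ?_
        rw [natDegree_taylor]
        exact (polR_natDegree c).trans_lt hi
    have h3 : polR c = 0 := by
      have := congrArg (taylor (-κ)) h2
      rw [taylor_taylor, neg_add_cancel, taylor_zero, map_zero] at this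
      exact this
    funext l
    rw [← polR_coeff c l, h3, coeff_zero, Pi.zero_apply]
  · intro i hi
    rw [h1 i (Finset.mem_range.1 hi), zero_mul]

theorem gt_rvr_zero (m d : ℕ) (ε x η : ℝ) (t : ℕ) (κ : ℝ) (g : Fin (d + 1) → ℤ) :
    ((gtM m d ε x η t).map (eval κ)).mulVec (rvr g) 0 =
      pw t (-(d - (d + ε) * x + η)) * ev (β m) g := by
  rw [gtM_zero, ev_eq]

theorem gt_rvr_succ (m d : ℕ) (ε x η : ℝ) (t : ℕ) (κ : ℝ) (g : Fin (d + 1) → ℤ) (i : Fin d) :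
    ((gtM m d ε x η t).map (eval κ)).mulVec (rvr g) i.succ =
      pw t (-(x + 2 * (i : ℕ) - d + η)) * tc i κ g := by
  rw [gtM_succ, tc_eq]

/-- a vector which is not small has norm at least one -/
theorem gt_one_le (m d : ℕ) (ε x η : ℝ) (t : ℕ) (κ : ℝ) (g : Fin (d + 1) → ℤ)
    (h : ¬ Small m ε x η t κ g) : 1 ≤ ‖((gtM m d ε x η t).map (eval κ)).mulVec (rvr g)‖ := by
  by_contra hlt
  push Not at hlt
  apply h
  have hc : ∀ i, |((gtM m d ε x η t).map (eval κ)).mulVec (rvr g) i| ≤ 1 := by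
    intro i
    have := norm_le_pi_norm (((gtM m d ε x η t).map (eval κ)).mulVec (rvr g)) i
    rw [Real.norm_eq_abs] at this
    linarith
  constructor
  · have := hc 0
    rw [gt_rvr_zero, abs_mul, abs_of_pos (pw_pos _ _), pw_neg, inv_mul_le_iff₀ (pw_pos _ _),
      mul_one] at this
    exact this
  · intro i hi
    have := hc (Fin.succ ⟨i, hi⟩)
    rw [gt_rvr_succ, abs_mul, abs_of_pos (pw_pos _ _), pw_neg, inv_mul_le_iff₀ (pw_pos _ _),
      mul_one] at this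
    exact this

/-- a small vector has small norm -/
theorem gt_lt (m d : ℕ) (ε x η : ℝ) (hη : 0 < η) (t : ℕ) (ht : 1 ≤ t) (κ : ℝ)
    (g : Fin (d + 1) → ℤ) (h : Small m ε x (η / 2) t κ g) :
    ‖((gtM m d ε x η t).map (eval κ)).mulVec (rvr g)‖ < pw t (-(η / 4)) := by
  have hlt : pw t (-(η / 2)) < pw t (-(η / 4)) := by
    unfold pw
    refine Real.rpow_lt_rpow_of_exponent_lt (by norm_num) ?_
    have : (1 : ℝ) ≤ t := by exact_mod_cast ht
    nlinarith
  rw [pi_norm_lt_iff (pw_pos _ _)]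
  intro i
  refine lt_of_le_of_lt ?_ hlt
  rw [Real.norm_eq_abs]
  refine Fin.cases ?_ (fun i => ?_) i
  · rw [gt_rvr_zero, abs_mul, abs_of_pos (pw_pos _ _)]
    calc pw t (-(d - (d + ε) * x + η)) * |ev (β m) g|
        ≤ pw t (-(d - (d + ε) * x + η)) * pw t (d - (d + ε) * x + η / 2) :=
          mul_le_mul_of_nonneg_left h.1 (pw_pos _ _).le
      _ = pw t (-(η / 2)) := by rw [← pw_add]; congr 1; ring
  · rw [gt_rvr_succ, abs_mul, abs_of_pos (pw_pos _ _)]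
    calc pw t (-(x + 2 * (i : ℕ) - d + η)) * |tc i κ g|
        ≤ pw t (-(x + 2 * (i : ℕ) - d + η)) * pw t (x + 2 * (i : ℕ) - d + η / 2) :=
          mul_le_mul_of_nonneg_left (h.2 i i.2) (pw_pos _ _).le
      _ = pw t (-(η / 2)) := by rw [← pw_add]; congr 1; ring

theorem gt_finite (m d : ℕ) (hm : 1 ≤ m) (ε x η : ℝ) (t : ℕ) :
    {g : Fin (d + 1) → ℤ | ∃ κ ∈ Icc (3 : ℝ) 4,
      ‖((gtM m d ε x η t).map (eval κ)).mulVec (rvr g)‖ < 1}.Finite := by
  obtain ⟨hβ1, hβ2⟩ := beta_mem m hm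
  -- a common bound for all exponents
  set K : ℝ := pw t (d - (d + ε) * x + η) + ∑ i ∈ Finset.range d, pw t (x + 2 * (i : ℕ) - d + η)
    with hK
  have hK0 : 0 < K := by
    have : (0 : ℝ) ≤ ∑ i ∈ Finset.range d, pw t (x + 2 * (i : ℕ) - d + η) :=
      Finset.sum_nonneg fun _ _ => (pw_pos _ _).le
    have := pw_pos t (d - (d + ε) * x + η)
    linarith
  set K1 : ℝ := K + ∑ i ∈ Finset.range d, K * 4 ^ i with hK1
  have hK1K : K ≤ K1 := by
    have : (0 : ℝ) ≤ ∑ i ∈ Finset.range d, K * 4 ^ i :=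
      Finset.sum_nonneg fun _ _ => by positivity
    linarith
  set K2 : ℝ := ∑ j ∈ Finset.range (d + 1), K1 * 2 ^ j * 4 ^ j with hK2
  refine (H_finite d K2).subset ?_
  rintro g ⟨κ, ⟨hκ3, hκ4⟩, hg⟩
  have hc : ∀ i, |((gtM m d ε x η t).map (eval κ)).mulVec (rvr g) i| ≤ 1 := by
    intro i
    have := norm_le_pi_norm (((gtM m d ε x η t).map (eval κ)).mulVec (rvr g)) i
    rw [Real.norm_eq_abs] at this
    linarith
  have h0 : |ev (β m) g| ≤ K := by
    have := hc 0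
    rw [gt_rvr_zero, abs_mul, abs_of_pos (pw_pos _ _), pw_neg, inv_mul_le_iff₀ (pw_pos _ _),
      mul_one] at this
    refine this.trans ?_
    have h2 : (0 : ℝ) ≤ ∑ i ∈ Finset.range d, pw t (x + 2 * (i : ℕ) - d + η) :=
      Finset.sum_nonneg fun _ _ => (pw_pos _ _).le
    linarith
  have h1 : ∀ i < d, |tc i κ g| ≤ K := by
    intro i hi
    have := hc (Fin.succ ⟨i, hi⟩)
    rw [gt_rvr_succ, abs_mul, abs_of_pos (pw_pos _ _), pw_neg, inv_mul_le_iff₀ (pw_pos _ _),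
      mul_one] at this
    refine this.trans ?_
    have h2 : pw t (x + 2 * (i : ℕ) - d + η) ≤
        ∑ i ∈ Finset.range d, pw t (x + 2 * (i : ℕ) - d + η) :=
      Finset.single_le_sum (f := fun i : ℕ => pw t (x + 2 * (i : ℕ) - d + η))
        (fun _ _ => (pw_pos _ _).le) (Finset.mem_range.2 hi)
    have := pw_pos t (d - (d + ε) * x + η)
    change pw t (x + 2 * (i : ℕ) - d + η) ≤ K
    linarith
  have hβκ : |β m - κ| ≤ 4 := by rw [abs_le]; constructor <;> linarith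
  have hβκ1 : 1 ≤ |β m - κ| := by rw [abs_of_neg (by linarith)]; linarith
  have h2 : |tc d κ g| ≤ K1 := by
    have h3 := ev_eq_tc (β m) κ g
    rw [Finset.sum_range_succ] at h3
    have h4 : tc d κ g * (β m - κ) ^ d =
        ev (β m) g - ∑ i ∈ Finset.range d, tc i κ g * (β m - κ) ^ i := by linarith
    have h5 : |tc d κ g| ≤ |tc d κ g * (β m - κ) ^ d| := by
      rw [abs_mul, abs_pow]
      exact le_mul_of_one_le_right (abs_nonneg _) (one_le_pow₀ hβκ1)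
    refine h5.trans ?_
    rw [h4]
    refine (abs_sub _ _).trans (add_le_add h0 ?_)
    refine (Finset.abs_sum_le_sum_abs _ _).trans (Finset.sum_le_sum fun i hi => ?_)
    rw [abs_mul, abs_pow]
    exact mul_le_mul (h1 i (Finset.mem_range.1 hi)) (pow_le_pow_left₀ (abs_nonneg _) hβκ _)
      (by positivity) hK0.le
  have h3 : ∀ j ∈ Finset.range (d + 1), |tc j κ g| ≤ K1 := by
    intro j hj
    rcases Nat.lt_succ_iff_lt_or_eq.1 (Finset.mem_range.1 hj) with h | h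
    · exact (h1 j h).trans hK1K
    · rw [h]; exact h2
  change (H g : ℝ) ≤ K2
  rw [H_le_real_iff]
  have hK1p : 0 < K1 := hK0.trans_le hK1K
  refine ⟨Finset.sum_nonneg fun _ _ => by positivity, fun l => ?_⟩
  have h4 : (g l : ℝ) = tc l 0 g := by
    rw [tc_eq, taylor_zero, polR_coeff]
    rfl
  rw [h4, tc_shift l κ 0 g]
  refine (Finset.abs_sum_le_sum_abs _ _).trans (Finset.sum_le_sum fun j hj => ?_)
  rw [abs_mul, abs_mul, abs_pow, Nat.abs_cast]
  have h5 : (((j.choose l : ℕ)) : ℝ) ≤ 2 ^ j := by exact_mod_cast Nat.choose_le_two_pow j l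
  have h6 : |0 - κ| ^ (j - (l : ℕ)) ≤ 4 ^ j := by
    have h7 : |0 - κ| ≤ 4 := by rw [zero_sub, abs_neg, abs_of_pos (by linarith)]; exact hκ4
    exact (pow_le_pow_left₀ (abs_nonneg _) h7 _).trans
      (pow_le_pow_right₀ (by norm_num) (Nat.sub_le _ _))
  exact mul_le_mul (mul_le_mul (h3 j hj) h5 (by positivity) hK1p.le) h6 (by positivity)
    (by positivity)

/-- the bound for a single value of `x` -/
theorem gt_single (m d : ℕ) (hm : 1 ≤ m) (hd : 1 ≤ d) (ε x : ℝ) (hε : 0 < ε) (hx : 0 < x)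
    (hxm : m ≤ d → x < m) : ∃ η : ℝ, 0 < η ∧ ∃ δ : ℝ, 0 < δ ∧ ∃ t0 : ℕ, ∀ t : ℕ, t0 ≤ t →
    volume {κ | κ ∈ Icc (3 : ℝ) 4 ∧ ∃ g : Fin (d + 1) → ℤ, g ≠ 0 ∧
      Small m ε x η t κ g} ≤ ENNReal.ofReal (pw t (-δ)) := by
  obtain ⟨η, hη, t1, ht1⟩ := subgen m d hm hd ε x hε hx hxm
  obtain ⟨C, hC, hKM⟩ := KM (d + 1) d (by omega) hd
  have hkd : (0 : ℝ) < ((d + 1 : ℕ) : ℝ) * d := by
    have : (1 : ℝ) ≤ d := by exact_mod_cast hd
    push_cast
    nlinarith
  set e : ℝ := 1 / (((d + 1 : ℕ) : ℝ) * d) with he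
  have he0 : 0 < e := by positivity
  obtain ⟨t2, ht2⟩ := pw_large (η / 8 * e) C (by positivity)
  refine ⟨η / 2, by positivity, η / 8 * e, by positivity, max (max t1 t2) 1, fun t ht => ?_⟩
  have htt1 : t1 ≤ t := (le_max_left _ _).trans ((le_max_left _ _).trans ht)
  have htt2 : t2 ≤ t := (le_max_right _ _).trans ((le_max_left _ _).trans ht)
  have htt : 1 ≤ t := (le_max_right _ _).trans ht
  have hk := kap_mem m d
  have hlt1 : pw t (-(η / 4)) < 1 := by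
    rw [← pw_zero t]
    unfold pw
    refine Real.rpow_lt_rpow_of_exponent_lt (by norm_num) ?_
    have : (1 : ℝ) ≤ t := by exact_mod_cast htt
    nlinarith
  have h1 := hKM (gtM m d ε x η t) (gtM_deg m d ε x η t) 3 4 (kap m d) ⟨hk.1.le, hk.2⟩
    (fun c hc => gt_kernel m d hm ε x η t _ hk.1.le c hc)
    (fun g hg => gt_one_le m d ε x η t _ g (ht1 t htt1 g hg))
    (gt_finite m d hm ε x η t) (pw t (-(η / 4))) (pw_pos _ _) hlt1
  refine (measure_mono ?_).trans (h1.trans (ENNReal.ofReal_le_ofReal ?_))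
  · rintro κ ⟨hκ, g, hg, hs⟩
    exact ⟨hκ, g, hg, gt_lt m d ε x η hη t htt κ g hs⟩
  · rw [pw_rpow]
    have h2 := ht2 t htt2
    have h3 : pw t (-(η / 4) * e) = pw t (-(η / 8 * e)) * pw t (-(η / 8 * e)) := by
      rw [← pw_add]; congr 1; ring
    rw [h3]
    have h4 : C * pw t (-(η / 8 * e)) ≤ 1 := by
      rw [pw_neg, ← div_eq_mul_inv, div_le_one (pw_pos _ _)]
      exact h2
    have h5 := pw_pos t (-(η / 8 * e))
    nlinarith

theorem small_mono (m : ℕ) {d : ℕ} {ε x x' η η' : ℝ} (t : ℕ) (κ : ℝ) (g : Fin (d + 1) → ℤ)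
    (h1 : -((d + ε) * x') + η' ≤ -((d + ε) * x) + η) (h2 : x' + η' ≤ x + η)
    (h : Small m ε x' η' t κ g) : Small m ε x η t κ g := by
  refine ⟨h.1.trans (pw_mono t (by linarith)), fun i hi => (h.2 i hi).trans (pw_mono t ?_)⟩
  linarith

theorem GT (m d : ℕ) (hm : 1 ≤ m) (hd : 1 ≤ d) (ε x₀ X : ℝ) (hε : 0 < ε) (hx0 : 0 < x₀)
    (hX : m ≤ d → X < m) : ∃ δ : ℝ, 0 < δ ∧ ∃ η : ℝ, 0 < η ∧ ∃ t0 : ℕ, ∀ t : ℕ, t0 ≤ t →
    volume {κ | κ ∈ Icc (3 : ℝ) 4 ∧ ∃ x ∈ Icc x₀ X, ∃ g : Fin (d + 1) → ℤ, g ≠ 0 ∧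
      Small m ε x η t κ g} ≤ ENNReal.ofReal (pw t (-δ)) := by
  let Q : Set ℝ → Prop := fun s => ∃ δ : ℝ, 0 < δ ∧ ∃ η : ℝ, 0 < η ∧ ∃ t0 : ℕ, ∀ t : ℕ, t0 ≤ t →
    volume {κ | κ ∈ Icc (3 : ℝ) 4 ∧ ∃ x ∈ s, ∃ g : Fin (d + 1) → ℤ, g ≠ 0 ∧
      Small m ε x η t κ g} ≤ ENNReal.ofReal (pw t (-δ))
  refine (isCompact_Icc (a := x₀) (b := X)).induction_on (p := Q) ?_ ?_ ?_ ?_
  · refine ⟨1, one_pos, 1, one_pos, 0, fun t _ => ?_⟩
    simp
  · rintro s s' hss ⟨δ, hδ, η, hη, t0, h⟩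
    refine ⟨δ, hδ, η, hη, t0, fun t ht => (measure_mono ?_).trans (h t ht)⟩
    rintro κ ⟨hκ, x, hx, hg⟩
    exact ⟨hκ, x, hss hx, hg⟩
  · rintro s s' ⟨δ, hδ, η, hη, t0, h⟩ ⟨δ', hδ', η', hη', t0', h'⟩
    set δ'' := min δ δ' / 2 with hδ''
    have hδ''0 : 0 < δ'' := by positivity
    have hd1 : δ'' + δ'' ≤ δ := by
      rw [hδ'']; have := min_le_left δ δ'; linarith
    have hd2 : δ'' + δ'' ≤ δ' := by
      rw [hδ'']; have := min_le_right δ δ'; linarith
    obtain ⟨t1, ht1⟩ := pw_large δ'' 2 hδ''0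
    refine ⟨δ'', hδ''0, min η η', by positivity, max t1 (max t0 t0'), fun t ht => ?_⟩
    have ha : t1 ≤ t := (le_max_left _ _).trans ht
    have hb : t0 ≤ t := (le_max_left _ _).trans ((le_max_right _ _).trans ht)
    have hc : t0' ≤ t := (le_max_right _ _).trans ((le_max_right _ _).trans ht)
    have hsub : {κ | κ ∈ Icc (3 : ℝ) 4 ∧ ∃ x ∈ s ∪ s', ∃ g : Fin (d + 1) → ℤ, g ≠ 0 ∧
        Small m ε x (min η η') t κ g} ⊆
        {κ | κ ∈ Icc (3 : ℝ) 4 ∧ ∃ x ∈ s, ∃ g : Fin (d + 1) → ℤ, g ≠ 0 ∧ Small m ε x η t κ g} ∪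
        {κ | κ ∈ Icc (3 : ℝ) 4 ∧ ∃ x ∈ s', ∃ g : Fin (d + 1) → ℤ, g ≠ 0 ∧
          Small m ε x η' t κ g} := by
      rintro κ ⟨hκ, x, hx | hx, g, hg, hs⟩
      · exact Or.inl ⟨hκ, x, hx, g, hg, small_mono m t κ g
          (by have := min_le_left η η'; linarith) (by have := min_le_left η η'; linarith) hs⟩
      · exact Or.inr ⟨hκ, x, hx, g, hg, small_mono m t κ g
          (by have := min_le_right η η'; linarith) (by have := min_le_right η η'; linarith) hs⟩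
    refine (measure_mono hsub).trans ((measure_union_le _ _).trans ?_)
    refine (add_le_add (h t hb) (h' t hc)).trans ?_
    rw [← ENNReal.ofReal_add (pw_pos _ _).le (pw_pos _ _).le]
    refine ENNReal.ofReal_le_ofReal ?_
    have h1 : pw t (-δ) ≤ pw t (-δ'') * pw t (-δ'') := by
      rw [← pw_add]; exact pw_mono t (by linarith)
    have h2 : pw t (-δ') ≤ pw t (-δ'') * pw t (-δ'') := by
      rw [← pw_add]; exact pw_mono t (by linarith)
    have h3 : 2 * pw t (-δ'') ≤ 1 := by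
      rw [pw_neg, ← div_eq_mul_inv, div_le_one (pw_pos _ _)]
      exact ht1 t ha
    have h4 := pw_pos t (-δ'')
    nlinarith
  · intro x hx
    obtain ⟨η, hη, δ, hδ, t0, h⟩ := gt_single m d hm hd ε x hε (hx0.trans_le hx.1)
      (fun hmd => hx.2.trans_lt (hX hmd))
    have hdε : (0 : ℝ) < d + ε + 1 := by positivity
    set ρ : ℝ := η / (2 * (d + ε + 1)) with hρ
    have hρ0 : 0 < ρ := by positivity
    have hρ1 : (d + ε + 1) * ρ = η / 2 := by
      rw [hρ]; field_simp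
    refine ⟨Metric.ball x ρ, mem_nhdsWithin_of_mem_nhds (Metric.ball_mem_nhds x hρ0),
      δ, hδ, η / 2, by positivity, t0, fun t ht => (measure_mono ?_).trans (h t ht)⟩
    rintro κ ⟨hκ, y, hy, g, hg, hs⟩
    refine ⟨hκ, g, hg, small_mono m t κ g ?_ ?_ hs⟩
    · rw [Metric.mem_ball, Real.dist_eq, abs_lt] at hy
      have h1 : (d + ε) * (x - y) ≤ (d + ε) * ρ :=
        mul_le_mul_of_nonneg_left (by linarith) (by positivity)
      nlinarith
    · rw [Metric.mem_ball, Real.dist_eq, abs_lt] at hy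
      have h1 : ρ ≤ (d + ε + 1) * ρ := le_mul_of_one_le_left hρ0.le (by
        have : (0 : ℝ) ≤ d := by positivity
        linarith)
      linarith

end Pool.Agent.JS
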