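import Pool.Agent.Lib_MP_b52a92_nt.Basic

set_option autoImplicit false

/-! Piece Subst: Moebius substitution in integer polynomials. -/

namespace Pool.Agent.JS

open Polynomial MeasureTheory Set

/-- the substituted polynomial `∑ Q_l (p X + p')^l (q X - k)^(d-l)` -/
noncomputable def subP {d : ℕ} (p q k p' : ℤ) (Q : Fin (d + 1) → ℤ) : ℤ[X] :=
  ∑ l : Fin (d + 1), C (Q l) * (C p * X + C p') ^ (l : ℕ) * (C q * X - C k) ^ (d - (l : ℕ))

theorem subP_natDegree {d : ℕ} (p q k p' : ℤ) (Q : Fin (d + 1) → ℤ) :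
    (subP p q k p' Q).natDegree ≤ d := by
  unfold subP
  refine natDegree_sum_le_of_forall_le _ _ fun l _ => ?_
  have h1 : (C p * X + C p' : ℤ[X]).natDegree ≤ 1 := by compute_degree
  have h2 : (C q * X - C k : ℤ[X]).natDegree ≤ 1 := by compute_degree
  have h3 : (C (Q l) * (C p * X + C p') ^ (l : ℕ)).natDegree ≤ (l : ℕ) := by
    refine (natDegree_C_mul_le _ _).trans ?_
    have := natDegree_pow_le_of_le (l : ℕ) h1
    omega
  have h4 : ((C q * X - C k : ℤ[X]) ^ (d - (l : ℕ))).natDegree ≤ d - (l : ℕ) := by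
    have := natDegree_pow_le_of_le (d - (l : ℕ)) h2
    omega
  refine natDegree_mul_le.trans ?_
  have := l.2
  omega

theorem subP_aeval {d : ℕ} (p q k p' : ℤ) (Q : Fin (d + 1) → ℤ) (x : ℝ)
    (hx : (q : ℝ) * x - k ≠ 0) :
    ev x (vec d (subP p q k p' Q)) =
      ((q : ℝ) * x - k) ^ d * ev (((p : ℝ) * x + p') / ((q : ℝ) * x - k)) Q := by
  rw [vec_ev _ (subP_natDegree p q k p' Q)]
  unfold subP ev
  rw [map_sum, Finset.mul_sum]
  refine Finset.sum_congr rfl fun l _ => ?_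
  have hl : (l : ℕ) ≤ d := Nat.lt_succ_iff.1 l.2
  simp only [map_mul, map_pow, map_add, map_sub, aeval_C, aeval_X]
  simp only [algebraMap_int_eq, eq_intCast]
  rw [div_pow]
  have h1 : ((q : ℝ) * x - k) ^ d = ((q : ℝ) * x - k) ^ (d - (l : ℕ)) * ((q : ℝ) * x - k) ^ (l : ℕ) := by
    rw [← pow_add]; congr 1; omega
  rw [h1]
  have h2 : ((q : ℝ) * x - k) ^ (l : ℕ) ≠ 0 := pow_ne_zero _ hx
  have h3 : ((q : ℝ) * x - k) ^ (l : ℕ) * (((p : ℝ) * x + p') ^ (l : ℕ) /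
      ((q : ℝ) * x - k) ^ (l : ℕ)) = ((p : ℝ) * x + p') ^ (l : ℕ) := mul_div_cancel₀ _ h2
  linear_combination (-((q : ℝ) * x - k) ^ (d - (l : ℕ)) * (Q l : ℝ)) * h3

theorem polR_vec {d : ℕ} (P : ℤ[X]) (hP : P.natDegree ≤ d) :
    polR (rvr (vec d P)) = P.map (Int.castRingHom ℝ) := by
  ext i
  rw [coeff_map]
  by_cases hi : i ≤ d
  · have := polR_coeff (rvr (vec d P)) ⟨i, Nat.lt_succ_of_le hi⟩
    simp only at this
    rw [this]
    simp [rvr, vec]
  · rw [coeff_eq_zero_of_natDegree_lt (lt_of_le_of_lt (polR_natDegree _) (by omega)),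
      coeff_eq_zero_of_natDegree_lt (p := P) (by omega)]
    simp

theorem coeff_lin_pow (a c : ℝ) (l s : ℕ) :
    ((C a * X + C c : ℝ[X]) ^ l).coeff s = a ^ s * c ^ (l - s) * (l.choose s : ℝ) := by
  rw [add_pow, finsetSum_coeff]
  have h1 : ∀ m ∈ Finset.range (l + 1), ((C a * X : ℝ[X]) ^ m * C c ^ (l - m) *
      ((l.choose m : ℕ) : ℝ[X])).coeff s = if s = m then a ^ m * c ^ (l - m) * (l.choose m : ℝ)
        else 0 := by
    intro m _
    have h2 : ((C a * X : ℝ[X]) ^ m * C c ^ (l - m) * ((l.choose m : ℕ) : ℝ[X])) =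
        C (a ^ m * c ^ (l - m) * (l.choose m : ℝ)) * X ^ m := by
      rw [mul_pow]
      simp only [map_mul, map_pow, map_natCast]
      ring
    rw [h2, coeff_C_mul_X_pow]
  rw [Finset.sum_congr rfl h1, Finset.sum_ite_eq]
  split_ifs with h
  · rfl
  · rw [Nat.choose_eq_zero_of_lt (by simpa using h)]
    simp

/-- Taylor coefficients at `k / q` -/
theorem subP_tc {d : ℕ} {p q k p' : ℤ} (hp : 0 ≤ p) (hpq : p < q) (hdet : p * k + p' * q = -1)
    (Q : Fin (d + 1) → ℤ) {i : ℕ} (hi : i ≤ d) :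
    (q : ℝ) ^ d * |tc i ((k : ℝ) / q) (vec d (subP p q k p' Q))| ≤
      ((d : ℝ) + 1) * 2 ^ d * H Q * (q : ℝ) ^ (2 * i) := by
  have hq0 : (0 : ℝ) < q := by exact_mod_cast (hp.trans_lt hpq)
  have hq1 : (1 : ℝ) ≤ q := by
    have : (1 : ℤ) ≤ q := by omega
    exact_mod_cast this
  have hp0 : (0 : ℝ) ≤ p := by exact_mod_cast hp
  have hpq' : (p : ℝ) ≤ q := by exact_mod_cast hpq.le
  have hdet' : (p : ℝ) * ((k : ℝ) / q) + p' = -(1 / q) := by
    have h1 : (p : ℝ) * k + p' * q = -1 := by exact_mod_cast hdet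
    field_simp
    linarith
  rw [tc_eq, polR_vec _ (subP_natDegree p q k p' Q), taylor_apply]
  have hcomp : ((subP p q k p' Q).map (Int.castRingHom ℝ)).comp (X + C ((k : ℝ) / q)) =
      ∑ l : Fin (d + 1), C (Q l : ℝ) * (C (p : ℝ) * X + C (-(1 / (q : ℝ)))) ^ (l : ℕ) *
        (C ((q : ℝ) ^ (d - (l : ℕ))) * X ^ (d - (l : ℕ))) := by
    unfold subP
    rw [Polynomial.map_sum, Polynomial.sum_comp]
    refine Finset.sum_congr rfl fun l _ => ?_
    simp only [Polynomial.map_mul, Polynomial.map_pow, Polynomial.map_add, Polynomial.map_sub,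
      map_C, map_X, mul_comp, pow_comp, add_comp, sub_comp, C_comp, X_comp]
    simp only [eq_intCast]
    have e1 : (C (p : ℝ) * (X + C ((k : ℝ) / q)) + C (p' : ℝ) : ℝ[X]) =
        C (p : ℝ) * X + C (-(1 / (q : ℝ))) := by
      rw [← hdet', map_add, map_mul]; ring
    have e2 : (C (q : ℝ) * (X + C ((k : ℝ) / q)) - C (k : ℝ) : ℝ[X]) = C (q : ℝ) * X := by
      have : (C (q : ℝ) * C ((k : ℝ) / q) : ℝ[X]) = C (k : ℝ) := by
        rw [← map_mul]; congr 1; field_simp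
      rw [mul_add, this]; ring
    rw [e1, e2, mul_pow, ← map_pow]
  rw [hcomp, finsetSum_coeff]
  have hterm : ∀ l : Fin (d + 1), (q : ℝ) ^ d *
      |(C (Q l : ℝ) * (C (p : ℝ) * X + C (-(1 / (q : ℝ)))) ^ (l : ℕ) *
        (C ((q : ℝ) ^ (d - (l : ℕ))) * X ^ (d - (l : ℕ)))).coeff i| ≤
      2 ^ d * H Q * (q : ℝ) ^ (2 * i) := by
    intro l
    have hl : (l : ℕ) ≤ d := Nat.lt_succ_iff.1 l.2
    have h1 : (C (Q l : ℝ) * (C (p : ℝ) * X + C (-(1 / (q : ℝ)))) ^ (l : ℕ) *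
        (C ((q : ℝ) ^ (d - (l : ℕ))) * X ^ (d - (l : ℕ))) : ℝ[X]) =
        C ((Q l : ℝ) * (q : ℝ) ^ (d - (l : ℕ))) *
          (C (p : ℝ) * X + C (-(1 / (q : ℝ)))) ^ (l : ℕ) * X ^ (d - (l : ℕ)) := by
      rw [map_mul]; ring
    rw [h1, coeff_mul_X_pow']
    split_ifs with h2
    · rw [coeff_C_mul, coeff_lin_pow]
      set s := i - (d - (l : ℕ)) with hs
      have hsl : s ≤ l := by omega
      have hch : ((l : ℕ).choose s : ℝ) ≤ 2 ^ d := by
        have h3 : (l : ℕ).choose s ≤ 2 ^ (l : ℕ) := Nat.choose_le_two_pow _ _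
        have h4 : 2 ^ (l : ℕ) ≤ 2 ^ d := Nat.pow_le_pow_right (by norm_num) hl
        exact_mod_cast h3.trans h4
      have hQ := abs_le_H Q l
      have habs : |(Q l : ℝ) * (q : ℝ) ^ (d - (l : ℕ)) * ((p : ℝ) ^ s *
          (-(1 / (q : ℝ))) ^ ((l : ℕ) - s) * ((l : ℕ).choose s : ℝ))| =
          |(Q l : ℝ)| * (q : ℝ) ^ (d - (l : ℕ)) * ((p : ℝ) ^ s *
          (1 / (q : ℝ)) ^ ((l : ℕ) - s) * ((l : ℕ).choose s : ℝ)) := by
        rw [abs_mul, abs_mul, abs_mul, abs_mul, abs_pow, abs_pow, abs_pow, abs_neg,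
          abs_of_pos hq0, abs_of_nonneg hp0, abs_of_pos (by positivity : (0:ℝ) < 1 / q),
          Nat.abs_cast]
      rw [habs]
      have hps : (p : ℝ) ^ s ≤ (q : ℝ) ^ s := pow_le_pow_left₀ hp0 hpq' s
      have hqd : (q : ℝ) ^ d = (q : ℝ) ^ ((l : ℕ) - s) * (q : ℝ) ^ i := by
        rw [← pow_add]; congr 1; omega
      have hcancel : (q : ℝ) ^ ((l : ℕ) - s) * (1 / (q : ℝ)) ^ ((l : ℕ) - s) = 1 := by
        rw [← mul_pow]
        have : (q : ℝ) * (1 / q) = 1 := by field_simp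
        rw [this, one_pow]
      have h2i : (q : ℝ) ^ (2 * i) = (q : ℝ) ^ s * (q : ℝ) ^ (d - (l : ℕ)) * (q : ℝ) ^ i := by
        rw [← pow_add, ← pow_add]; congr 1; omega
      calc (q : ℝ) ^ d * (|(Q l : ℝ)| * (q : ℝ) ^ (d - (l : ℕ)) * ((p : ℝ) ^ s *
            (1 / (q : ℝ)) ^ ((l : ℕ) - s) * ((l : ℕ).choose s : ℝ)))
          = ((q : ℝ) ^ ((l : ℕ) - s) * (1 / (q : ℝ)) ^ ((l : ℕ) - s)) *
            (|(Q l : ℝ)| * ((l : ℕ).choose s : ℝ) *
              ((p : ℝ) ^ s * (q : ℝ) ^ (d - (l : ℕ)) * (q : ℝ) ^ i)) := by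
            rw [hqd]; ring
        _ = |(Q l : ℝ)| * ((l : ℕ).choose s : ℝ) *
              ((p : ℝ) ^ s * (q : ℝ) ^ (d - (l : ℕ)) * (q : ℝ) ^ i) := by
            rw [hcancel, one_mul]
        _ ≤ (H Q : ℝ) * 2 ^ d * ((q : ℝ) ^ s * (q : ℝ) ^ (d - (l : ℕ)) * (q : ℝ) ^ i) := by
            gcongr
        _ = 2 ^ d * H Q * (q : ℝ) ^ (2 * i) := by rw [h2i]; ring
    · rw [abs_zero, mul_zero]
      positivity
  calc (q : ℝ) ^ d * |∑ l : Fin (d + 1), (C (Q l : ℝ) *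
        (C (p : ℝ) * X + C (-(1 / (q : ℝ)))) ^ (l : ℕ) *
        (C ((q : ℝ) ^ (d - (l : ℕ))) * X ^ (d - (l : ℕ)))).coeff i|
      ≤ (q : ℝ) ^ d * ∑ l : Fin (d + 1), |(C (Q l : ℝ) *
        (C (p : ℝ) * X + C (-(1 / (q : ℝ)))) ^ (l : ℕ) *
        (C ((q : ℝ) ^ (d - (l : ℕ))) * X ^ (d - (l : ℕ)))).coeff i| :=
        mul_le_mul_of_nonneg_left (Finset.abs_sum_le_sum_abs _ _) (by positivity)
    _ = ∑ l : Fin (d + 1), (q : ℝ) ^ d * |(C (Q l : ℝ) *
        (C (p : ℝ) * X + C (-(1 / (q : ℝ)))) ^ (l : ℕ) *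
        (C ((q : ℝ) ^ (d - (l : ℕ))) * X ^ (d - (l : ℕ)))).coeff i| := by rw [Finset.mul_sum]
    _ ≤ ∑ _l : Fin (d + 1), 2 ^ d * (H Q : ℝ) * (q : ℝ) ^ (2 * i) :=
        Finset.sum_le_sum fun l _ => hterm l
    _ = _ := by
        rw [Finset.sum_const, Finset.card_univ, Fintype.card_fin, nsmul_eq_mul]
        push_cast
        ring

/-- the substituted polynomial is nonzero -/
theorem subP_ne_zero {d : ℕ} {p q k p' : ℤ} (hq : 0 < q) (hdet : p * k + p' * q = -1)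
    (Q : Fin (d + 1) → ℤ) (hQ : Q ≠ 0) : vec d (subP p q k p' Q) ≠ 0 := by
  intro h0
  obtain ⟨R, -, hR⟩ := roots_finite Q hQ
  have hdet' : (p : ℝ) * k + p' * q = -1 := by exact_mod_cast hdet
  have hall : ∀ y : ℝ, (q : ℝ) * y - p ≠ 0 → y ∈ R := by
    intro y hy
    rw [← hR]
    -- the preimage of `y`
    set x : ℝ := ((k : ℝ) * y + p') / ((q : ℝ) * y - p) with hx
    have h1 : (q : ℝ) * x - k = -1 / ((q : ℝ) * y - p) := by
      rw [hx]
      field_simp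
      linarith
    have h2 : (q : ℝ) * x - k ≠ 0 := by
      rw [h1]
      exact div_ne_zero (by norm_num) hy
    have hy' : y * (q : ℝ) - p ≠ 0 := by rw [mul_comm]; exact hy
    have h3' : (p : ℝ) * x + p' = -y / ((q : ℝ) * y - p) := by
      rw [hx]
      field_simp
      linear_combination y * hdet'
    have h3 : ((p : ℝ) * x + p') / ((q : ℝ) * x - k) = y := by
      rw [h1, h3']
      field_simp
    have h4 := subP_aeval p q k p' Q x h2
    rw [h0, h3] at h4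
    have h5 : ev x (0 : Fin (d + 1) → ℤ) = 0 := by simp [ev]
    rw [h5] at h4
    exact (mul_eq_zero.1 h4.symm).resolve_left (pow_ne_zero _ h2)
  -- infinitely many reals
  have hinf : (Set.univ \ {(p : ℝ) / q} : Set ℝ).Infinite :=
    Set.infinite_univ.sdiff (Set.finite_singleton _)
  apply hinf
  refine Set.Finite.subset R.finite_toSet ?_
  intro y hy
  apply hall
  intro h
  apply hy.2
  rw [Set.mem_singleton_iff]
  have hq' : (q : ℝ) ≠ 0 := by exact_mod_cast hq.ne'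
  field_simp
  linarith

theorem subst_small (m d : ℕ) (hm : 1 ≤ m) : ∃ C : ℝ, 1 ≤ C ∧
    ∀ (t : ℕ) (p q k p' : ℤ), Adm t p q k p' → ∀ (ε x : ℝ) (Q : Fin (d + 1) → ℤ), Q ≠ 0 →
    (H Q : ℝ) ≤ pw t x → |ev (al m p q k p') Q| ≤ pw t (-((d + ε) * x)) →
    ∃ g : Fin (d + 1) → ℤ, g ≠ 0 ∧ |ev (β m) g| ≤ C * pw t (d - (d + ε) * x) ∧
      ∀ κ : ℝ, |κ - k / q| ≤ pw t (-2) → ∀ i < d, |tc i κ g| ≤ C * pw t (x + 2 * i - d) := by
  set C1 : ℝ := ((d : ℝ) + 1) * 2 ^ d * 16 ^ d with hC1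
  have hC1p : 1 ≤ C1 := by
    have h1 : (1 : ℝ) ≤ 2 ^ d := one_le_pow₀ (by norm_num)
    have h2 : (1 : ℝ) ≤ 16 ^ d := one_le_pow₀ (by norm_num)
    have h3 : (1 : ℝ) ≤ (d : ℝ) + 1 := by have : (0:ℝ) ≤ d := by positivity
                                          linarith
    calc (1 : ℝ) = 1 * 1 * 1 := by norm_num
      _ ≤ ((d : ℝ) + 1) * 2 ^ d * 16 ^ d := by gcongr
  refine ⟨3 ^ d + ((d : ℝ) + 1) * 2 ^ d * C1, ?_, ?_⟩
  · have h1 : (1 : ℝ) ≤ 3 ^ d := one_le_pow₀ (by norm_num)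
    have h2 : (0 : ℝ) ≤ ((d : ℝ) + 1) * 2 ^ d * C1 := by positivity
    linarith
  intro t p q k p' hA ε x Q hQ hH hev
  obtain ⟨hp, hpq, hqT, hTq, hk3, hk4, hdet⟩ := hA
  have hqpos : 0 < q := hp.trans_lt hpq
  have hq0 : (0 : ℝ) < q := by exact_mod_cast hqpos
  have hqT' : (q : ℝ) ≤ 2 ^ t := by exact_mod_cast hqT
  have hTq' : (2 : ℝ) ^ t ≤ 16 * q := by exact_mod_cast hTq
  have hk3' : 3 * (q : ℝ) ≤ k := by exact_mod_cast hk3
  have hk4' : (k : ℝ) ≤ 4 * q := by exact_mod_cast hk4.le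
  have hβ1 : 1 ≤ β m := Real.one_le_rpow (by norm_num) (by positivity)
  have hβ2 : β m ≤ 2 := by
    have h1 : (2 : ℝ) ^ ((1 : ℝ) / m) ≤ 2 ^ (1 : ℝ) := by
      apply Real.rpow_le_rpow_of_exponent_le (by norm_num)
      rw [div_le_one (by exact_mod_cast hm)]
      exact_mod_cast hm
    rw [Real.rpow_one] at h1
    exact h1
  have hneg : (q : ℝ) * β m - k ≤ -q := by nlinarith
  have hne : (q : ℝ) * β m - k ≠ 0 := by
    intro h
    rw [h] at hneg
    linarith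
  refine ⟨vec d (subP p q k p' Q), subP_ne_zero hqpos hdet Q hQ, ?_, ?_⟩
  · -- the value at `β`
    rw [subP_aeval p q k p' Q (β m) hne, abs_mul, abs_pow]
    have h1 : |(q : ℝ) * β m - k| ≤ 3 * 2 ^ t := by
      rw [abs_of_neg (by linarith)]
      nlinarith
    have h2 : |(q : ℝ) * β m - k| ^ d ≤ 3 ^ d * pw t d := by
      rw [pw_nat, ← mul_pow]
      exact pow_le_pow_left₀ (abs_nonneg _) h1 d
    calc |(q : ℝ) * β m - k| ^ d * |ev (((p : ℝ) * β m + p') / ((q : ℝ) * β m - k)) Q|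
        ≤ (3 ^ d * pw t d) * pw t (-((d + ε) * x)) :=
          mul_le_mul h2 hev (abs_nonneg _) (mul_nonneg (by positivity) (pw_pos t d).le)
      _ = 3 ^ d * pw t (d - (d + ε) * x) := by
          rw [mul_assoc, ← pw_add, sub_eq_add_neg]
      _ ≤ (3 ^ d + ((d : ℝ) + 1) * 2 ^ d * C1) * pw t (d - (d + ε) * x) := by
          refine mul_le_mul_of_nonneg_right ?_ (pw_pos _ _).le
          have : (0 : ℝ) ≤ ((d : ℝ) + 1) * 2 ^ d * C1 := by positivity
          linarith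
  · -- the Taylor coefficients
    have htc : ∀ j ≤ d, |tc j ((k : ℝ) / q) (vec d (subP p q k p' Q))| ≤
        C1 * pw t (x + 2 * j - d) := by
      intro j hj
      have h1 := subP_tc hp hpq hdet Q hj
      have h2 : (q : ℝ) ^ (2 * j) ≤ (2 ^ t) ^ (2 * j) := pow_le_pow_left₀ hq0.le hqT' _
      have h3 : ((2 : ℝ) ^ t) ^ d ≤ 16 ^ d * (q : ℝ) ^ d := by
        rw [← mul_pow]
        exact pow_le_pow_left₀ (by positivity) hTq' d
      have h4 : 0 < ((2 : ℝ) ^ t) ^ d := by positivity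
      have h5 : pw t (x + 2 * j - d) * (2 ^ t) ^ d = pw t x * (2 ^ t) ^ (2 * j) := by
        rw [← pw_nat, ← pw_nat, ← pw_add, ← pw_add]
        congr 1
        push_cast
        ring
      set τ := |tc j ((k : ℝ) / q) (vec d (subP p q k p' Q))| with hτ
      have hτ0 : 0 ≤ τ := abs_nonneg _
      have h6 : τ * (2 ^ t) ^ d ≤ (C1 * pw t (x + 2 * j - d)) * (2 ^ t) ^ d := by
        calc τ * (2 ^ t) ^ d ≤ τ * (16 ^ d * (q : ℝ) ^ d) :=
              mul_le_mul_of_nonneg_left h3 hτ0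
          _ = 16 ^ d * ((q : ℝ) ^ d * τ) := by ring
          _ ≤ 16 ^ d * (((d : ℝ) + 1) * 2 ^ d * H Q * (q : ℝ) ^ (2 * j)) :=
              mul_le_mul_of_nonneg_left h1 (by positivity)
          _ ≤ 16 ^ d * (((d : ℝ) + 1) * 2 ^ d * pw t x * (2 ^ t) ^ (2 * j)) := by
              have hpw := (pw_pos t x).le
              gcongr
          _ = C1 * (pw t x * (2 ^ t) ^ (2 * j)) := by rw [hC1]; ring
          _ = _ := by rw [← h5]; ring
      exact le_of_mul_le_mul_right h6 h4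
    intro κ hκ i hi
    rw [tc_shift i ((k : ℝ) / q) κ]
    refine (Finset.abs_sum_le_sum_abs _ _).trans ?_
    have hterm : ∀ j ∈ Finset.range (d + 1),
        |tc j ((k : ℝ) / q) (vec d (subP p q k p' Q)) * ((j.choose i : ℕ) : ℝ) *
          (κ - (k : ℝ) / q) ^ (j - i)| ≤ 2 ^ d * C1 * pw t (x + 2 * i - d) := by
      intro j hj
      have hjd : j ≤ d := Nat.lt_succ_iff.1 (Finset.mem_range.1 hj)
      rw [abs_mul, abs_mul, abs_pow, Nat.abs_cast]
      rcases Nat.lt_or_ge j i with hji | hij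
      · rw [Nat.choose_eq_zero_of_lt hji]
        simp only [Nat.cast_zero, mul_zero, zero_mul]
        have := (pw_pos t (x + 2 * i - d)).le
        positivity
      · have h1 : ((j.choose i : ℕ) : ℝ) ≤ 2 ^ d := by
          have h3 : j.choose i ≤ 2 ^ j := Nat.choose_le_two_pow _ _
          have h4 : 2 ^ j ≤ 2 ^ d := Nat.pow_le_pow_right (by norm_num) hjd
          exact_mod_cast h3.trans h4
        have h2 : |κ - (k : ℝ) / q| ^ (j - i) ≤ pw t (-(2 * ((j : ℝ) - i))) := by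
          have h3 := pow_le_pow_left₀ (abs_nonneg _) hκ (j - i)
          refine h3.trans (le_of_eq ?_)
          rw [← Real.rpow_natCast, pw_rpow, Nat.cast_sub hij]
          congr 1
          ring
        calc |tc j ((k : ℝ) / q) (vec d (subP p q k p' Q))| * ((j.choose i : ℕ) : ℝ) *
              |κ - (k : ℝ) / q| ^ (j - i)
            ≤ (C1 * pw t (x + 2 * j - d)) * 2 ^ d * pw t (-(2 * ((j : ℝ) - i))) := by
              have := (pw_pos t (x + 2 * j - d)).le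
              have h5 := htc j hjd
              gcongr
          _ = 2 ^ d * C1 * (pw t (x + 2 * j - d) * pw t (-(2 * ((j : ℝ) - i)))) := by ring
          _ = _ := by
              rw [← pw_add]
              congr 2
              ring
    refine (Finset.sum_le_sum hterm).trans ?_
    rw [Finset.sum_const, Finset.card_range, nsmul_eq_mul]
    push_cast
    have h1 := (pw_pos t (x + 2 * i - d)).le
    have h2 : (0 : ℝ) ≤ 3 ^ d * pw t (x + 2 * i - d) := by positivity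
    calc ((d : ℝ) + 1) * (2 ^ d * C1 * pw t (x + 2 * i - d))
        ≤ 3 ^ d * pw t (x + 2 * i - d) + ((d : ℝ) + 1) * (2 ^ d * C1 * pw t (x + 2 * i - d)) := by
          linarith
      _ = _ := by ring

end Pool.Agent.JS
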