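import Pool.Agent.Lib_MP_b52a92_nt.Basic
import Pool.Agent.Lib_MP_b52a92_nt.GT
import Pool.Agent.Lib_MP_b52a92_nt.Subst

set_option autoImplicit false

/-! Number of bad admissible data (MP_b52a92_nt, piece BadCount). -/

namespace Pool.Agent.JS

open Polynomial MeasureTheory Set

theorem pw_two (t : ℕ) : pw t 2 = ((2 : ℝ) ^ t) ^ 2 := by
  have h := pw_nat t 2
  rw [Nat.cast_ofNat] at h
  exact h

/-- admissible data are determined by the fraction `k / q`; distinct fractions are separated -/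
theorem adm_sep (t : ℕ) (s s' : ℤ × ℤ × ℤ × ℤ) (h : Adm t s.1 s.2.1 s.2.2.1 s.2.2.2)
    (h' : Adm t s'.1 s'.2.1 s'.2.2.1 s'.2.2.2) (hne : s ≠ s') :
    pw t (-2) ≤ |(s.2.2.1 : ℝ) / s.2.1 - (s'.2.2.1 : ℝ) / s'.2.1| := by
  obtain ⟨p, q, k, r⟩ := s
  obtain ⟨p', q', k', r'⟩ := s'
  simp only at h h' ⊢
  obtain ⟨hp, hpq, hqT, hTq, hk3, hk4, hdet⟩ := h
  obtain ⟨hp', hpq', hqT', hTq', hk3', hk4', hdet'⟩ := h'
  have hq : 0 < q := lt_of_le_of_lt hp hpq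
  have hq' : 0 < q' := lt_of_le_of_lt hp' hpq'
  have hqR : (0 : ℝ) < q := by exact_mod_cast hq
  have hqR' : (0 : ℝ) < q' := by exact_mod_cast hq'
  -- the integer `k q' - k' q`
  have hne0 : k * q' - k' * q ≠ 0 := by
    intro h0
    have h0' : k * q' = k' * q := by linarith
    have c1 : IsCoprime q k := ⟨-r, -p, by linear_combination -hdet⟩
    have c2 : IsCoprime q' k' := ⟨-r', -p', by linear_combination -hdet'⟩
    have d1 : q ∣ q' := c1.dvd_of_dvd_mul_left ⟨k', by rw [h0']; ring⟩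
    have d2 : q' ∣ q := c2.dvd_of_dvd_mul_left ⟨k, by rw [← h0']; ring⟩
    have e1 : q = q' := Int.dvd_antisymm hq.le hq'.le d1 d2
    subst e1
    have e2 : k = k' := mul_right_cancel₀ hq.ne' h0'
    subst e2
    have d3 : q ∣ p - p' := by
      have : q ∣ k * (p - p') := ⟨r' - r, by linear_combination hdet - hdet'⟩
      exact c1.dvd_of_dvd_mul_left this
    have e3 : p = p' := by
      have h1 : |p - p'| < q := by
        rw [abs_lt]; constructor <;> linarith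
      have := Int.eq_zero_of_abs_lt_dvd d3 h1
      linarith
    subst e3
    have e4 : r = r' := by
      have : r * q = r' * q := by linear_combination hdet - hdet'
      exact mul_right_cancel₀ hq.ne' this
    subst e4
    exact hne rfl
  have h1 : (1 : ℝ) ≤ |((k * q' - k' * q : ℤ) : ℝ)| := by
    have : (1 : ℤ) ≤ |k * q' - k' * q| := Int.one_le_abs hne0
    exact_mod_cast this
  have e : (k : ℝ) / q - (k' : ℝ) / q' = ((k * q' - k' * q : ℤ) : ℝ) / (q * q') := by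
    push_cast
    field_simp
  rw [e, abs_div, abs_of_pos (mul_pos hqR hqR'), pw_neg, pw_two]
  have hT : (q : ℝ) ≤ 2 ^ t := by exact_mod_cast hqT
  have hT' : (q' : ℝ) ≤ 2 ^ t := by exact_mod_cast hqT'
  have h2 : (q : ℝ) * q' ≤ ((2 : ℝ) ^ t) ^ 2 := by
    nlinarith
  rw [le_div_iff₀ (mul_pos hqR hqR')]
  have h3 : (0 : ℝ) < ((2 : ℝ) ^ t) ^ 2 := by positivity
  calc (((2 : ℝ) ^ t) ^ 2)⁻¹ * (q * q') ≤ (((2 : ℝ) ^ t) ^ 2)⁻¹ *
        ((2 : ℝ) ^ t) ^ 2 := mul_le_mul_of_nonneg_left h2 (by positivity)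
    _ = 1 := inv_mul_cancel₀ h3.ne'
    _ ≤ _ := h1

theorem badcount (m d : ℕ) (hm : 1 ≤ m) (hd : 1 ≤ d) (ε x₀ X : ℝ) (hε : 0 < ε) (hx0 : 0 < x₀)
    (hX : m ≤ d → X < m) : ∃ δ : ℝ, 0 < δ ∧ ∃ t0 : ℕ, ∀ t : ℕ, t0 ≤ t →
    ∀ S : Finset (ℤ × ℤ × ℤ × ℤ), (∀ s ∈ S, Adm t s.1 s.2.1 s.2.2.1 s.2.2.2 ∧
      ¬ Gen d ε x₀ X t (al m s.1 s.2.1 s.2.2.1 s.2.2.2)) → (S.card : ℝ) ≤ 2 * pw t (2 - δ) := by
  obtain ⟨δ, hδ, η, hη, t1, hGT⟩ := GT m d hm hd ε x₀ X hε hx0 hX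
  obtain ⟨C, hC, hsub⟩ := subst_small m d hm
  obtain ⟨t2, hlarge⟩ := pw_large η C hη
  refine ⟨δ, hδ, max t1 t2, fun t ht S hS => ?_⟩
  have ht1 : t1 ≤ t := le_trans (le_max_left _ _) ht
  have ht2 : t2 ≤ t := le_trans (le_max_right _ _) ht
  have hCη := hlarge t ht2
  have hvol := hGT t ht1
  set Bad : Set ℝ := {κ | κ ∈ Icc (3 : ℝ) 4 ∧ ∃ x ∈ Icc x₀ X, ∃ g : Fin (d + 1) → ℤ, g ≠ 0 ∧
      Small m ε x η t κ g} with hBad
  have hT2 : pw t (-2) = ((2 ^ t) ^ 2 : ℝ)⁻¹ := by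
    rw [pw_neg, pw_two]
  have hT2pos : 0 < pw t (-2) := pw_pos _ _
  set I : ℤ × ℤ × ℤ × ℤ → Set ℝ := fun s =>
    Ico ((s.2.2.1 : ℝ) / s.2.1) ((s.2.2.1 : ℝ) / s.2.1 + pw t (-2) / 2) with hI
  -- the intervals are contained in the bad set
  have hsubset : ∀ s ∈ S, I s ⊆ Bad := by
    rintro ⟨p, q, k, r⟩ hs κ hκ
    obtain ⟨hadm, hgen⟩ := hS _ hs
    simp only [hI] at hκ hadm hgen
    have hadm' := hadm
    obtain ⟨hp, hpq, hqT, hTq, hk3, hk4, hdet⟩ := hadm'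
    have hq : 0 < q := lt_of_le_of_lt hp hpq
    have hqR : (0 : ℝ) < q := by exact_mod_cast hq
    have hT : (q : ℝ) ≤ 2 ^ t := by exact_mod_cast hqT
    have hT1 : (1 : ℝ) ≤ 2 ^ t := one_le_pow₀ (by norm_num)
    have hk3R : 3 * (q : ℝ) ≤ k := by exact_mod_cast hk3
    have hk4R : (k : ℝ) + 1 ≤ 4 * q := by
      have : k + 1 ≤ 4 * q := by linarith
      exact_mod_cast this
    have hlow : (3 : ℝ) ≤ (k : ℝ) / q := by
      rw [le_div_iff₀ hqR]; exact hk3R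
    have hup : (k : ℝ) / q + pw t (-2) / 2 ≤ 4 := by
      have h1 : (k : ℝ) / q ≤ 4 - 1 / q := by
        rw [div_le_iff₀ hqR]
        have : (4 - 1 / (q : ℝ)) * q = 4 * q - 1 := by field_simp
        rw [this]; linarith
      have h2 : pw t (-2) / 2 ≤ 1 / q := by
        rw [hT2]
        have h3 : (((2 : ℝ) ^ t) ^ 2)⁻¹ ≤ ((2 : ℝ) ^ t)⁻¹ := by
          apply inv_anti₀ (by positivity)
          nlinarith
        have h4 : ((2 : ℝ) ^ t)⁻¹ ≤ (q : ℝ)⁻¹ := inv_anti₀ hqR hT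
        have h5 : (0 : ℝ) < (q : ℝ)⁻¹ := by positivity
        rw [one_div]
        linarith
      linarith
    refine ⟨⟨le_trans hlow hκ.1, le_trans hκ.2.le hup⟩, ?_⟩
    unfold Gen at hgen
    push Not at hgen
    obtain ⟨x, hx, Q, hQ, hHQ, hevQ⟩ := hgen
    obtain ⟨g, hg, hg1, hg2⟩ := hsub t p q k r hadm ε x Q hQ hHQ hevQ
    refine ⟨x, hx, g, hg, ?_, ?_⟩
    · rw [pw_add]
      calc |ev (β m) g| ≤ C * pw t (d - (d + ε) * x) := hg1
        _ ≤ pw t η * pw t (d - (d + ε) * x) :=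
          mul_le_mul_of_nonneg_right hCη (pw_pos _ _).le
        _ = _ := mul_comm _ _
    · intro i hi
      have hκ' : |κ - (k : ℝ) / q| ≤ pw t (-2) := by
        rw [abs_le]
        constructor
        · linarith [hκ.1]
        · linarith [hκ.2]
      have h1 := hg2 κ hκ' i hi
      rw [pw_add]
      calc |tc i κ g| ≤ C * pw t (x + 2 * i - d) := h1
        _ ≤ pw t η * pw t (x + 2 * i - d) :=
          mul_le_mul_of_nonneg_right hCη (pw_pos _ _).le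
        _ = _ := mul_comm _ _
  -- the intervals are disjoint
  have hdisj : (S : Set (ℤ × ℤ × ℤ × ℤ)).PairwiseDisjoint I := by
    intro s hs s' hs' hne
    have hsep := adm_sep t s s' (hS s hs).1 (hS s' hs').1 hne
    rw [Function.onFun, Set.disjoint_left]
    intro κ h1 h2
    simp only [hI, mem_Ico] at h1 h2
    rcases le_abs.mp hsep with h | h
    · linarith [h1.1, h2.2]
    · linarith [h2.1, h1.2]
  have hmeas : ∀ s ∈ S, MeasurableSet (I s) := fun s _ => measurableSet_Ico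
  have h1 : volume (⋃ s ∈ S, I s) = ∑ s ∈ S, volume (I s) :=
    measure_biUnion_finset hdisj hmeas
  have h2 : volume (⋃ s ∈ S, I s) ≤ volume Bad :=
    measure_mono (Set.iUnion₂_subset hsubset)
  have h3 : ∀ s ∈ S, volume (I s) = ENNReal.ofReal (pw t (-2) / 2) := by
    intro s _
    simp only [hI, Real.volume_Ico]
    congr 1
    ring
  rw [h1, Finset.sum_congr rfl h3, Finset.sum_const, nsmul_eq_mul] at h2
  have h4 := h2.trans hvol
  rw [← ENNReal.ofReal_natCast, ← ENNReal.ofReal_mul (Nat.cast_nonneg _),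
    ENNReal.ofReal_le_ofReal_iff (pw_pos _ _).le] at h4
  have h5 : pw t (2 - δ) = pw t 2 * pw t (-δ) := by
    rw [← pw_add]; ring_nf
  have h6 : pw t (-2) = (pw t 2)⁻¹ := pw_neg t 2
  have h7 : 0 < pw t 2 := pw_pos _ _
  rw [h5]
  rw [h6] at h4
  have h8 : (S.card : ℝ) = (S.card : ℝ) * ((pw t 2)⁻¹ / 2) * (2 * pw t 2) := by
    field_simp
  rw [h8]
  calc (S.card : ℝ) * ((pw t 2)⁻¹ / 2) * (2 * pw t 2) ≤ pw t (-δ) * (2 * pw t 2) :=
        mul_le_mul_of_nonneg_right h4 (by positivity)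
    _ = _ := by ring

end Pool.Agent.JS
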