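import Pool.Agent.Lib_MP_b52a92_nt.Defs

set_option autoImplicit false

/-! Basic lemmas for MP_b52a92_nt. -/

namespace Pool.Agent.JS

open Polynomial MeasureTheory Set

theorem pw_pos (t : ℕ) (x : ℝ) : 0 < pw t x := Real.rpow_pos_of_pos (by norm_num) _

theorem pw_add (t : ℕ) (x y : ℝ) : pw t (x + y) = pw t x * pw t y := by
  unfold pw
  rw [mul_add, Real.rpow_add (by norm_num)]

theorem pw_neg (t : ℕ) (x : ℝ) : pw t (-x) = (pw t x)⁻¹ := by
  unfold pw
  rw [mul_neg, Real.rpow_neg (by norm_num)]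

theorem pw_zero (t : ℕ) : pw t 0 = 1 := by
  unfold pw
  rw [mul_zero, Real.rpow_zero]

theorem pw_one (t : ℕ) : pw t 1 = 2 ^ t := by
  unfold pw
  rw [mul_one, Real.rpow_natCast]

theorem pw_mono (t : ℕ) {x y : ℝ} (h : x ≤ y) : pw t x ≤ pw t y := by
  unfold pw
  exact Real.rpow_le_rpow_of_exponent_le (by norm_num) (mul_le_mul_of_nonneg_left h (by positivity))

theorem pw_rpow (t : ℕ) (x y : ℝ) : (pw t x) ^ y = pw t (x * y) := by
  unfold pw
  rw [← Real.rpow_mul (by norm_num)]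
  ring_nf

theorem pw_nat (t n : ℕ) : pw t n = (2 ^ t) ^ n := by
  have : pw t n = (pw t 1) ^ (n : ℝ) := by rw [pw_rpow, one_mul]
  rw [this, pw_one, Real.rpow_natCast]

theorem pw_ge_one (t : ℕ) {x : ℝ} (hx : 0 ≤ x) : 1 ≤ pw t x := by
  rw [← pw_zero t]; exact pw_mono t hx

/-- large powers eventually beat constants -/
theorem pw_large (c K : ℝ) (hc : 0 < c) : ∃ t0 : ℕ, ∀ t : ℕ, t0 ≤ t → K ≤ pw t c := by
  have h1 : Filter.Tendsto (fun t : ℕ => pw t c) Filter.atTop Filter.atTop := by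
    have h2 : Filter.Tendsto (fun t : ℕ => (t : ℝ) * c) Filter.atTop Filter.atTop :=
      tendsto_natCast_atTop_atTop.atTop_mul_const hc
    exact (tendsto_rpow_atTop_of_base_gt_one 2 (by norm_num)).comp h2
  exact Filter.eventually_atTop.1 (h1.eventually_ge_atTop K)

/-- negative powers are eventually small -/
theorem pw_small (c κ : ℝ) (hc : 0 < c) (hκ : 0 < κ) :
    ∃ t0 : ℕ, ∀ t : ℕ, t0 ≤ t → pw t (-c) ≤ κ := by
  obtain ⟨t0, h⟩ := pw_large c κ⁻¹ hc
  refine ⟨t0, fun t ht => ?_⟩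
  rw [pw_neg]
  exact inv_le_of_inv_le₀ hκ (h t ht)

theorem natAbs_le_H {d : ℕ} (g : Fin (d + 1) → ℤ) (i : Fin (d + 1)) : (g i).natAbs ≤ H g :=
  Finset.le_sup (f := fun i => (g i).natAbs) (Finset.mem_univ i)

theorem abs_le_H {d : ℕ} (g : Fin (d + 1) → ℤ) (i : Fin (d + 1)) : |(g i : ℝ)| ≤ H g := by
  have h := natAbs_le_H g i
  have h2 : |(g i : ℝ)| = ((g i).natAbs : ℝ) := by
    rw [Nat.cast_natAbs, Int.cast_abs]
  rw [h2]
  exact_mod_cast h

theorem H_pos {d : ℕ} (g : Fin (d + 1) → ℤ) (hg : g ≠ 0) : 1 ≤ H g := by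
  obtain ⟨i, hi⟩ : ∃ i, g i ≠ 0 := by
    by_contra h
    push Not at h
    exact hg (funext h)
  have := natAbs_le_H g i
  have h2 : 1 ≤ (g i).natAbs := Int.natAbs_pos.2 hi
  omega

theorem H_le_iff {d : ℕ} (g : Fin (d + 1) → ℤ) (n : ℕ) : H g ≤ n ↔ ∀ i, (g i).natAbs ≤ n := by
  unfold H
  simp [Finset.sup_le_iff]

theorem H_le_real_iff {d : ℕ} (g : Fin (d + 1) → ℤ) (h : ℝ) :
    (H g : ℝ) ≤ h ↔ 0 ≤ h ∧ ∀ i, |(g i : ℝ)| ≤ h := by
  constructor
  · intro hh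
    exact ⟨le_trans (by positivity) hh, fun i => (abs_le_H g i).trans hh⟩
  · rintro ⟨h0, hh⟩
    have : H g ≤ ⌊h⌋₊ := by
      rw [H_le_iff]
      intro i
      apply Nat.le_floor
      have h2 : |(g i : ℝ)| = ((g i).natAbs : ℝ) := by
        rw [Nat.cast_natAbs, Int.cast_abs]
      rw [← h2]
      exact hh i
    exact (Nat.cast_le.2 this).trans (Nat.floor_le h0)

/-- real polynomial with given coefficients -/
noncomputable def polR {d : ℕ} (c : Fin (d + 1) → ℝ) : ℝ[X] := ∑ l, C (c l) * X ^ (l : ℕ)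

theorem polR_natDegree {d : ℕ} (c : Fin (d + 1) → ℝ) : (polR c).natDegree ≤ d := by
  unfold polR
  refine natDegree_sum_le_of_forall_le _ _ fun l _ => ?_
  exact (natDegree_C_mul_X_pow_le _ _).trans (by omega)

theorem polR_coeff {d : ℕ} (c : Fin (d + 1) → ℝ) (l : Fin (d + 1)) : (polR c).coeff l = c l := by
  unfold polR
  rw [finsetSum_coeff, Finset.sum_eq_single l]
  · simp
  · intro b _ hb
    rw [coeff_C_mul, coeff_X_pow, if_neg, mul_zero]
    exact fun h => hb (Fin.ext h.symm)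
  · intro h; exact absurd (Finset.mem_univ _) h

theorem ev_eq {d : ℕ} (x : ℝ) (g : Fin (d + 1) → ℤ) : ev x g = (polR (rvr g)).eval x := by
  unfold ev polR rvr
  rw [eval_finset_sum]
  simp

theorem tc_eq {d : ℕ} (i : ℕ) (κ : ℝ) (g : Fin (d + 1) → ℤ) :
    tc i κ g = (taylor κ (polR (rvr g))).coeff i := by
  rw [taylor_coeff]
  unfold polR tc rvr
  rw [map_sum, eval_finset_sum]
  refine Finset.sum_congr rfl fun l _ => ?_
  rw [C_mul_X_pow_eq_monomial, hasseDeriv_monomial, eval_monomial]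
  ring

/-- expansion of the value in Taylor coefficients -/
theorem ev_eq_tc {d : ℕ} (x κ : ℝ) (g : Fin (d + 1) → ℤ) :
    ev x g = ∑ i ∈ Finset.range (d + 1), tc i κ g * (x - κ) ^ i := by
  have h1 : ev x g = (taylor κ (polR (rvr g))).eval (x - κ) := by
    rw [taylor_eval, ev_eq]
    ring_nf
  rw [h1, eval_eq_sum_range' (n := d + 1)]
  · refine Finset.sum_congr rfl fun i _ => ?_
    rw [tc_eq]
  · rw [natDegree_taylor]
    exact Nat.lt_succ_of_le (polR_natDegree _)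

/-- change of the base point -/
theorem tc_shift {d : ℕ} (i : ℕ) (κ κ' : ℝ) (g : Fin (d + 1) → ℤ) :
    tc i κ' g = ∑ j ∈ Finset.range (d + 1), tc j κ g * ((j.choose i : ℕ) : ℝ) *
      (κ' - κ) ^ (j - i) := by
  have h1 : taylor κ' (polR (rvr g)) = taylor (κ' - κ) (taylor κ (polR (rvr g))) := by
    rw [taylor_taylor]
    ring_nf
  rw [tc_eq, h1, taylor_coeff]
  set q := taylor κ (polR (rvr g)) with hq
  have hdeg : q.natDegree < d + 1 := by
    rw [hq, natDegree_taylor]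
    exact Nat.lt_succ_of_le (polR_natDegree _)
  have hs : q = ∑ j ∈ Finset.range (d + 1), monomial j (q.coeff j) :=
    q.as_sum_range' (d + 1) hdeg
  conv_lhs => rw [hs]
  rw [map_sum, eval_finset_sum]
  refine Finset.sum_congr rfl fun j _ => ?_
  rw [hasseDeriv_monomial, eval_monomial, tc_eq]
  ring

/-- vector of coefficients of an integer polynomial -/
def vec (d : ℕ) (P : ℤ[X]) : Fin (d + 1) → ℤ := fun l => P.coeff l

theorem vec_ev {d : ℕ} (P : ℤ[X]) (hP : P.natDegree ≤ d) (x : ℝ) :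
    ev x (vec d P) = aeval x P := by
  unfold ev vec
  rw [aeval_eq_sum_range' (Nat.lt_succ_of_le hP), Finset.sum_range]
  refine Finset.sum_congr rfl fun l _ => ?_
  simp

theorem vec_H {d : ℕ} (P : ℤ[X]) (hP : P.natDegree ≤ d) : H (vec d P) = ht P := by
  apply le_antisymm
  · rw [H_le_iff]
    intro i
    by_cases h : P.coeff i = 0
    · simp [vec, h]
    · exact Finset.le_sup (f := fun i => (P.coeff i).natAbs) (mem_support_iff.2 h)
  · unfold ht
    refine Finset.sup_le fun i hi => ?_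
    have h1 : i ≤ d := (le_natDegree_of_mem_supp i hi).trans hP
    exact natAbs_le_H (vec d P) ⟨i, Nat.lt_succ_of_le h1⟩

theorem vec_ne_zero {d : ℕ} (P : ℤ[X]) (hP : P.natDegree ≤ d) (h0 : P ≠ 0) : vec d P ≠ 0 := by
  intro h
  apply h0
  ext i
  by_cases hi : i ≤ d
  · exact congrFun h ⟨i, Nat.lt_succ_of_le hi⟩
  · rw [coeff_eq_zero_of_natDegree_lt (by omega)]
    simp

theorem polR_ne_zero {d : ℕ} (g : Fin (d + 1) → ℤ) (hg : g ≠ 0) : polR (rvr g) ≠ 0 := by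
  intro h
  apply hg
  funext l
  have := polR_coeff (rvr g) l
  rw [h] at this
  simp only [coeff_zero, rvr] at this
  exact_mod_cast this.symm

/-- the real roots of a non zero integer vector form a finite set with at most `d` elements -/
theorem roots_finite {d : ℕ} (g : Fin (d + 1) → ℤ) (hg : g ≠ 0) :
    ∃ R : Finset ℝ, R.card ≤ d ∧ ∀ γ, ev γ g = 0 ↔ γ ∈ R := by
  classical
  refine ⟨(polR (rvr g)).roots.toFinset, ?_, fun γ => ?_⟩
  · exact (Multiset.toFinset_card_le _).trans ((card_roots' _).trans (polR_natDegree _))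
  · rw [Multiset.mem_toFinset, mem_roots (polR_ne_zero g hg), IsRoot.def, ev_eq]

theorem H_finite (d : ℕ) (h : ℝ) : {g : Fin (d + 1) → ℤ | (H g : ℝ) ≤ h}.Finite := by
  refine Set.Finite.subset (Set.Finite.pi' (t := fun _ : Fin (d + 1) => Set.Icc (-⌊h⌋) ⌊h⌋)
    fun _ => Set.finite_Icc _ _) ?_
  intro g hg i
  have h1 : |(g i : ℝ)| ≤ h := (abs_le_H g i).trans hg
  rw [abs_le] at h1
  constructor
  · have : (-(g i) : ℤ) ≤ ⌊h⌋ := by
      rw [Int.le_floor]; push_cast; linarith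
    omega
  · rw [Int.le_floor]; exact h1.2

/-- number of vectors of bounded height -/
theorem H_card (d : ℕ) (h : ℝ) (hh : 1 ≤ h) (S : Finset (Fin (d + 1) → ℤ))
    (hS : ∀ g ∈ S, (H g : ℝ) ≤ h) : (S.card : ℝ) ≤ (3 * h) ^ (d + 1) := by
  classical
  have hsub : S ⊆ Fintype.piFinset fun _ : Fin (d + 1) => Finset.Icc (-⌊h⌋) ⌊h⌋ := by
    intro g hg
    rw [Fintype.mem_piFinset]
    intro i
    have h1 : |(g i : ℝ)| ≤ h := (abs_le_H g i).trans (hS g hg)
    rw [abs_le] at h1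
    rw [Finset.mem_Icc]
    constructor
    · have : (-(g i) : ℤ) ≤ ⌊h⌋ := by
        rw [Int.le_floor]; push_cast; linarith
      omega
    · rw [Int.le_floor]; exact h1.2
  have hc := Finset.card_le_card hsub
  rw [Fintype.card_piFinset, Finset.prod_const, Finset.card_univ, Fintype.card_fin,
    Int.card_Icc] at hc
  have hfl : 0 ≤ ⌊h⌋ := Int.floor_nonneg.2 (by linarith)
  have h2 : (((⌊h⌋ + 1 - -⌊h⌋).toNat : ℕ) : ℝ) ≤ 3 * h := by
    have h3 : (((⌊h⌋ + 1 - -⌊h⌋).toNat : ℤ)) = 2 * ⌊h⌋ + 1 := by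
      rw [Int.toNat_of_nonneg (by omega)]; ring
    have h4 : (((⌊h⌋ + 1 - -⌊h⌋).toNat : ℕ) : ℝ) = 2 * (⌊h⌋ : ℝ) + 1 := by
      exact_mod_cast congrArg (fun z : ℤ => (z : ℝ)) h3
    rw [h4]
    have := Int.floor_le h
    linarith
  calc (S.card : ℝ) ≤ (((⌊h⌋ + 1 - -⌊h⌋).toNat ^ (d + 1) : ℕ) : ℝ) := by exact_mod_cast hc
    _ = (((⌊h⌋ + 1 - -⌊h⌋).toNat : ℕ) : ℝ) ^ (d + 1) := by push_cast; rfl
    _ ≤ (3 * h) ^ (d + 1) := pow_le_pow_left₀ (by positivity) h2 _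

/-- Lipschitz bound -/
theorem ev_sub_le (d : ℕ) : ∃ C : ℝ, 1 ≤ C ∧ ∀ x y : ℝ, |x| ≤ 2 → |y| ≤ 2 →
    ∀ g : Fin (d + 1) → ℤ, |ev x g - ev y g| ≤ C * H g * |x - y| := by
  have hpow : ∀ l : ℕ, ∀ x y : ℝ, |x| ≤ 2 → |y| ≤ 2 → |x ^ l - y ^ l| ≤ l * 2 ^ l * |x - y| := by
    intro l x y hx hy
    induction l with
    | zero => simp
    | succ l ih =>
      have h1 : x ^ (l + 1) - y ^ (l + 1) = x * (x ^ l - y ^ l) + y ^ l * (x - y) := by ring
      rw [h1]
      refine (abs_add_le _ _).trans ?_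
      rw [abs_mul, abs_mul, abs_pow]
      have h2 : |y| ^ l ≤ 2 ^ l := pow_le_pow_left₀ (abs_nonneg _) hy _
      have h3 : |x| * |x ^ l - y ^ l| ≤ 2 * (l * 2 ^ l * |x - y|) :=
        mul_le_mul hx ih (abs_nonneg _) (by norm_num)
      have h4 : |y| ^ l * |x - y| ≤ 2 ^ l * |x - y| :=
        mul_le_mul_of_nonneg_right h2 (abs_nonneg _)
      have h5 : (0 : ℝ) ≤ 2 ^ l * |x - y| := by positivity
      push_cast
      rw [pow_succ]
      nlinarith
  refine ⟨1 + ∑ l : Fin (d + 1), ((l : ℕ) : ℝ) * 2 ^ (l : ℕ), ?_, ?_⟩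
  · have : (0 : ℝ) ≤ ∑ l : Fin (d + 1), ((l : ℕ) : ℝ) * 2 ^ (l : ℕ) :=
      Finset.sum_nonneg fun _ _ => by positivity
    linarith
  · intro x y hx hy g
    unfold ev
    rw [← Finset.sum_sub_distrib]
    refine (Finset.abs_sum_le_sum_abs _ _).trans ?_
    have h1 : ∀ l ∈ (Finset.univ : Finset (Fin (d + 1))),
        |(g l : ℝ) * x ^ (l : ℕ) - (g l : ℝ) * y ^ (l : ℕ)| ≤
          ((l : ℕ) : ℝ) * 2 ^ (l : ℕ) * (H g * |x - y|) := by
      intro l _
      rw [← mul_sub, abs_mul]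
      calc |(g l : ℝ)| * |x ^ (l : ℕ) - y ^ (l : ℕ)|
          ≤ H g * (((l : ℕ) : ℝ) * 2 ^ (l : ℕ) * |x - y|) :=
            mul_le_mul (abs_le_H g l) (hpow _ _ _ hx hy) (abs_nonneg _) (by positivity)
        _ = _ := by ring
    refine (Finset.sum_le_sum h1).trans ?_
    rw [← Finset.sum_mul]
    have : (0 : ℝ) ≤ H g * |x - y| := by positivity
    nlinarith

end Pool.Agent.JS
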