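import Pool.Agent.Lib_MP_b52a92_nt.Basic

set_option autoImplicit false

/-! Pigeonhole count of integer polynomials with small value. -/

namespace Pool.Agent.JS

open Finset

theorem ev_sub' {d : ℕ} (x : ℝ) (g g' : Fin (d + 1) → ℤ) :
    ev x (g - g') = ev x g - ev x g' := by
  unfold ev
  rw [← Finset.sum_sub_distrib]
  apply Finset.sum_congr rfl
  intro l _
  rw [Pi.sub_apply]
  push_cast
  ring

theorem H_le_of {d : ℕ} (g : Fin (d + 1) → ℤ) {x : ℝ} (h : ∀ i, |(g i : ℝ)| ≤ x) :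
    (H g : ℝ) ≤ x := by
  obtain ⟨i, -, hi⟩ := Finset.exists_mem_eq_sup (Finset.univ : Finset (Fin (d + 1)))
    ⟨0, Finset.mem_univ _⟩ (fun i => (g i).natAbs)
  have h1 : H g = (g i).natAbs := hi
  rw [h1, Nat.cast_natAbs, Int.cast_abs]
  exact h i

theorem floor_eq_sub {a b : ℝ} (h : ⌊a⌋ = ⌊b⌋) : |a - b| < 1 := Int.abs_sub_lt_one_of_floor_eq_floor h

theorem count_le (d : ℕ) (hd : 1 ≤ d) : ∃ C : ℝ, 1 ≤ C ∧ ∀ α h w L A : ℝ, |α| ≤ 1 → 0 < w →
    w ≤ h → 1 ≤ L → 1 ≤ A →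
    (∀ g : Fin (d + 1) → ℤ, g ≠ 0 → (H g : ℝ) ≤ h / L → w / L < |ev α g|) →
    ∀ S : Finset (Fin (d + 1) → ℤ), (∀ g ∈ S, (H g : ℝ) ≤ A * h ∧ |ev α g| ≤ A * w) →
    (S.card : ℝ) ≤ (C * A * L) ^ (d + 1) := by
  classical
  refine ⟨4 * (d + 1), by have : (0 : ℝ) ≤ d := Nat.cast_nonneg _; linarith, ?_⟩
  intro α h w L A hα hw hwh hL hA hgen S hS
  have hd0 : (0 : ℝ) < (d : ℝ) + 1 := by positivity
  have hd1 : (1 : ℝ) ≤ d := by exact_mod_cast hd
  have hh : 0 < h := lt_of_lt_of_le hw hwh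
  have hL0 : 0 < L := by linarith
  have hA0 : 0 < A := by linarith
  set B : ℝ := A * L * (d + 1) with hB
  have hAL : 1 ≤ A * L := by nlinarith
  have hB1 : 1 ≤ B := by nlinarith
  -- the scaled coordinates
  let φ : (Fin (d + 1) → ℤ) → Fin (d + 1) → ℝ := fun g i =>
    if i = 0 then ev α g * (L * (d + 1) / w) else (g i : ℝ) * (L * (d + 1) / h)
  let F : (Fin (d + 1) → ℤ) → Fin (d + 1) → ℤ := fun g i => ⌊φ g i⌋
  have hφ : ∀ g ∈ S, ∀ i, |φ g i| ≤ B := by
    intro g hg i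
    obtain ⟨h1, h2⟩ := hS g hg
    simp only [φ]
    split_ifs with h0
    · rw [abs_mul, abs_of_pos (show 0 < L * (d + 1) / w by positivity)]
      calc |ev α g| * (L * (d + 1) / w) ≤ A * w * (L * (d + 1) / w) := by gcongr
        _ = B := by rw [hB]; field_simp
    · rw [abs_mul, abs_of_pos (show 0 < L * (d + 1) / h by positivity)]
      calc |(g i : ℝ)| * (L * (d + 1) / h) ≤ A * h * (L * (d + 1) / h) := by
            gcongr
            exact (abs_le_H g i).trans h1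
        _ = B := by rw [hB]; field_simp
  have hmaps : ∀ g ∈ S, F g ∈ Fintype.piFinset (fun _ : Fin (d + 1) => Finset.Icc ⌊-B⌋ ⌊B⌋) := by
    intro g hg
    rw [Fintype.mem_piFinset]
    intro i
    have h1 := abs_le.1 (hφ g hg i)
    rw [Finset.mem_Icc]
    exact ⟨Int.floor_le_floor h1.1, Int.floor_le_floor h1.2⟩
  have hinj : Set.InjOn F (S : Set (Fin (d + 1) → ℤ)) := by
    intro g _ g' _ hgg
    by_contra hne
    have hδ : g - g' ≠ 0 := sub_ne_zero.2 hne
    have hev : |ev α (g - g')| < w / (L * (d + 1)) := by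
      have h1 : ⌊φ g 0⌋ = ⌊φ g' 0⌋ := congrFun hgg 0
      have h2 := floor_eq_sub h1
      simp only [φ, if_true] at h2
      rw [← sub_mul, ← ev_sub', abs_mul, abs_of_pos (show 0 < L * (d + 1) / w by positivity)] at h2
      rw [lt_div_iff₀ (by positivity)]
      rw [← lt_div_iff₀ (by positivity)] at h2
      calc |ev α (g - g')| * (L * (d + 1)) < 1 / (L * (d + 1) / w) * (L * (d + 1)) := by gcongr
        _ = w := by field_simp
    have hco : ∀ i, i ≠ 0 → |((g - g') i : ℝ)| ≤ h / (L * (d + 1)) := by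
      intro i hi
      have h1 : ⌊φ g i⌋ = ⌊φ g' i⌋ := congrFun hgg i
      have h2 := floor_eq_sub h1
      simp only [φ, if_neg hi] at h2
      rw [← sub_mul, abs_mul, abs_of_pos (show 0 < L * (d + 1) / h by positivity)] at h2
      rw [← lt_div_iff₀ (by positivity)] at h2
      rw [Pi.sub_apply, Int.cast_sub]
      refine h2.le.trans (le_of_eq ?_)
      field_simp
    have hsum : ev α (g - g') = ((g - g') 0 : ℝ) +
        ∑ i : Fin d, ((g - g') i.succ : ℝ) * α ^ ((i.succ : Fin (d + 1)) : ℕ) := by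
      unfold ev
      rw [Fin.sum_univ_succ]
      simp
    have h0 : |((g - g') 0 : ℝ)| ≤ h / L := by
      have h1 : ((g - g') 0 : ℝ) = ev α (g - g') -
          ∑ i : Fin d, ((g - g') i.succ : ℝ) * α ^ ((i.succ : Fin (d + 1)) : ℕ) := by
        rw [hsum]; ring
      rw [h1]
      refine (abs_sub _ _).trans ?_
      have h2 : |∑ i : Fin d, ((g - g') i.succ : ℝ) * α ^ ((i.succ : Fin (d + 1)) : ℕ)| ≤
          d * (h / (L * (d + 1))) := by
        refine (Finset.abs_sum_le_sum_abs _ _).trans ?_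
        refine (Finset.sum_le_card_nsmul _ _ (h / (L * (d + 1))) (fun i _ => ?_)).trans ?_
        · rw [abs_mul, abs_pow]
          calc |((g - g') i.succ : ℝ)| * |α| ^ ((i.succ : Fin (d + 1)) : ℕ)
              ≤ |((g - g') i.succ : ℝ)| * 1 := by
                gcongr
                exact pow_le_one₀ (abs_nonneg _) hα
            _ ≤ h / (L * (d + 1)) := by
                rw [mul_one]
                exact hco _ (Fin.succ_ne_zero i)
        · rw [Finset.card_univ, Fintype.card_fin, nsmul_eq_mul]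
      have h3 : w / (L * (d + 1)) ≤ h / (L * (d + 1)) := by gcongr
      calc |ev α (g - g')| + |∑ i : Fin d, ((g - g') i.succ : ℝ) *
            α ^ ((i.succ : Fin (d + 1)) : ℕ)| ≤ h / (L * (d + 1)) + d * (h / (L * (d + 1))) := by
            linarith
        _ = h / L := by field_simp; ring
    have hH : (H (g - g') : ℝ) ≤ h / L := by
      apply H_le_of
      intro i
      by_cases hi : i = 0
      · rw [hi]; exact h0
      · refine (hco i hi).trans ?_
        have : h / (L * (d + 1)) ≤ h / (L * 1) := by gcongr; linarith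
        rwa [mul_one] at this
    have h4 := hgen _ hδ hH
    have h5 : w / (L * (d + 1)) ≤ w / (L * 1) := by gcongr; linarith
    rw [mul_one] at h5
    linarith
  have hcard := Finset.card_le_card_of_injOn F hmaps hinj
  rw [Fintype.card_piFinset_const] at hcard
  have hIcc : ((Finset.Icc ⌊-B⌋ ⌊B⌋).card : ℝ) ≤ 4 * B := by
    rw [Int.card_Icc]
    have h1 : (0 : ℤ) ≤ ⌊B⌋ + 1 - ⌊-B⌋ := by
      have : ⌊-B⌋ ≤ ⌊B⌋ := Int.floor_le_floor (by linarith)
      omega
    have h2 : (((⌊B⌋ + 1 - ⌊-B⌋).toNat : ℤ) : ℝ) = ((⌊B⌋ + 1 - ⌊-B⌋ : ℤ) : ℝ) := by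
      rw [Int.toNat_of_nonneg h1]
    rw [Int.cast_natCast] at h2
    rw [h2]
    push_cast
    have h3 := Int.floor_le B
    have h4 := Int.sub_one_lt_floor (-B)
    linarith
  calc (S.card : ℝ) ≤ (((Finset.Icc ⌊-B⌋ ⌊B⌋).card ^ (d + 1) : ℕ) : ℝ) := by exact_mod_cast hcard
    _ = ((Finset.Icc ⌊-B⌋ ⌊B⌋).card : ℝ) ^ (d + 1) := by push_cast; rfl
    _ ≤ (4 * B) ^ (d + 1) := by gcongr
    _ = (4 * (d + 1) * A * L) ^ (d + 1) := by rw [hB]; ring

end Pool.Agent.JS
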