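import Pool.Agent.Lib_MP_b52a92_nt.Defs

set_option autoImplicit false

/-! Covering by closed intervals with multiplicity at most two. -/

namespace Pool.Agent.JS

open Polynomial MeasureTheory Set

theorem exists_subcover {ι : Type*} (s : Finset ι) (a b : ι → ℝ) (u v : ℝ) (huv : u ≤ v)
    (h : ∀ i ∈ s, u ≤ a i ∧ a i ≤ b i ∧ b i ≤ v) :
    ∃ s' ⊆ s, (∀ i ∈ s, ∀ x ∈ Icc (a i) (b i), ∃ j ∈ s', x ∈ Icc (a j) (b j)) ∧
      ∑ i ∈ s', (b i - a i) ≤ 2 * (v - u) := by
  classical
  -- a minimal subfamily with the same union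
  have hex : ∃ n : ℕ, ∃ s' ⊆ s, (∀ i ∈ s, ∀ x ∈ Icc (a i) (b i), ∃ j ∈ s', x ∈ Icc (a j) (b j)) ∧
      s'.card = n := ⟨s.card, s, Finset.Subset.refl s, fun i hi x hx => ⟨i, hi, hx⟩, rfl⟩
  obtain ⟨s', hs', hcov, hcard⟩ := Nat.find_spec hex
  have hmin : ∀ t ⊆ s, (∀ i ∈ s, ∀ x ∈ Icc (a i) (b i), ∃ j ∈ t, x ∈ Icc (a j) (b j)) →
      s'.card ≤ t.card := by
    intro t ht hc
    rw [hcard]
    exact Nat.find_min' hex ⟨t, ht, hc, rfl⟩
  -- no interval of the family is covered by two others
  have hred : ∀ i ∈ s', ∀ j ∈ s', ∀ k ∈ s', k ≠ i → k ≠ j →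
      (∀ x ∈ Icc (a k) (b k), x ∈ Icc (a i) (b i) ∨ x ∈ Icc (a j) (b j)) → False := by
    intro i hi j hj k hk hki hkj hx
    have h1 := hmin (s'.erase k) ((Finset.erase_subset _ _).trans hs') ?_
    · have h2 := Finset.card_erase_lt_of_mem hk
      omega
    · intro l hl x hxl
      obtain ⟨j', hj', hxj'⟩ := hcov l hl x hxl
      by_cases hjk : j' = k
      · subst hjk
        rcases hx x hxj' with h3 | h3
        · exact ⟨i, Finset.mem_erase.mpr ⟨hki.symm, hi⟩, h3⟩
        · exact ⟨j, Finset.mem_erase.mpr ⟨hkj.symm, hj⟩, h3⟩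
      · exact ⟨j', Finset.mem_erase.mpr ⟨hjk, hj'⟩, hxj'⟩
  -- three intervals with a common point: one lies in the union of the two others
  have hthree : ∀ i ∈ s', ∀ j ∈ s', ∀ k ∈ s', i ≠ j → i ≠ k → j ≠ k → ∀ x,
      x ∈ Icc (a i) (b i) → x ∈ Icc (a j) (b j) → x ∈ Icc (a k) (b k) → False := by
    have hcore : ∀ i ∈ s', ∀ j ∈ s', ∀ k ∈ s', k ≠ i → k ≠ j → ∀ x,
        x ∈ Icc (a i) (b i) → x ∈ Icc (a j) (b j) → a i ≤ a k → b k ≤ b j → False := by
      intro i hi j hj k hk hki hkj x hxi hxj h1 h2
      refine hred i hi j hj k hk hki hkj ?_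
      intro y hy
      rcases le_total y x with h3 | h3
      · exact Or.inl ⟨h1.trans hy.1, h3.trans hxi.2⟩
      · exact Or.inr ⟨hxj.1.trans h3, hy.2.trans h2⟩
    intro i hi j hj k hk hij hik hjk x hxi hxj hxk
    rcases le_total (a i) (a j) with h1 | h1 <;> rcases le_total (a i) (a k) with h2 | h2 <;>
      rcases le_total (a j) (a k) with h3 | h3 <;> rcases le_total (b i) (b j) with h4 | h4 <;>
      rcases le_total (b i) (b k) with h5 | h5 <;> rcases le_total (b j) (b k) with h6 | h6 <;>
      first
        | exact hcore i hi j hj k hk hik.symm hjk.symm x hxi hxj (by assumption) (by assumption)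
        | exact hcore j hj i hi k hk hjk.symm hik.symm x hxj hxi (by assumption) (by assumption)
        | exact hcore i hi k hk j hj hij.symm hjk x hxi hxk (by assumption) (by assumption)
        | exact hcore k hk i hi j hj hjk hij.symm x hxk hxi (by assumption) (by assumption)
        | exact hcore j hj k hk i hi hij hik x hxj hxk (by assumption) (by assumption)
        | exact hcore k hk j hj i hi hik hij x hxk hxj (by assumption) (by assumption)
        | exact hcore i hi i hi k hk hik.symm hik.symm x hxi hxi (by assumption) (by assumption)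
        | exact hcore i hi i hi j hj hij.symm hij.symm x hxi hxi (by assumption) (by assumption)
  refine ⟨s', hs', hcov, ?_⟩
  have key : ∑ i ∈ s', volume (Icc (a i) (b i)) ≤ 2 * volume (Icc u v) := by
    calc ∑ i ∈ s', volume (Icc (a i) (b i))
        = ∑ i ∈ s', ∫⁻ x, (Icc (a i) (b i)).indicator 1 x := by
          refine Finset.sum_congr rfl fun i _ => ?_
          rw [lintegral_indicator_one measurableSet_Icc]
      _ = ∫⁻ x, ∑ i ∈ s', (Icc (a i) (b i)).indicator 1 x :=
          (lintegral_finsetSum _ (fun i _ => measurable_one.indicator measurableSet_Icc)).symm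
      _ ≤ ∫⁻ x, (Icc u v).indicator (fun _ => 2) x := by
          refine lintegral_mono fun x => ?_
          by_cases hx : x ∈ Icc u v
          · rw [indicator_of_mem hx]
            have h1 : ∑ i ∈ s', (Icc (a i) (b i)).indicator (1 : ℝ → ENNReal) x
                = ((s'.filter (fun i => x ∈ Icc (a i) (b i))).card : ENNReal) := by
              rw [Finset.card_filter]
              push_cast
              refine Finset.sum_congr rfl fun i _ => ?_
              by_cases hxi : x ∈ Icc (a i) (b i)
              · rw [indicator_of_mem hxi, if_pos hxi]; rfl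
              · rw [indicator_of_notMem hxi, if_neg hxi]
            rw [h1]
            have h2 : (s'.filter (fun i => x ∈ Icc (a i) (b i))).card ≤ 2 := by
              by_contra hc
              rw [not_le] at hc
              obtain ⟨i, hi, j, hj, k, hk, hij, hik, hjk⟩ := Finset.two_lt_card.mp hc
              rw [Finset.mem_filter] at hi hj hk
              exact hthree i hi.1 j hj.1 k hk.1 hij hik hjk x hi.2 hj.2 hk.2
            have h4 : ((s'.filter (fun i => x ∈ Icc (a i) (b i))).card : ENNReal) ≤ ((2 : ℕ) : ENNReal) :=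
              Nat.cast_le.mpr h2
            simpa using h4
          · rw [indicator_of_notMem hx]
            refine le_of_eq (Finset.sum_eq_zero fun i hi => ?_)
            rw [indicator_of_notMem]
            intro hxi
            obtain ⟨g1, g2, g3⟩ := h i (hs' hi)
            exact hx ⟨g1.trans hxi.1, hxi.2.trans g3⟩
      _ = 2 * volume (Icc u v) := by
          rw [lintegral_indicator_const measurableSet_Icc]
  have h1 : ∑ i ∈ s', volume (Icc (a i) (b i)) = ENNReal.ofReal (∑ i ∈ s', (b i - a i)) := by
    rw [ENNReal.ofReal_sum_of_nonneg]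
    · refine Finset.sum_congr rfl fun i _ => ?_
      rw [Real.volume_Icc]
    · intro i hi
      have := (h i (hs' hi)).2.1
      linarith
  have h2 : 2 * volume (Icc u v) = ENNReal.ofReal (2 * (v - u)) := by
    rw [Real.volume_Icc, ENNReal.ofReal_mul (by norm_num)]
    simp
  rw [h1, h2] at key
  exact (ENNReal.ofReal_le_ofReal_iff (by linarith)).mp key

end Pool.Agent.JS
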