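import Mathlib

set_option autoImplicit false

/-! Shared definitions for MP_b52a92_nt (joint exact orders of approximation by algebraic numbers
of two different degrees). -/

namespace Pool.Agent.JS

open Polynomial MeasureTheory Set

/-- `pw t x = T ^ x` with `T = 2 ^ t` -/
noncomputable def pw (t : ℕ) (x : ℝ) : ℝ := (2 : ℝ) ^ ((t : ℝ) * x)

/-- value at `x` of the polynomial with coefficients `g` -/
noncomputable def ev {d : ℕ} (x : ℝ) (g : Fin (d + 1) → ℤ) : ℝ := ∑ l, (g l : ℝ) * x ^ (l : ℕ)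

/-- `i`-th Taylor coefficient at `κ` of the polynomial with coefficients `g` -/
noncomputable def tc {d : ℕ} (i : ℕ) (κ : ℝ) (g : Fin (d + 1) → ℤ) : ℝ :=
  ∑ l, (g l : ℝ) * (((l : ℕ).choose i : ℕ) : ℝ) * κ ^ ((l : ℕ) - i)

/-- naive height of an integer vector -/
def H {d : ℕ} (g : Fin (d + 1) → ℤ) : ℕ := Finset.univ.sup fun i => (g i).natAbs

/-- naive height of an integer polynomial -/
def ht (P : ℤ[X]) : ℕ := P.support.sup fun i => (P.coeff i).natAbs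

/-- the real `m`-th root of two -/
noncomputable def β (m : ℕ) : ℝ := (2 : ℝ) ^ ((1 : ℝ) / m)

/-- the exponent `P` of the special point -/
def PP (m d : ℕ) : ℕ := m * (d + 1) ^ 2 + 1

/-- the special point, an element of `(3, 4)` -/
noncomputable def kap (m d : ℕ) : ℝ := 2 + (2 : ℝ) ^ ((1 : ℝ) / (PP m d))

/-- the system of inequalities in the substituted polynomial -/
def Small (m : ℕ) {d : ℕ} (ε x η : ℝ) (t : ℕ) (κ : ℝ) (g : Fin (d + 1) → ℤ) : Prop :=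
  |ev (β m) g| ≤ pw t (d - (d + ε) * x + η) ∧
    ∀ i < d, |tc i κ g| ≤ pw t (x + 2 * i - d + η)

/-- genericity of `α` at level `t` with respect to integer polynomials of degree at most `d` -/
def Gen (d : ℕ) (ε x₀ X : ℝ) (t : ℕ) (α : ℝ) : Prop :=
  ∀ x ∈ Icc x₀ X, ∀ Q : Fin (d + 1) → ℤ, Q ≠ 0 → (H Q : ℝ) ≤ pw t x →
    pw t (-((d + ε) * x)) < |ev α Q|

/-- the union of the forbidden balls of degree `d` and heights above `Y` -/
def Zd (d : ℕ) (E : ℝ) (e : ℕ → ℝ) (Y : ℕ) : Set ℝ :=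
  {ξ | ∃ g : Fin (d + 1) → ℤ, g ≠ 0 ∧ Y < H g ∧ ∃ γ : ℝ, ev γ g = 0 ∧
    |ξ - γ| ≤ (H g : ℝ) ^ (-(E + e (H g)))}

/-- the sup norm of the vector of all `j × j` minors of `A` (all columns, arbitrary rows) -/
noncomputable def mm {k j : ℕ} (A : Matrix (Fin k) (Fin j) ℝ) : ℝ :=
  ‖fun f : Fin j → Fin k => (A.submatrix f id).det‖

/-- integer vector as a rational vector -/
def cvq {k : ℕ} (y : Fin k → ℤ) : Fin k → ℚ := fun j => (y j : ℚ)

/-- integer vector as a real vector -/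
def rvr {k : ℕ} (y : Fin k → ℤ) : Fin k → ℝ := fun j => (y j : ℝ)

/-- the point `x` is marked: there is a chain `F` of elements of `P` with `ε ≤ ψ ≤ ρ` on `F`, and
`ρ ≤ ψ` for all other elements of `P` comparable with all elements of `F` -/
def Marked {σ : Type*} [PartialOrder σ] (ψ : σ → ℝ → ℝ) (ε ρ : ℝ) (P : Finset σ) (x : ℝ) : Prop :=
  ∃ F : Finset σ, F ⊆ P ∧ (∀ s ∈ F, ∀ s' ∈ F, s ≤ s' ∨ s' ≤ s) ∧
    (∀ s ∈ F, ε ≤ ψ s x ∧ ψ s x ≤ ρ) ∧
    ∀ s ∈ P, s ∉ F → (∀ f ∈ F, s ≤ f ∨ f ≤ s) → ρ ≤ ψ s x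

/-- admissible data `(p, q, k, p')` at level `t`; the matrix is `(p, p'; q, -k)`, determinant `1` -/
def Adm (t : ℕ) (p q k p' : ℤ) : Prop :=
  0 ≤ p ∧ p < q ∧ q ≤ 2 ^ t ∧ 2 ^ t ≤ 16 * q ∧ 3 * q ≤ k ∧ k < 4 * q ∧ p * k + p' * q = -1

/-- the algebraic number attached to admissible data: `(p β + p') / (q β - k)` -/
noncomputable def al (m : ℕ) (p q k p' : ℤ) : ℝ :=
  ((p : ℝ) * β m + p') / ((q : ℝ) * β m - k)

/-- the real numbers `α` of degree at most `d`, with `|ξ - α| < H(α)^(-E)` -/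
def Near (d : ℕ) (ξ E : ℝ) : Set ℝ :=
  {α : ℝ | ∃ P : ℤ[X], Irreducible P ∧ P.natDegree ≤ d ∧ aeval α P = 0 ∧
    |ξ - α| < (ht P : ℝ) ^ (-E)}

end Pool.Agent.JS
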