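import Pool.Agent.Lib_MP_b52a92_nt.Defs

set_option autoImplicit false

/-! Sublevel sets of real polynomials. -/

namespace Pool.Agent.JS

open Polynomial MeasureTheory Set

/-- greedy choice of separated points in a set of positive measure -/
theorem exists_sep {A : Set ℝ} {N : ℕ} (hN : 1 ≤ N) {μ : ℝ} (hμ : 0 < μ)
    (hA : ENNReal.ofReal μ ≤ volume A) : ∀ j : ℕ, j ≤ N + 1 → ∃ x : Fin j → ℝ,
      (∀ i, x i ∈ A) ∧ ∀ i i', i ≠ i' → μ / (4 * N) ≤ |x i - x i'| := by
  have hN0 : (0 : ℝ) < N := by exact_mod_cast hN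
  intro j
  induction j with
  | zero => exact fun _ => ⟨fun i => i.elim0, fun i => i.elim0, fun i => i.elim0⟩
  | succ j ih =>
    intro hj
    obtain ⟨x, hxA, hxs⟩ := ih (by omega)
    obtain ⟨y, hyA, hy⟩ : ∃ y ∈ A, ∀ i, μ / (4 * N) ≤ |y - x i| := by
      by_contra hcon
      push Not at hcon
      have hsub : A ⊆ ⋃ i : Fin j, Ioo (x i - μ / (4 * N)) (x i + μ / (4 * N)) := by
        intro y hy
        obtain ⟨i, hi⟩ := hcon y hy
        rw [abs_lt] at hi
        exact mem_iUnion.2 ⟨i, ⟨by linarith, by linarith⟩⟩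
      have h1 : volume A ≤ ENNReal.ofReal (μ / 2) := by
        refine (measure_mono hsub).trans ((measure_iUnion_fintype_le _ _).trans ?_)
        simp only [Real.volume_Ioo]
        rw [← ENNReal.ofReal_sum_of_nonneg]
        · apply ENNReal.ofReal_le_ofReal
          have h2 : ∀ i : Fin j, x i + μ / (4 * N) - (x i - μ / (4 * N)) = μ / (2 * N) := by
            intro i; field_simp; ring
          simp only [h2, Finset.sum_const, Finset.card_univ, Fintype.card_fin, nsmul_eq_mul]
          have h3 : (j : ℝ) ≤ N := by exact_mod_cast (by omega : j ≤ N)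
          calc (j : ℝ) * (μ / (2 * N)) ≤ N * (μ / (2 * N)) :=
                mul_le_mul_of_nonneg_right h3 (by positivity)
            _ = μ / 2 := by field_simp
        · intro i _
          have : 0 < μ / (4 * N) := by positivity
          linarith
      have h4 := hA.trans h1
      rw [ENNReal.ofReal_le_ofReal_iff (by positivity)] at h4
      linarith
    refine ⟨Fin.cons y x, ?_, ?_⟩
    · intro i
      rcases Fin.eq_zero_or_eq_succ i with rfl | ⟨i, rfl⟩
      · simpa using hyA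
      · simpa using hxA i
    · intro i i' hii
      rcases Fin.eq_zero_or_eq_succ i with rfl | ⟨i, rfl⟩ <;>
        rcases Fin.eq_zero_or_eq_succ i' with rfl | ⟨i', rfl⟩
      · exact absurd rfl hii
      · simpa using hy i'
      · simp only [Fin.cons_succ, Fin.cons_zero]
        rw [abs_sub_comm]
        exact hy i
      · simp only [Fin.cons_succ]
        exact hxs i i' fun h => hii (by rw [h])

/-- Lagrange interpolation bound -/
theorem lagrange_bound {N : ℕ} {p : ℝ[X]} (hp : p.natDegree ≤ N) {u v r ε : ℝ} (hr : 0 < r)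
    (x : Fin (N + 1) → ℝ) (hxuv : ∀ i, x i ∈ Icc u v) (hsep : ∀ i i', i ≠ i' → r ≤ |x i - x i'|)
    (hε : ∀ i, |p.eval (x i)| ≤ ε) {y : ℝ} (hy : y ∈ Icc u v) :
    |p.eval y| ≤ (N + 1) * (ε * ((v - u) / r) ^ N) := by
  have hinj : Set.InjOn x (Finset.univ : Finset (Fin (N + 1))) := by
    intro i _ i' _ h
    by_contra hne
    have := hsep i i' hne
    rw [h, sub_self, abs_zero] at this
    linarith
  have huv : u ≤ v := (hy.1).trans hy.2
  have hε0 : 0 ≤ ε := (abs_nonneg _).trans (hε 0)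
  have hdeg : p.degree < (Finset.univ : Finset (Fin (N + 1))).card := by
    rw [Finset.card_univ, Fintype.card_fin]
    exact lt_of_le_of_lt degree_le_natDegree (by exact_mod_cast Nat.lt_succ_of_le hp)
  have h1 := Lagrange.eq_interpolate hinj hdeg
  have h2 : p.eval y = ∑ i, p.eval (x i) * (Lagrange.basis Finset.univ x i).eval y := by
    conv_lhs => rw [h1]
    rw [Lagrange.interpolate_apply, eval_finsetSum]
    simp
  rw [h2]
  refine (Finset.abs_sum_le_sum_abs _ _).trans ?_
  have h3 : ∀ i ∈ (Finset.univ : Finset (Fin (N + 1))),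
      |p.eval (x i) * (Lagrange.basis Finset.univ x i).eval y| ≤ ε * ((v - u) / r) ^ N := by
    intro i _
    rw [abs_mul]
    refine mul_le_mul (hε i) ?_ (abs_nonneg _) hε0
    rw [Lagrange.basis, eval_prod, Finset.abs_prod]
    have h4 : ∀ j ∈ Finset.univ.erase i,
        |(Lagrange.basisDivisor (x i) (x j)).eval y| ≤ (v - u) / r := by
      intro j hj
      have hji : j ≠ i := Finset.ne_of_mem_erase hj
      rw [Lagrange.basisDivisor, eval_mul, eval_C, eval_sub, eval_X, eval_C, abs_mul, abs_inv]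
      rw [inv_mul_eq_div]
      have h5 : |y - x j| ≤ v - u := by
        rw [abs_le]
        have := hxuv j
        constructor <;> linarith [this.1, this.2, hy.1, hy.2]
      exact div_le_div₀ (by linarith) h5 hr (hsep i j hji.symm)
    refine (Finset.prod_le_prod (fun _ _ => abs_nonneg _) h4).trans ?_
    rw [Finset.prod_const, Finset.card_erase_of_mem (Finset.mem_univ _), Finset.card_univ,
      Fintype.card_fin, Nat.add_sub_cancel]
  refine (Finset.sum_le_sum h3).trans ?_
  rw [Finset.sum_const, Finset.card_univ, Fintype.card_fin, nsmul_eq_mul]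
  push_cast
  rfl

theorem poly_sublevel (N : ℕ) (hN : 1 ≤ N) : ∃ C : ℝ, 0 < C ∧ ∀ p : ℝ[X], p.natDegree ≤ N →
    ∀ u v : ℝ, u ≤ v → ∀ ρ : ℝ, 0 < ρ → (∃ x ∈ Icc u v, ρ ≤ |p.eval x|) → ∀ ε : ℝ, 0 < ε →
    volume {x | x ∈ Icc u v ∧ |p.eval x| < ε} ≤
      ENNReal.ofReal (C * (ε / ρ) ^ ((1 : ℝ) / N) * (v - u)) := by
  have hN0 : (0 : ℝ) < N := by exact_mod_cast hN
  have hN1 : (N : ℕ) ≠ 0 := by omega
  refine ⟨(N + 1) * (4 * N), by positivity, ?_⟩
  intro p hp u v huv ρ hρ hx ε hε
  set A : Set ℝ := {x | x ∈ Icc u v ∧ |p.eval x| < ε} with hA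
  have hfin : volume A ≠ ⊤ := by
    refine ne_top_of_le_ne_top ?_ (measure_mono (fun x hx => hx.1 : A ⊆ Icc u v))
    simp
  set μ : ℝ := (volume A).toReal with hμdef
  have hvol : volume A = ENNReal.ofReal μ := (ENNReal.ofReal_toReal hfin).symm
  rw [hvol]
  apply ENNReal.ofReal_le_ofReal
  have hbase : 0 ≤ (N + 1) * (4 * N) * (ε / ρ) ^ ((1 : ℝ) / N) * (v - u) := by
    have : 0 ≤ v - u := by linarith
    positivity
  rcases le_or_gt μ 0 with hμ | hμ
  · exact hμ.trans hbase
  · obtain ⟨x, hxA, hxs⟩ := exists_sep hN hμ hvol.ge (N + 1) le_rfl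
    obtain ⟨y, hy, hρy⟩ := hx
    have hb := lagrange_bound hp (r := μ / (4 * N)) (ε := ε) (by positivity) x
      (fun i => (hxA i).1) hxs (fun i => (hxA i).2.le) hy
    have h1 : ρ ≤ (N + 1) * (ε * ((v - u) / (μ / (4 * N))) ^ N) := hρy.trans hb
    have h2 : (v - u) / (μ / (4 * N)) = (4 * N) * (v - u) / μ := by field_simp
    rw [h2, div_pow] at h1
    have h3 : μ ^ N * ρ ≤ (N + 1) * (ε * ((4 * N) * (v - u)) ^ N) := by
      have h4 : (N + 1) * (ε * (((4 * N) * (v - u)) ^ N / μ ^ N)) =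
          ((N + 1) * (ε * ((4 * N) * (v - u)) ^ N)) / μ ^ N := by ring
      rw [h4, le_div_iff₀ (by positivity)] at h1
      linarith
    have h5 : μ ^ N ≤ ((N + 1) * (4 * N) * (ε / ρ) ^ ((1 : ℝ) / N) * (v - u)) ^ N := by
      have h6 : ((N + 1) * (4 * N) * (ε / ρ) ^ ((1 : ℝ) / N) * (v - u)) ^ N =
          (N + 1) ^ N * (ε / ρ) * ((4 * N) * (v - u)) ^ N := by
        rw [mul_pow, mul_pow, mul_pow, ← Real.rpow_natCast ((ε / ρ) ^ ((1 : ℝ) / N)) N,
          ← Real.rpow_mul (by positivity), one_div, inv_mul_cancel₀ (by positivity),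
          Real.rpow_one, mul_pow, mul_pow (4 * (N : ℝ)) (v - u) N, mul_pow 4 (N : ℝ) N]
        ring
      rw [h6]
      have h7 : (N + 1 : ℝ) ≤ (N + 1 : ℝ) ^ N := by
        calc (N + 1 : ℝ) = (N + 1 : ℝ) ^ 1 := (pow_one _).symm
          _ ≤ (N + 1 : ℝ) ^ N := pow_le_pow_right₀ (by linarith) hN
      have h8 : 0 ≤ (ε / ρ) * ((4 * N) * (v - u)) ^ N := by
        have : 0 ≤ v - u := by linarith
        positivity
      have h9 : μ ^ N ≤ (N + 1) * ((ε / ρ) * ((4 * N) * (v - u)) ^ N) := by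
        rw [← mul_le_mul_iff_of_pos_right hρ]
        refine h3.trans (le_of_eq ?_)
        field_simp
      calc μ ^ N ≤ (N + 1) * ((ε / ρ) * ((4 * N) * (v - u)) ^ N) := h9
        _ ≤ (N + 1) ^ N * ((ε / ρ) * ((4 * N) * (v - u)) ^ N) :=
            mul_le_mul_of_nonneg_right h7 h8
        _ = _ := by ring
    exact le_of_pow_le_pow_left₀ hN1 hbase h5

end Pool.Agent.JS
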