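import Pool.Agent.Lib_MP_b52a92_nt.Count

set_option autoImplicit false

/-! Piece Harm: measure of the forbidden balls near a generic point. -/

namespace Pool.Agent.JS

open Polynomial MeasureTheory Set

namespace Harm

theorem vol_roots {d : ℕ} (g : Fin (d + 1) → ℤ) (hg : g ≠ 0) (w : ℝ) (hw : 0 ≤ w) :
    volume {ξ : ℝ | ∃ γ : ℝ, ev γ g = 0 ∧ |ξ - γ| ≤ w} ≤ ENNReal.ofReal (2 * d * w) := by
  obtain ⟨R, hR, hRe⟩ := roots_finite g hg
  have hsub : {ξ : ℝ | ∃ γ : ℝ, ev γ g = 0 ∧ |ξ - γ| ≤ w} ⊆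
      ⋃ γ ∈ R, Metric.closedBall γ w := by
    rintro ξ ⟨γ, h0, h1⟩
    simp only [mem_iUnion]
    exact ⟨γ, (hRe γ).mp h0, by rwa [Metric.mem_closedBall, Real.dist_eq]⟩
  calc volume _ ≤ volume (⋃ γ ∈ R, Metric.closedBall γ w) := measure_mono hsub
    _ ≤ ∑ γ ∈ R, volume (Metric.closedBall γ w) := measure_biUnion_finset_le _ _
    _ = (R.card : ENNReal) * ENNReal.ofReal (2 * w) := by simp [Real.volume_closedBall]
    _ ≤ ENNReal.ofReal (2 * d * w) := by
      rw [← ENNReal.ofReal_natCast, ← ENNReal.ofReal_mul (by positivity)]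
      apply ENNReal.ofReal_le_ofReal
      have : (R.card : ℝ) ≤ d := by exact_mod_cast hR
      nlinarith

theorem vol_finset {d : ℕ} (S : Finset (Fin (d + 1) → ℤ)) (h0 : ∀ g ∈ S, g ≠ 0)
    (w : (Fin (d + 1) → ℤ) → ℝ) (W : ℝ) (hw : ∀ g ∈ S, w g ≤ W) (hW : 0 ≤ W) :
    volume {ξ : ℝ | ∃ g ∈ S, ∃ γ : ℝ, ev γ g = 0 ∧ |ξ - γ| ≤ w g} ≤
      ENNReal.ofReal (S.card * (2 * d * W)) := by
  have hsub : {ξ : ℝ | ∃ g ∈ S, ∃ γ : ℝ, ev γ g = 0 ∧ |ξ - γ| ≤ w g} ⊆
      ⋃ g ∈ S, {ξ : ℝ | ∃ γ : ℝ, ev γ g = 0 ∧ |ξ - γ| ≤ W} := by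
    rintro ξ ⟨g, hg, γ, h1, h2⟩
    simp only [mem_iUnion]
    exact ⟨g, hg, γ, h1, h2.trans (hw g hg)⟩
  calc volume _ ≤ volume (⋃ g ∈ S, {ξ : ℝ | ∃ γ : ℝ, ev γ g = 0 ∧ |ξ - γ| ≤ W}) :=
        measure_mono hsub
    _ ≤ ∑ g ∈ S, volume {ξ : ℝ | ∃ γ : ℝ, ev γ g = 0 ∧ |ξ - γ| ≤ W} :=
        measure_biUnion_finset_le _ _
    _ ≤ ∑ g ∈ S, ENNReal.ofReal (2 * d * W) :=
        Finset.sum_le_sum fun g hg => vol_roots g (h0 g hg) W hW
    _ = (S.card : ENNReal) * ENNReal.ofReal (2 * d * W) := by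
      rw [Finset.sum_const, nsmul_eq_mul]
    _ = ENNReal.ofReal (S.card * (2 * d * W)) := by
      rw [← ENNReal.ofReal_natCast, ← ENNReal.ofReal_mul (by positivity)]

theorem rpow_anti {x y z : ℝ} (hy : 0 < y) (hxy : y ≤ x) (hz : z ≤ 0) : x ^ z ≤ y ^ z :=
  Real.antitoneOn_rpow_Ioi_of_exponent_nonpos hz (mem_Ioi.mpr hy)
    (mem_Ioi.mpr (lt_of_lt_of_le hy hxy)) hxy

/-- every number above `pw t x₀` is a value `pw t x` -/
theorem exists_pw {t : ℕ} (ht : 1 ≤ t) {x₀ xg h : ℝ} (h1 : pw t x₀ < h) (h2 : h ≤ pw t xg) :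
    ∃ x ∈ Icc x₀ xg, pw t x = h := by
  have htR : (0 : ℝ) < t := by exact_mod_cast ht
  have hh : 0 < h := lt_trans (pw_pos t x₀) h1
  have hpw : pw t (Real.logb 2 h / t) = h := by
    unfold pw
    rw [mul_div_cancel₀ _ htR.ne']
    exact Real.rpow_logb (by norm_num) (by norm_num) hh
  refine ⟨Real.logb 2 h / t, ⟨?_, ?_⟩, hpw⟩
  · by_contra hcon
    push Not at hcon
    have := pw_mono t hcon.le
    rw [hpw] at this
    linarith
  · rw [div_le_iff₀ htR]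
    rw [Real.logb_le_iff_le_rpow (by norm_num) hh]
    unfold pw at h2
    rwa [mul_comm] at h2

end Harm

open Harm in
theorem harm (d : ℕ) (hd : 1 ≤ d) (mE Ed ε εG x₀ xg c : ℝ) (hEd : d + 1 ≤ Ed) (hεG : 0 < εG)
    (hlt : εG < ε) (hx0 : 0 < x₀) (hx0g : x₀ < xg) (hc : 0 < c)
    (h1 : (d + 1 + εG) * xg < mE) (h2 : mE < (Ed + ε) * xg) :
    ∃ t0 : ℕ, ∀ t : ℕ, t0 ≤ t → ∀ α : ℝ, 0 ≤ α → α ≤ 1 → Gen d εG x₀ xg t α →
      volume {ξ | ξ ∈ Icc (α + c * pw t (-mE) / 2) (α + c * pw t (-mE)) ∧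
        ∃ g : Fin (d + 1) → ℤ, g ≠ 0 ∧ pw t x₀ < H g ∧ ∃ γ : ℝ, ev γ g = 0 ∧
          |ξ - γ| ≤ (H g : ℝ) ^ (-(Ed + ε))} ≤ ENNReal.ofReal (c * pw t (-mE) / 64) := by
  classical
  obtain ⟨C1, hC1, hlip⟩ := ev_sub_le d
  obtain ⟨C2, hC2, hcount⟩ := count_le d hd
  have hdR : (1 : ℝ) ≤ d := by exact_mod_cast hd
  have hxg : 0 < xg := hx0.trans hx0g
  have hε : 0 < ε := hεG.trans hlt
  set s : ℝ := Ed + ε with hs
  have hs0 : 0 < s := by linarith
  have hsd : (d : ℝ) + 1 + ε ≤ s := by linarith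
  have hmE : 0 < mE := lt_trans (by positivity) h1
  set A : ℝ := max 2 (2 * C1 * (c + 1)) with hA
  have hA2 : 2 ≤ A := le_max_left _ _
  have hA3 : 2 * C1 * (c + 1) ≤ A := le_max_right _ _
  set q : ℝ := (2 : ℝ) ^ (-ε) with hq
  have hq0 : 0 < q := Real.rpow_pos_of_pos (by norm_num) _
  have hq1 : q < 1 := Real.rpow_lt_one_of_one_lt_of_neg (by norm_num) (by linarith)
  set K : ℝ := (C2 * A) ^ (d + 1) * (2 * d) with hK
  have hK0 : 0 ≤ K := by positivity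
  obtain ⟨ta, hta⟩ := pw_small mE (1 / (2 * c)) hmE (by positivity)
  obtain ⟨tb, htb⟩ := pw_small (x₀ * s) (1 / 2) (by positivity) (by norm_num)
  obtain ⟨tc, htc⟩ := pw_small (x₀ * (ε - εG)) (1 / (4 * C1))
    (mul_pos hx0 (by linarith)) (by positivity)
  obtain ⟨td, htd⟩ := pw_small (mE - (d + 1 + εG) * xg) (1 / (4 * C1 * c))
    (by linarith) (by positivity)
  obtain ⟨te, hte⟩ := pw_large (s * xg - mE) (64 * K * (1 - q)⁻¹ / c) (by linarith)
  refine ⟨max (max (max ta tb) (max tc td)) (max te 1), ?_⟩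
  intro t ht α hα0 hα1 hGen
  have ht1 : 1 ≤ t := le_trans (le_trans (le_max_right _ _) (le_max_right _ _)) ht
  have fa := hta t (le_trans (le_trans (le_trans (le_max_left _ _) (le_max_left _ _)) (le_max_left _ _)) ht)
  have fb := htb t (le_trans (le_trans (le_trans (le_max_right _ _) (le_max_left _ _)) (le_max_left _ _)) ht)
  have fc := htc t (le_trans (le_trans (le_trans (le_max_left _ _) (le_max_right _ _)) (le_max_left _ _)) ht)
  have fd := htd t (le_trans (le_trans (le_trans (le_max_right _ _) (le_max_right _ _)) (le_max_left _ _)) ht)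
  have fe := hte t (le_trans (le_trans (le_max_left _ _) (le_max_right _ _)) ht)
  set r : ℝ := c * pw t (-mE) with hr
  have hr0 : 0 < r := mul_pos hc (pw_pos _ _)
  have hr1 : r ≤ 1 / 2 := by
    calc r ≤ c * (1 / (2 * c)) := mul_le_mul_of_nonneg_left fa hc.le
      _ = 1 / 2 := by field_simp
  have hx01 : 1 ≤ pw t x₀ := pw_ge_one t hx0.le
  set M : ℝ := pw t xg with hM
  have hM1 : 1 ≤ M := pw_ge_one t hxg.le
  have hM0 : 0 < M := by linarith
  -- the common estimate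
  have common : ∀ ξ : ℝ, ξ ∈ Icc (α + r / 2) (α + r) → ∀ g : Fin (d + 1) → ℤ, pw t x₀ < H g →
      ∀ γ : ℝ, ev γ g = 0 → |ξ - γ| ≤ (H g : ℝ) ^ (-s) →
      |ev α g| ≤ C1 * H g * (r + (H g : ℝ) ^ (-s)) := by
    intro ξ hξ g hg γ hγ hξγ
    have hH1 : (1 : ℝ) ≤ H g := by linarith
    have hw : (H g : ℝ) ^ (-s) ≤ 1 / 2 := by
      calc (H g : ℝ) ^ (-s) ≤ (pw t x₀) ^ (-s) :=
            Harm.rpow_anti (pw_pos _ _) hg.le (by linarith)
        _ = pw t (-(x₀ * s)) := by rw [pw_rpow]; ring_nf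
        _ ≤ 1 / 2 := fb
    have hγ2 : |γ| ≤ 2 := by
      have e1 := abs_le.mp hξγ
      rw [abs_le]
      constructor <;> linarith [hξ.1, hξ.2]
    have hα2 : |α| ≤ 2 := by
      rw [abs_le]
      constructor <;> linarith
    have hαγ : |α - γ| ≤ r + (H g : ℝ) ^ (-s) := by
      have e1 := abs_le.mp hξγ
      rw [abs_le]
      constructor <;> linarith [hξ.1, hξ.2]
    have e := hlip α γ hα2 hγ2 g
    rw [hγ, sub_zero] at e
    refine e.trans ?_
    exact mul_le_mul_of_nonneg_left hαγ (by positivity)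
  -- no harmful vector of height at most `M`
  have low : ∀ ξ : ℝ, ξ ∈ Icc (α + r / 2) (α + r) → ∀ g : Fin (d + 1) → ℤ, g ≠ 0 →
      pw t x₀ < H g → ∀ γ : ℝ, ev γ g = 0 → |ξ - γ| ≤ (H g : ℝ) ^ (-s) → M < H g := by
    intro ξ hξ g hg0 hg γ hγ hξγ
    by_contra hcon
    push Not at hcon
    obtain ⟨x, hx, hxH⟩ := exists_pw ht1 hg hcon
    have hgen := hGen x hx g hg0 hxH.ge
    have hcom := common ξ hξ g hg γ hγ hξγ
    have hH1 : (1 : ℝ) ≤ H g := by linarith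
    have hH0 : (0 : ℝ) < H g := by linarith
    have e0 : pw t (-((d + εG) * x)) = (H g : ℝ) ^ (-((d : ℝ) + εG)) := by
      rw [← hxH, pw_rpow]; ring_nf
    rw [e0] at hgen
    set B : ℝ := (H g : ℝ) ^ (-((d : ℝ) + εG)) with hB
    have hB0 : 0 < B := Real.rpow_pos_of_pos hH0 _
    have i1 : C1 * H g * (H g : ℝ) ^ (-s) ≤ B / 4 := by
      have e1 : (H g : ℝ) * (H g : ℝ) ^ (-s) ≤ B * pw t (-(x₀ * (ε - εG))) := by
        calc (H g : ℝ) * (H g : ℝ) ^ (-s) = (H g : ℝ) ^ (1 + -s) := by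
              rw [Real.rpow_add hH0, Real.rpow_one]
          _ ≤ (H g : ℝ) ^ (-((d : ℝ) + εG) + -(ε - εG)) :=
              Real.rpow_le_rpow_of_exponent_le hH1 (by linarith)
          _ = B * (H g : ℝ) ^ (-(ε - εG)) := by rw [Real.rpow_add hH0]
          _ ≤ B * (pw t x₀) ^ (-(ε - εG)) :=
              mul_le_mul_of_nonneg_left
                (Harm.rpow_anti (pw_pos _ _) hg.le (by linarith)) hB0.le
          _ = B * pw t (-(x₀ * (ε - εG))) := by rw [pw_rpow]; ring_nf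
      calc C1 * H g * (H g : ℝ) ^ (-s) = C1 * ((H g : ℝ) * (H g : ℝ) ^ (-s)) := by ring
        _ ≤ C1 * (B * pw t (-(x₀ * (ε - εG)))) := mul_le_mul_of_nonneg_left e1 (by linarith)
        _ ≤ C1 * (B * (1 / (4 * C1))) :=
            mul_le_mul_of_nonneg_left (mul_le_mul_of_nonneg_left fc hB0.le) (by linarith)
        _ = B / 4 := by
            have : C1 ≠ 0 := by positivity
            field_simp
    have i2 : C1 * H g * r ≤ B / 4 := by
      have e1 : (H g : ℝ) ≤ B * pw t ((d + 1 + εG) * xg) := by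
        calc (H g : ℝ) = B * (H g : ℝ) ^ ((d : ℝ) + 1 + εG) := by
              rw [hB, ← Real.rpow_add hH0]
              conv_lhs => rw [← Real.rpow_one (H g : ℝ)]
              congr 1; ring
          _ ≤ B * M ^ ((d : ℝ) + 1 + εG) :=
              mul_le_mul_of_nonneg_left (Real.rpow_le_rpow hH0.le hcon (by positivity)) hB0.le
          _ = B * pw t ((d + 1 + εG) * xg) := by rw [hM, pw_rpow]; ring_nf
      have e2 : pw t ((d + 1 + εG) * xg) * pw t (-mE) = pw t (-(mE - (d + 1 + εG) * xg)) := by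
        rw [← pw_add]; ring_nf
      calc C1 * H g * r = C1 * c * ((H g : ℝ) * pw t (-mE)) := by rw [hr]; ring
        _ ≤ C1 * c * (B * pw t ((d + 1 + εG) * xg) * pw t (-mE)) :=
            mul_le_mul_of_nonneg_left (mul_le_mul_of_nonneg_right e1 (pw_pos _ _).le)
              (by positivity)
        _ = C1 * c * (B * pw t (-(mE - (d + 1 + εG) * xg))) := by rw [mul_assoc B, e2]
        _ ≤ C1 * c * (B * (1 / (4 * C1 * c))) :=
            mul_le_mul_of_nonneg_left (mul_le_mul_of_nonneg_left fd hB0.le) (by positivity)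
        _ = B / 4 := by
            have : C1 ≠ 0 := by positivity
            field_simp
    have : C1 * H g * (r + (H g : ℝ) ^ (-s)) ≤ B / 2 := by
      rw [mul_add]; linarith
    linarith
  -- dyadic classes
  set wM : ℝ := M ^ (-((d : ℝ) + εG)) with hwM
  have hwM0 : 0 < wM := Real.rpow_pos_of_pos hM0 _
  have hwM1 : wM ≤ 1 := Real.rpow_le_one_of_one_le_of_nonpos hM1 (by linarith)
  set S : ℕ → Finset (Fin (d + 1) → ℤ) := fun j =>
    (H_finite d (2 ^ (j + 1) * M)).toFinset.filter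
      (fun g => g ≠ 0 ∧ 2 ^ j * M ≤ H g ∧ |ev α g| ≤ A * (2 ^ j * wM)) with hS
  have hScard : ∀ j, ((S j).card : ℝ) ≤ (C2 * A * 2 ^ j) ^ (d + 1) := by
    intro j
    have hj1 : (1 : ℝ) ≤ 2 ^ j := one_le_pow₀ (by norm_num)
    refine hcount α (2 ^ j * M) (2 ^ j * wM) (2 ^ j) A (by rw [abs_le]; constructor <;> linarith)
      (by positivity) (mul_le_mul_of_nonneg_left (by linarith) (by positivity)) hj1
      (by linarith) ?_ (S j) ?_
    · intro g hg hH
      rw [mul_div_cancel_left₀ _ (by positivity)] at hH ⊢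
      have := hGen xg ⟨hx0g.le, le_refl _⟩ g hg hH
      rw [hwM, hM, pw_rpow]
      convert this using 2
      ring
    · intro g hg
      simp only [hS, Finset.mem_filter, Set.Finite.mem_toFinset, mem_ofPred_eq] at hg
      refine ⟨?_, hg.2.2.2⟩
      calc (H g : ℝ) ≤ 2 ^ (j + 1) * M := hg.1
        _ = 2 * (2 ^ j * M) := by ring
        _ ≤ A * (2 ^ j * M) := mul_le_mul_of_nonneg_right hA2 (by positivity)
  set Bs : ℕ → Set ℝ := fun j =>
    {ξ : ℝ | ∃ g ∈ S j, ∃ γ : ℝ, ev γ g = 0 ∧ |ξ - γ| ≤ (H g : ℝ) ^ (-s)} with hBs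
  have hvol : ∀ j, volume (Bs j) ≤ ENNReal.ofReal (K * M ^ (-s) * q ^ j) := by
    intro j
    have h2j : (0 : ℝ) < 2 ^ j * M := by positivity
    refine (vol_finset (S j) ?_ (fun g => (H g : ℝ) ^ (-s)) ((2 ^ j * M) ^ (-s)) ?_
      (Real.rpow_nonneg h2j.le _)).trans ?_
    · intro g hg
      simp only [hS, Finset.mem_filter] at hg
      exact hg.2.1
    · intro g hg
      simp only [hS, Finset.mem_filter] at hg
      exact Harm.rpow_anti h2j hg.2.2.1 (by linarith)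
    · apply ENNReal.ofReal_le_ofReal
      have e1 : ((2 : ℝ) ^ j * M) ^ (-s) = ((2 : ℝ) ^ j) ^ (-s) * M ^ (-s) :=
        Real.mul_rpow (by positivity) hM0.le
      have e2 : ((2 : ℝ) ^ j) ^ (d + 1) * ((2 : ℝ) ^ j) ^ (-s) ≤ q ^ j := by
        rw [hq, ← Real.rpow_natCast ((2 : ℝ) ^ (-ε)) j, ← Real.rpow_mul (by norm_num),
          ← Real.rpow_natCast (2 : ℝ) j, ← Real.rpow_mul (by norm_num),
          ← Real.rpow_natCast ((2 : ℝ) ^ (j : ℝ)) (d + 1), ← Real.rpow_mul (by norm_num),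
          ← Real.rpow_add (by norm_num)]
        apply Real.rpow_le_rpow_of_exponent_le (by norm_num)
        push_cast
        have hj0 : (0 : ℝ) ≤ j := Nat.cast_nonneg j
        nlinarith
      have hMs : 0 ≤ M ^ (-s) := Real.rpow_nonneg hM0.le _
      calc ((S j).card : ℝ) * (2 * d * (2 ^ j * M) ^ (-s))
          ≤ (C2 * A * 2 ^ j) ^ (d + 1) * (2 * d * (2 ^ j * M) ^ (-s)) :=
            mul_le_mul_of_nonneg_right (hScard j) (by positivity)
        _ = K * M ^ (-s) * (((2 : ℝ) ^ j) ^ (d + 1) * ((2 : ℝ) ^ j) ^ (-s)) := by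
            rw [e1, hK, mul_pow]; ring
        _ ≤ K * M ^ (-s) * q ^ j := mul_le_mul_of_nonneg_left e2 (by positivity)
  -- the bad set is covered
  have hcover : {ξ | ξ ∈ Icc (α + r / 2) (α + r) ∧
        ∃ g : Fin (d + 1) → ℤ, g ≠ 0 ∧ pw t x₀ < H g ∧ ∃ γ : ℝ, ev γ g = 0 ∧
          |ξ - γ| ≤ (H g : ℝ) ^ (-s)} ⊆ ⋃ j, Bs j := by
    rintro ξ ⟨hξ, g, hg0, hg, γ, hγ, hξγ⟩
    have hM' := low ξ hξ g hg0 hg γ hγ hξγ
    have hH0 : (0 : ℝ) < H g := by linarith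
    have hH1 : (1 : ℝ) ≤ H g := by linarith
    obtain ⟨j, hj1, hj2⟩ := exists_nat_pow_near (x := (H g : ℝ) / M) (y := 2)
      ((one_le_div hM0).mpr hM'.le) (by norm_num)
    rw [le_div_iff₀ hM0] at hj1
    rw [div_lt_iff₀ hM0] at hj2
    have hj0 : (0 : ℝ) < 2 ^ j := by positivity
    have hj11 : (1 : ℝ) ≤ 2 ^ j := one_le_pow₀ (by norm_num)
    rw [mem_iUnion]
    refine ⟨j, g, ?_, γ, hγ, hξγ⟩
    simp only [hS, Finset.mem_filter, Set.Finite.mem_toFinset, mem_ofPred_eq]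
    refine ⟨hj2.le, hg0, hj1, ?_⟩
    refine (common ξ hξ g hg γ hγ hξγ).trans ?_
    -- the two parts
    have p1 : M * r ≤ c * wM := by
      have e1 : M = wM * M ^ ((d : ℝ) + 1 + εG) := by
        rw [hwM, ← Real.rpow_add hM0]
        conv_lhs => rw [← Real.rpow_one M]
        congr 1; ring
      have e2 : M ^ ((d : ℝ) + 1 + εG) * pw t (-mE) ≤ 1 := by
        have e3 : M ^ ((d : ℝ) + 1 + εG) * pw t (-mE) = pw t (xg * ((d : ℝ) + 1 + εG) + -mE) := by
          rw [hM, pw_rpow, ← pw_add]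
        have e4 : xg * ((d : ℝ) + 1 + εG) + -mE ≤ 0 := by linarith
        have e5 := pw_mono t e4
        rw [pw_zero] at e5
        rw [e3]
        exact e5
      calc M * r = wM * c * (M ^ ((d : ℝ) + 1 + εG) * pw t (-mE)) := by
            rw [hr]; nth_rw 1 [e1]; ring
        _ ≤ wM * c * 1 := mul_le_mul_of_nonneg_left e2 (by positivity)
        _ = c * wM := by ring
    have p2 : M * (H g : ℝ) ^ (-s) ≤ wM := by
      calc M * (H g : ℝ) ^ (-s) ≤ M * M ^ (-s) :=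
            mul_le_mul_of_nonneg_left
              (Harm.rpow_anti hM0 hM'.le (by linarith)) hM0.le
        _ = M ^ (1 + -s) := by rw [Real.rpow_add hM0, Real.rpow_one]
        _ ≤ wM := Real.rpow_le_rpow_of_exponent_le hM1 (by linarith)
    have hHs : 0 ≤ (H g : ℝ) ^ (-s) := Real.rpow_nonneg hH0.le _
    calc C1 * H g * (r + (H g : ℝ) ^ (-s))
        ≤ C1 * (2 ^ (j + 1) * M) * (r + (H g : ℝ) ^ (-s)) := by
          apply mul_le_mul_of_nonneg_right _ (by positivity)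
          exact mul_le_mul_of_nonneg_left hj2.le (by linarith)
      _ = 2 * C1 * 2 ^ j * (M * r + M * (H g : ℝ) ^ (-s)) := by ring
      _ ≤ 2 * C1 * 2 ^ j * (c * wM + wM) :=
          mul_le_mul_of_nonneg_left (add_le_add p1 p2) (by positivity)
      _ = 2 * C1 * (c + 1) * (2 ^ j * wM) := by ring
      _ ≤ A * (2 ^ j * wM) := mul_le_mul_of_nonneg_right hA3 (by positivity)
  -- summation
  have hMs0 : 0 ≤ M ^ (-s) := Real.rpow_nonneg hM0.le _
  calc volume {ξ | ξ ∈ Icc (α + r / 2) (α + r) ∧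
        ∃ g : Fin (d + 1) → ℤ, g ≠ 0 ∧ pw t x₀ < H g ∧ ∃ γ : ℝ, ev γ g = 0 ∧
          |ξ - γ| ≤ (H g : ℝ) ^ (-s)} ≤ volume (⋃ j, Bs j) := measure_mono hcover
    _ ≤ ∑' j, volume (Bs j) := measure_iUnion_le _
    _ ≤ ∑' j, ENNReal.ofReal (K * M ^ (-s) * q ^ j) := ENNReal.tsum_le_tsum hvol
    _ = ENNReal.ofReal (∑' j, K * M ^ (-s) * q ^ j) := by
        rw [ENNReal.ofReal_tsum_of_nonneg]
        · intro j; positivity
        · exact (summable_geometric_of_lt_one hq0.le hq1).mul_left _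
    _ = ENNReal.ofReal (K * M ^ (-s) * (1 - q)⁻¹) := by
        rw [tsum_mul_left, tsum_geometric_of_lt_one hq0.le hq1]
    _ ≤ ENNReal.ofReal (r / 64) := by
        apply ENNReal.ofReal_le_ofReal
        have e1 : M ^ (-s) = pw t (-(s * xg)) := by rw [hM, pw_rpow]; ring_nf
        have e2 : pw t (-mE) = pw t (s * xg - mE) * pw t (-(s * xg)) := by
          rw [← pw_add]; ring_nf
        have hpos := pw_pos t (-(s * xg))
        have fe' : 64 * K * (1 - q)⁻¹ ≤ c * pw t (s * xg - mE) := by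
          rw [div_le_iff₀ hc] at fe
          linarith
        rw [hr, e1, e2]
        nlinarith [mul_le_mul_of_nonneg_right fe' hpos.le]

end Pool.Agent.JS
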