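import Pool.Agent.Lib_MP_b52a92_nt.Basic

set_option autoImplicit false

/-! The measure of the forbidden balls of large height tends to zero (MP_b52a92_nt, piece Tail). -/

namespace Pool.Agent.JS

open Polynomial MeasureTheory Set

/-- one dyadic block of forbidden balls -/
def blk (d : ℕ) (F : ℝ) (j : ℕ) : Set ℝ :=
  {ξ | ∃ g : Fin (d + 1) → ℤ, g ≠ 0 ∧ (H g : ℝ) ≤ 2 * 2 ^ j ∧ ∃ γ : ℝ, ev γ g = 0 ∧
    |ξ - γ| ≤ ((2 : ℝ) ^ j) ^ (-F)}

theorem blk_volume (d : ℕ) (F : ℝ) (j : ℕ) : volume (blk d F j) ≤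
    ENNReal.ofReal ((3 * (2 * 2 ^ j)) ^ (d + 1) * d * (2 * ((2 : ℝ) ^ j) ^ (-F))) := by
  classical
  choose R hR1 hR2 using fun (g : {g : Fin (d + 1) → ℤ // g ≠ 0}) => roots_finite g.1 g.2
  let S : Finset (Fin (d + 1) → ℤ) := (H_finite d (2 * 2 ^ j)).toFinset
  have hS : ∀ g, g ∈ S ↔ (H g : ℝ) ≤ 2 * 2 ^ j := fun g => by simp [S]
  set w : ℝ := ((2 : ℝ) ^ j) ^ (-F) with hw
  have hw0 : 0 < w := Real.rpow_pos_of_pos (by positivity) _
  let R' : (Fin (d + 1) → ℤ) → Finset ℝ := fun g => if h : g ≠ 0 then R ⟨g, h⟩ else ∅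
  have hR'card : ∀ g, (R' g).card ≤ d := by
    intro g
    by_cases h : g ≠ 0
    · simp only [R', dif_pos h]
      exact hR1 _
    · simp only [R']
      rw [dif_neg h]
      simp
  have hsub : blk d F j ⊆ ⋃ g ∈ S, ⋃ γ ∈ R' g, Metric.closedBall γ w := by
    rintro ξ ⟨g, hg, hH, γ, hγ, hd⟩
    simp only [mem_iUnion]
    refine ⟨g, (hS g).2 hH, γ, ?_, ?_⟩
    · simp only [R', dif_pos hg]
      exact (hR2 ⟨g, hg⟩ γ).1 hγ
    · rw [Metric.mem_closedBall, Real.dist_eq]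
      exact hd
  have hcard : (S.card : ℝ) ≤ (3 * (2 * 2 ^ j)) ^ (d + 1) := by
    refine H_card d _ ?_ S fun g hg => (hS g).1 hg
    have : (1 : ℝ) ≤ 2 ^ j := one_le_pow₀ (by norm_num)
    linarith
  calc volume (blk d F j) ≤ volume (⋃ g ∈ S, ⋃ γ ∈ R' g, Metric.closedBall γ w) :=
        measure_mono hsub
    _ ≤ ∑ g ∈ S, volume (⋃ γ ∈ R' g, Metric.closedBall γ w) := measure_biUnion_finset_le _ _
    _ ≤ ∑ g ∈ S, ENNReal.ofReal (d * (2 * w)) := by
        refine Finset.sum_le_sum fun g _ => ?_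
        calc volume (⋃ γ ∈ R' g, Metric.closedBall γ w)
            ≤ ∑ γ ∈ R' g, volume (Metric.closedBall γ w) := measure_biUnion_finset_le _ _
          _ = ∑ γ ∈ R' g, ENNReal.ofReal (2 * w) := by
              refine Finset.sum_congr rfl fun γ _ => ?_
              rw [Real.volume_closedBall]
          _ = ((R' g).card : ENNReal) * ENNReal.ofReal (2 * w) := by
              rw [Finset.sum_const, nsmul_eq_mul]
          _ ≤ (d : ENNReal) * ENNReal.ofReal (2 * w) := by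
              gcongr
              exact_mod_cast hR'card g
          _ = ENNReal.ofReal (d * (2 * w)) := by
              rw [ENNReal.ofReal_mul (Nat.cast_nonneg d), ENNReal.ofReal_natCast]
    _ = (S.card : ENNReal) * ENNReal.ofReal (d * (2 * w)) := by
        rw [Finset.sum_const, nsmul_eq_mul]
    _ = ENNReal.ofReal (S.card * (d * (2 * w))) := by
        rw [ENNReal.ofReal_mul (Nat.cast_nonneg S.card), ENNReal.ofReal_natCast]
    _ ≤ _ := by
        apply ENNReal.ofReal_le_ofReal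
        rw [mul_assoc]
        exact mul_le_mul_of_nonneg_right hcard (by positivity)

theorem blk_volume' (d : ℕ) (E ε : ℝ) (hE : d + 1 ≤ E) (j : ℕ) : volume (blk d (E + ε) j) ≤
    ENNReal.ofReal (6 ^ (d + 1) * d * 2 * ((2 : ℝ) ^ (-ε)) ^ j) := by
  refine (blk_volume d (E + ε) j).trans (ENNReal.ofReal_le_ofReal ?_)
  have h2 : (0 : ℝ) < 2 ^ j := by positivity
  have h1 : (1 : ℝ) ≤ 2 ^ j := one_le_pow₀ (by norm_num)
  have e1 : ((2 : ℝ) ^ j) ^ (-(E + ε)) ≤ ((2 : ℝ) ^ j) ^ (-((d : ℝ) + 1) - ε) := by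
    apply Real.rpow_le_rpow_of_exponent_le h1
    linarith
  have e2 : ((2 : ℝ) ^ j) ^ (-((d : ℝ) + 1) - ε) = (((2 : ℝ) ^ j) ^ (d + 1))⁻¹ * ((2 : ℝ) ^ (-ε)) ^ j := by
    rw [sub_eq_add_neg, Real.rpow_add h2, Real.rpow_neg h2.le]
    congr 1
    · congr 1
      have := Real.rpow_natCast ((2 : ℝ) ^ j) (d + 1)
      push_cast at this
      exact this
    · rw [← Real.rpow_natCast, ← Real.rpow_natCast, ← Real.rpow_mul (by norm_num),
        ← Real.rpow_mul (by norm_num), mul_comm]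
  rw [e2] at e1
  calc (3 * (2 * (2 : ℝ) ^ j)) ^ (d + 1) * d * (2 * ((2 : ℝ) ^ j) ^ (-(E + ε)))
      ≤ (3 * (2 * (2 : ℝ) ^ j)) ^ (d + 1) * d *
          (2 * ((((2 : ℝ) ^ j) ^ (d + 1))⁻¹ * ((2 : ℝ) ^ (-ε)) ^ j)) := by
        gcongr
    _ = _ := by
        have : (3 * (2 * (2 : ℝ) ^ j)) ^ (d + 1) = 6 ^ (d + 1) * ((2 : ℝ) ^ j) ^ (d + 1) := by
          rw [← mul_pow]
          congr 1
          ring
        rw [this]
        have h3 : ((2 : ℝ) ^ j) ^ (d + 1) ≠ 0 := by positivity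
        field_simp

theorem tail (d : ℕ) (hd : 1 ≤ d) (E ε : ℝ) (hE : d + 1 ≤ E) (hε : 0 < ε) (ρ : ℝ) (hρ : 0 < ρ) :
    ∃ Y0 : ℕ, ∀ Y : ℕ, Y0 ≤ Y →
      volume (Zd d E (fun _ => ε) Y ∩ Icc 0 1) ≤ ENNReal.ofReal ρ := by
  set r : ℝ := (2 : ℝ) ^ (-ε) with hr
  have hr0 : 0 < r := Real.rpow_pos_of_pos (by norm_num) _
  have hr1 : r < 1 := Real.rpow_lt_one_of_one_lt_of_neg (by norm_num) (by linarith)
  set K : ℝ := 6 ^ (d + 1) * d * 2 with hK
  have hK0 : 0 ≤ K := by positivity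
  have hlim : Filter.Tendsto (fun J : ℕ => K * r ^ J * (1 - r)⁻¹) Filter.atTop (nhds 0) := by
    have := (tendsto_pow_atTop_nhds_zero_of_lt_one hr0.le hr1).const_mul K
    have := this.mul_const (1 - r)⁻¹
    simpa using this
  obtain ⟨J, hJ⟩ := (hlim.eventually (gt_mem_nhds hρ)).exists
  refine ⟨2 ^ J, fun Y hY => ?_⟩
  have hsub : Zd d E (fun _ => ε) Y ∩ Icc 0 1 ⊆ ⋃ i : ℕ, blk d (E + ε) (J + i) := by
    rintro ξ ⟨⟨g, hg, hYg, γ, hγ, hξ⟩, -⟩
    have hH1 : H g ≠ 0 := by omega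
    have hJl : J ≤ Nat.log 2 (H g) := by
      apply Nat.le_log_of_pow_le (by norm_num)
      omega
    rw [mem_iUnion]
    refine ⟨Nat.log 2 (H g) - J, ?_⟩
    rw [Nat.add_sub_cancel' hJl]
    have h1 : 2 ^ Nat.log 2 (H g) ≤ H g := Nat.pow_log_le_self 2 hH1
    have h2 : H g < 2 ^ (Nat.log 2 (H g) + 1) := Nat.lt_pow_succ_log_self (by norm_num) _
    refine ⟨g, hg, ?_, γ, hγ, hξ.trans ?_⟩
    · have : (H g : ℝ) < 2 ^ (Nat.log 2 (H g) + 1) := by exact_mod_cast h2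
      rw [pow_succ] at this
      linarith
    · apply Real.rpow_le_rpow_of_nonpos (by positivity)
      · exact_mod_cast h1
      · have : (0 : ℝ) ≤ d := Nat.cast_nonneg d
        linarith
  calc volume (Zd d E (fun _ => ε) Y ∩ Icc 0 1)
      ≤ volume (⋃ i : ℕ, blk d (E + ε) (J + i)) := measure_mono hsub
    _ ≤ ∑' i : ℕ, volume (blk d (E + ε) (J + i)) := measure_iUnion_le _
    _ ≤ ∑' i : ℕ, ENNReal.ofReal (K * r ^ (J + i)) :=
        ENNReal.tsum_le_tsum fun i => blk_volume' d E ε hE (J + i)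
    _ = ENNReal.ofReal (∑' i : ℕ, K * r ^ (J + i)) := by
        rw [ENNReal.ofReal_tsum_of_nonneg]
        · intro i
          positivity
        · have : (fun i : ℕ => K * r ^ (J + i)) = fun i : ℕ => K * r ^ J * r ^ i := by
            funext i
            rw [pow_add]
            ring
          rw [this]
          exact (summable_geometric_of_lt_one hr0.le hr1).mul_left _
    _ ≤ ENNReal.ofReal ρ := by
        apply ENNReal.ofReal_le_ofReal
        have : (fun i : ℕ => K * r ^ (J + i)) = fun i : ℕ => K * r ^ J * r ^ i := by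
          funext i
          rw [pow_add]
          ring
        rw [this, tsum_mul_left, tsum_geometric_of_lt_one hr0.le hr1]
        exact hJ.le

end Pool.Agent.JS
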