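import Pool.Agent.Lib_MP_b52a92_nt.Stage
import Pool.Agent.Lib_MP_b52a92_nt.Tail

set_option autoImplicit false

/-! Nested intervals: construction of the number. -/

namespace Pool.Agent.JS

open Polynomial MeasureTheory Set

theorem exists_chain {α : Type*} (P : ℕ → α → Prop) (R : ℕ → α → α → Prop) (h0 : ∃ s, P 0 s)
    (hs : ∀ k s, P k s → ∃ s', P (k + 1) s' ∧ R k s s') :
    ∃ f : ℕ → α, ∀ k, P k (f k) ∧ R k (f k) (f (k + 1)) := by
  obtain ⟨s0, h0⟩ := h0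
  choose! g hg using hs
  let f : ℕ → α := fun n => Nat.rec s0 (fun k s => g k s) n
  have hf : ∀ k, P k (f k) := by
    intro k
    induction k with
    | zero => exact h0
    | succ k ih => exact (hg k (f k) ih).1
  exact ⟨f, fun k => ⟨hf k, (hg k (f k) (hf k)).2⟩⟩

theorem near_infinite (S : Set ℝ) (ξ : ℝ)
    (h : ∀ ε : ℝ, 0 < ε → ∃ α ∈ S, 0 < |ξ - α| ∧ |ξ - α| < ε) : S.Infinite := by
  intro hfin
  have h1 : (S \ {ξ}).Finite := hfin.subset diff_subset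
  have h2 : IsOpen (S \ {ξ})ᶜ := h1.isClosed.isOpen_compl
  have h3 : ξ ∈ (S \ {ξ})ᶜ := by simp
  obtain ⟨ε, hε, hball⟩ := Metric.isOpen_iff.1 h2 ξ h3
  obtain ⟨α, hα, h4, h5⟩ := h ε hε
  have h6 : α ∈ Metric.ball ξ ε := by
    rw [Metric.mem_ball, Real.dist_eq, abs_sub_comm]; exact h5
  apply hball h6
  refine ⟨hα, ?_⟩
  intro h7
  rw [mem_singleton_iff] at h7
  rw [h7] at h4
  simp at h4

theorem near_finite (d : ℕ) (ξ E : ℝ) (h0 : ℕ)
    (h : ∀ g : Fin (d + 1) → ℤ, g ≠ 0 → h0 ≤ H g → ∀ γ, ev γ g = 0 →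
      (H g : ℝ) ^ (-E) ≤ |ξ - γ|) : (Near d ξ E).Finite := by
  have hfin := H_finite d (h0 : ℝ)
  have h1 : (⋃ g ∈ {g : Fin (d + 1) → ℤ | (H g : ℝ) ≤ h0}, {γ : ℝ | g ≠ 0 ∧ ev γ g = 0}).Finite := by
    refine Set.Finite.biUnion hfin fun g _ => ?_
    by_cases hg : g = 0
    · simp [hg]
    · obtain ⟨R, _, hR⟩ := roots_finite g hg
      refine R.finite_toSet.subset ?_
      rintro γ ⟨_, hγ⟩
      exact (hR γ).1 hγ
  refine h1.subset ?_
  rintro α ⟨P, hP, hdeg, hα, hlt⟩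
  have hv : vec d P ≠ 0 := vec_ne_zero P hdeg hP.ne_zero
  have hev : ev α (vec d P) = 0 := by rw [vec_ev P hdeg, hα]
  rw [mem_iUnion₂]
  refine ⟨vec d P, ?_, hv, hev⟩
  rw [mem_setOf_eq]
  by_contra hcon
  push Not at hcon
  have h2 := h (vec d P) hv (by exact_mod_cast hcon.le) α hev
  rw [vec_H P hdeg] at h2
  linarith

/-- the state of the construction -/
structure St where
  u : ℝ
  v : ℝ
  e : ℕ → ℝ

/-- the invariant -/
def Inv (a b : ℕ) (Ea Eb : ℝ) (Y : ℕ) (k : ℕ) (s : St) : Prop :=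
  1 / 4 ≤ s.u ∧ s.u < s.v ∧ s.v ≤ 1 / 2 ∧ (∃ N0, ∀ h ≥ N0, s.e h = 1 / ((k : ℝ) + 1)) ∧
    volume ((Zd a Ea s.e Y ∪ Zd b Eb s.e Y) ∩ Icc s.u s.v) ≤ ENNReal.ofReal ((s.v - s.u) / 8)

/-- the step -/
def Step (a b : ℕ) (Ea Eb : ℝ) (Y : ℕ) (k : ℕ) (s s' : St) : Prop :=
  s.u ≤ s'.u ∧ s'.v ≤ s.v ∧ (∀ h, s'.e h = s.e h ∨ s'.e h = 1 / ((k : ℝ) + 2)) ∧
    (∃ (α : ℝ) (P : ℤ[X]), Irreducible P ∧ P.natDegree = (if Even k then 1 else a + 1) ∧
      aeval α P = 0 ∧ ∀ ξ ∈ Icc s'.u s'.v, 0 < |ξ - α| ∧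
        |ξ - α| < (ht P : ℝ) ^ (-(if Even k then Ea else Eb)) ∧ |ξ - α| < 1 / ((k : ℝ) + 1)) ∧
    (∀ ξ ∈ Icc s'.u s'.v, ∀ g : Fin (a + 1) → ℤ, g ≠ 0 → Y < H g → H g ≤ k → ∀ γ, ev γ g = 0 →
      (H g : ℝ) ^ (-(Ea + s.e (H g))) < |ξ - γ|) ∧
    (∀ ξ ∈ Icc s'.u s'.v, ∀ g : Fin (b + 1) → ℤ, g ≠ 0 → Y < H g → H g ≤ k → ∀ γ, ev γ g = 0 →
      (H g : ℝ) ^ (-(Eb + s.e (H g))) < |ξ - γ|)

/-- changing the function `e` beyond a large height -/
theorem Zd_change (d : ℕ) (E : ℝ) (e : ℕ → ℝ) (ε' : ℝ) (N Y : ℕ) :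
    Zd d E (fun h => if h ≤ N then e h else ε') Y ⊆ Zd d E e Y ∪ Zd d E (fun _ => ε') N := by
  rintro ξ ⟨g, hg, hY, γ, hγ, hle⟩
  by_cases h : H g ≤ N
  · left
    refine ⟨g, hg, hY, γ, hγ, ?_⟩
    simpa [h] using hle
  · right
    refine ⟨g, hg, by omega, γ, hγ, ?_⟩
    simpa [h] using hle

theorem step_exists (a b : ℕ) (ha : 1 ≤ a) (hab : a < b) (Ea Eb : ℝ) (hEa : a + 1 ≤ Ea)
    (hEb : b + 1 ≤ Eb) (hE : Ea ≤ Eb) (Y : ℕ) (k : ℕ) (s : St) (hs : Inv a b Ea Eb Y k s) :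
    ∃ s', Inv a b Ea Eb Y (k + 1) s' ∧ Step a b Ea Eb Y k s s' := by
  obtain ⟨hu, huv, hv, he, hZ⟩ := hs
  have ha1 : (1 : ℝ) ≤ a := by exact_mod_cast ha
  have hb1 : (1 : ℝ) ≤ b := by exact_mod_cast (by omega : 1 ≤ b)
  have hk1 : (0 : ℝ) < 1 / ((k : ℝ) + 1) := by positivity
  have hk2 : (0 : ℝ) < 1 / ((k : ℝ) + 2) := by positivity
  obtain ⟨u', v', α, P, h1, h2, h3, hP, hdeg, hα, hclose, hA, hB, hZ'⟩ :=
    stage a b ha hab Ea Eb hEa hEb (if Even k then 1 else a + 1) (by split_ifs <;> omega)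
      (if Even k then Ea else Eb) (by split_ifs <;> linarith)
      (by
        intro h
        split_ifs at h ⊢ with hk
        · exact le_refl _
        · omega)
      (by
        intro h
        split_ifs with hk
        · exact hE
        · exact le_refl _)
      s.e (1 / ((k : ℝ) + 1)) hk1 he Y s.u s.v hu huv hv hZ k
  obtain ⟨Ya, hYa⟩ := tail a ha Ea (1 / ((k : ℝ) + 2)) hEa hk2 ((v' - u') / 32) (by linarith)
  obtain ⟨Yb, hYb⟩ := tail b (by omega) Eb (1 / ((k : ℝ) + 2)) hEb hk2 ((v' - u') / 32)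
    (by linarith)
  set N := max Ya Yb with hN
  have hYa' := hYa N (le_max_left _ _)
  have hYb' := hYb N (le_max_right _ _)
  refine ⟨⟨u', v', fun h => if h ≤ N then s.e h else 1 / ((k : ℝ) + 2)⟩, ⟨?_, h2, ?_, ?_, ?_⟩,
    h1, h3, ?_, ⟨α, P, hP, hdeg, hα, hclose⟩, hA, hB⟩
  · exact hu.trans h1
  · exact h3.trans hv
  · refine ⟨N + 1, fun h hh => ?_⟩
    have : ¬ h ≤ N := by omega
    simp only [this, if_false]
    push_cast
    ring
  · have hI : Icc u' v' ⊆ Icc 0 1 := by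
      intro x hx
      rw [mem_Icc] at hx ⊢
      constructor <;> linarith [hx.1, hx.2]
    have hsub : (Zd a Ea (fun h => if h ≤ N then s.e h else 1 / ((k : ℝ) + 2)) Y ∪
        Zd b Eb (fun h => if h ≤ N then s.e h else 1 / ((k : ℝ) + 2)) Y) ∩ Icc u' v' ⊆
        ((Zd a Ea s.e Y ∪ Zd b Eb s.e Y) ∩ Icc u' v') ∪
          ((Zd a Ea (fun _ => 1 / ((k : ℝ) + 2)) N ∩ Icc 0 1) ∪
            (Zd b Eb (fun _ => 1 / ((k : ℝ) + 2)) N ∩ Icc 0 1)) := by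
      rintro x ⟨hx | hx, hxI⟩
      · rcases Zd_change _ _ _ _ _ _ hx with h | h
        · exact Or.inl ⟨Or.inl h, hxI⟩
        · exact Or.inr (Or.inl ⟨h, hI hxI⟩)
      · rcases Zd_change _ _ _ _ _ _ hx with h | h
        · exact Or.inl ⟨Or.inr h, hxI⟩
        · exact Or.inr (Or.inr ⟨h, hI hxI⟩)
    calc _ ≤ _ := measure_mono hsub
      _ ≤ _ := measure_union_le _ _
      _ ≤ ENNReal.ofReal ((v' - u') / 16) + (ENNReal.ofReal ((v' - u') / 32) +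
            ENNReal.ofReal ((v' - u') / 32)) := by
          refine add_le_add hZ' ((measure_union_le _ _).trans (add_le_add hYa' hYb'))
      _ = ENNReal.ofReal ((v' - u') / 8) := by
          rw [← ENNReal.ofReal_add (by linarith) (by linarith),
            ← ENNReal.ofReal_add (by linarith) (by linarith)]
          ring_nf
  · intro h
    by_cases hh : h ≤ N
    · left; simp [hh]
    · right; simp [hh]

theorem exists_xi (a b : ℕ) (ha : 1 ≤ a) (hab : a < b) (Ea Eb : ℝ) (hEa : a + 1 ≤ Ea)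
    (hEb : b + 1 ≤ Eb) (hE : Ea ≤ Eb) : ∃ ξ : ℝ, (Near a ξ Ea).Infinite ∧ (Near b ξ Eb).Infinite ∧
    (∀ δ : ℝ, 0 < δ → (Near a ξ (Ea + δ)).Finite) ∧
    (∀ δ : ℝ, 0 < δ → (Near b ξ (Eb + δ)).Finite) := by
  obtain ⟨Ya, hYa⟩ := tail a ha Ea 1 hEa one_pos (1 / 64) (by norm_num)
  obtain ⟨Yb, hYb⟩ := tail b (by omega) Eb 1 hEb one_pos (1 / 64) (by norm_num)
  set Y := max Ya Yb with hY
  have hYa' := hYa Y (le_max_left _ _)
  have hYb' := hYb Y (le_max_right _ _)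
  have h0 : ∃ s, Inv a b Ea Eb Y 0 s := by
    refine ⟨⟨1 / 4, 1 / 2, fun _ => 1⟩, le_refl _, by norm_num, le_refl _, ⟨0, fun h _ => by simp⟩,
      ?_⟩
    have hsub : (Zd a Ea (fun _ => 1) Y ∪ Zd b Eb (fun _ => 1) Y) ∩ Icc (1 / 4 : ℝ) (1 / 2) ⊆
        (Zd a Ea (fun _ => 1) Y ∩ Icc 0 1) ∪ (Zd b Eb (fun _ => 1) Y ∩ Icc 0 1) := by
      have hI : Icc (1 / 4 : ℝ) (1 / 2) ⊆ Icc 0 1 := Icc_subset_Icc (by norm_num) (by norm_num)
      rintro x ⟨hx | hx, hxI⟩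
      · exact Or.inl ⟨hx, hI hxI⟩
      · exact Or.inr ⟨hx, hI hxI⟩
    calc _ ≤ _ := measure_mono hsub
      _ ≤ _ := measure_union_le _ _
      _ ≤ ENNReal.ofReal (1 / 64) + ENNReal.ofReal (1 / 64) := add_le_add hYa' hYb'
      _ = ENNReal.ofReal ((1 / 2 - 1 / 4) / 8) := by
          rw [← ENNReal.ofReal_add (by norm_num) (by norm_num)]
          norm_num
  obtain ⟨f, hf⟩ := exists_chain (Inv a b Ea Eb Y) (Step a b Ea Eb Y) h0
    (step_exists a b ha hab Ea Eb hEa hEb hE Y)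
  have hmono : Monotone fun k => (f k).u := monotone_nat_of_le_succ fun k => (hf k).2.1
  have hanti : Antitone fun k => (f k).v := antitone_nat_of_succ_le fun k => (hf k).2.2.1
  have hlt : ∀ k, (f k).u ≤ (f k).v := fun k => (hf k).1.2.1.le
  obtain ⟨ξ, hξ⟩ : ∃ ξ, ∀ k, ξ ∈ Icc (f k).u (f k).v := by
    have hle : (fun k => (f k).u) ≤ fun k => (f k).v := hlt
    have := hmono.ciSup_mem_iInter_Icc_of_antitone hanti hle
    exact ⟨_, fun k => mem_iInter.1 this k⟩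
  -- the function e is eventually at most `1 / (j + 1)`
  have hedec : ∀ j : ℕ, ∃ N0 : ℕ, ∀ h ≥ N0, ∀ k, j ≤ k → (f k).e h ≤ 1 / ((j : ℝ) + 1) := by
    intro j
    obtain ⟨N0, hN0⟩ := (hf j).1.2.2.2.1
    refine ⟨N0, fun h hh k hk => ?_⟩
    induction k, hk using Nat.le_induction with
    | base => exact (hN0 h hh).le
    | succ k hk ih =>
      rcases (hf k).2.2.2.1 h with h1 | h1
      · rw [h1]; exact ih
      · rw [h1]
        apply one_div_le_one_div_of_le (by positivity)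
        have : (j : ℝ) ≤ k := by exact_mod_cast hk
        linarith
  have hfar : ∀ (d : ℕ) (E : ℝ), (∀ k, ∀ ξ ∈ Icc (f (k + 1)).u (f (k + 1)).v,
      ∀ g : Fin (d + 1) → ℤ, g ≠ 0 → Y < H g → H g ≤ k → ∀ γ, ev γ g = 0 →
      (H g : ℝ) ^ (-(E + (f k).e (H g))) < |ξ - γ|) →
      ∀ δ : ℝ, 0 < δ → (Near d ξ (E + δ)).Finite := by
    intro d E h δ hδ
    obtain ⟨j, hj⟩ := exists_nat_one_div_lt hδ
    obtain ⟨N0, hN0⟩ := hedec j
    refine near_finite d ξ (E + δ) (max N0 (Y + 1)) fun g hg hH γ hγ => ?_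
    have hH1 : N0 ≤ H g := (le_max_left _ _).trans hH
    have hH2 : Y < H g := lt_of_lt_of_le (Nat.lt_succ_self Y) ((le_max_right _ _).trans hH)
    have h1 := h (max j (H g)) ξ (hξ _) g hg hH2 (le_max_right _ _) γ hγ
    have h2 := hN0 (H g) hH1 (max j (H g)) (le_max_left _ _)
    refine le_trans ?_ h1.le
    apply Real.rpow_le_rpow_of_exponent_le
    · exact_mod_cast H_pos g hg
    · linarith
  refine ⟨ξ, ?_, ?_, ?_, ?_⟩
  · refine near_infinite _ ξ fun ε hε => ?_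
    obtain ⟨n, hn⟩ := exists_nat_one_div_lt hε
    obtain ⟨α, P, hP, hdeg, hα, hc⟩ := (hf (2 * n)).2.2.2.2.1
    have hev : Even (2 * n) := even_two_mul n
    simp only [hev, if_true] at hdeg hc
    obtain ⟨h1, h2, h3⟩ := hc ξ (hξ _)
    refine ⟨α, ⟨P, hP, by omega, hα, h2⟩, h1, lt_trans h3 (lt_of_le_of_lt ?_ hn)⟩
    apply one_div_le_one_div_of_le (by positivity)
    push_cast
    have : (0 : ℝ) ≤ n := by positivity
    linarith
  · refine near_infinite _ ξ fun ε hε => ?_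
    obtain ⟨n, hn⟩ := exists_nat_one_div_lt hε
    obtain ⟨α, P, hP, hdeg, hα, hc⟩ := (hf (2 * n + 1)).2.2.2.2.1
    have hev : ¬ Even (2 * n + 1) := by simp
    simp only [hev, if_false] at hdeg hc
    obtain ⟨h1, h2, h3⟩ := hc ξ (hξ _)
    refine ⟨α, ⟨P, hP, by omega, hα, h2⟩, h1, lt_trans h3 (lt_of_le_of_lt ?_ hn)⟩
    apply one_div_le_one_div_of_le (by positivity)
    push_cast
    have : (0 : ℝ) ≤ n := by positivity
    linarith
  · exact hfar a Ea fun k ξ hξ => (hf k).2.2.2.2.2.1 ξ hξ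
  · exact hfar b Eb fun k ξ hξ => (hf k).2.2.2.2.2.2 ξ hξ

end Pool.Agent.JS
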