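import Pool.Agent.Lib_MP_b52a92_nt.SelectCore
import Pool.Agent.Lib_MP_b52a92_nt.BadCount
import Pool.Agent.Lib_MP_b52a92_nt.AlPoly

set_option autoImplicit false

/-! Choice of a generic approximant (piece Select). -/

namespace Pool.Agent.JS

open Polynomial MeasureTheory Set

theorem select (a b m : ℕ) (ha : 1 ≤ a) (hb : 1 ≤ b) (hm : 1 ≤ m) (ε x₀ Xa Xb : ℝ)
    (hε : 0 < ε) (hx0 : 0 < x₀) (hXa : m ≤ a → Xa < m) (hXb : m ≤ b → Xb < m)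
    (u v : ℝ) (hu : 1 / 4 ≤ u) (huv : u < v) (hv : v ≤ 1 / 2) :
    ∃ t0 : ℕ, ∀ t : ℕ, t0 ≤ t → ∀ F : Finset (ℝ × ℝ), (∀ c ∈ F, 0 ≤ c.2) →
      (F.card : ℝ) ≤ pw t (1 / 2) →
      volume ({y | ∃ c ∈ F, |y - c.1| ≤ c.2} ∩ Icc u v) ≤ ENNReal.ofReal ((v - u) / 4) →
      ∃ p q k p' : ℤ, Adm t p q k p' ∧ u < al m p q k p' ∧ al m p q k p' + pw t (-1) < v ∧
        Gen a ε x₀ Xa t (al m p q k p') ∧ Gen b ε x₀ Xb t (al m p q k p') ∧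
        ∀ c ∈ F, c.2 + pw t (-1) < |al m p q k p' - c.1| := by
  refine select_core a b m ε x₀ Xa Xb ?_ (al_near m hm) u v hu huv hv
  rintro d X (⟨rfl, rfl⟩ | ⟨rfl, rfl⟩)
  · exact badcount m d hm ha ε x₀ X hε hx0 hXa
  · exact badcount m d hm hb ε x₀ X hε hx0 hXb

end Pool.Agent.JS
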