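import Pool.Agent.Lib_MP_b52a92_nt.Basic

set_option autoImplicit false

/-! Choice of a generic approximant (core of the piece Select). -/

namespace Pool.Agent.JS

open Polynomial MeasureTheory Set

/-- measure of a finite union of intervals -/
theorem vol_union_balls {ι : Type*} (s : Finset ι) (c r : ι → ℝ) (hr : ∀ i ∈ s, 0 ≤ r i) :
    volume {y : ℝ | ∃ i ∈ s, |y - c i| ≤ r i} ≤ ENNReal.ofReal (∑ i ∈ s, 2 * r i) := by
  have hsub : {y : ℝ | ∃ i ∈ s, |y - c i| ≤ r i} ⊆ ⋃ i ∈ s, Icc (c i - r i) (c i + r i) := by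
    intro y hy
    obtain ⟨i, hi, h⟩ := hy
    rw [mem_iUnion₂]
    refine ⟨i, hi, ?_⟩
    rw [abs_le] at h
    constructor <;> linarith [h.1, h.2]
  refine (measure_mono hsub).trans ((measure_biUnion_finset_le _ _).trans ?_)
  rw [ENNReal.ofReal_sum_of_nonneg (fun i hi => by have := hr i hi; positivity)]
  refine Finset.sum_le_sum fun i _ => ?_
  rw [Real.volume_Icc]
  apply ENNReal.ofReal_le_ofReal
  linarith

/-- the finite set of admissible data -/
theorem adm_finite (t : ℕ) : ∃ A : Finset (ℤ × ℤ × ℤ × ℤ),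
    ∀ p q k p', Adm t p q k p' → (p, q, k, p') ∈ A := by
  refine ⟨Finset.Icc 0 (2 ^ t) ×ˢ Finset.Icc 0 (2 ^ t) ×ˢ Finset.Icc 0 (4 * 2 ^ t) ×ˢ
    Finset.Icc (-(1 + 2 ^ t * (4 * 2 ^ t))) 0, ?_⟩
  rintro p q k p' ⟨h1, h2, h3, h4, h5, h6, h7⟩
  have hq : 1 ≤ q := by omega
  have hk0 : 0 ≤ k := by omega
  have hk : k ≤ 4 * 2 ^ t := by linarith
  have hp : p ≤ 2 ^ t := by linarith
  have hpk : p * k ≤ 2 ^ t * (4 * 2 ^ t) := by
    apply mul_le_mul hp hk hk0; positivity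
  have hpk0 : 0 ≤ p * k := mul_nonneg h1 hk0
  simp only [Finset.mem_product, Finset.mem_Icc]
  refine ⟨⟨h1, hp⟩, ⟨by omega, h3⟩, ⟨hk0, hk⟩, ?_, ?_⟩
  · by_contra hcon
    push Not at hcon
    have h8 : p' * q ≤ p' * 1 := by
      apply mul_le_mul_of_nonpos_left hq
      have : (0 : ℤ) ≤ 2 ^ t * (4 * 2 ^ t) := by positivity
      linarith
    linarith
  · by_contra hcon
    push Not at hcon
    have : 0 < p' * q := mul_pos hcon (by omega)
    linarith

/-- from a rational number with the right denominator to admissible data -/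
theorem exists_adm (t : ℕ) (r : ℚ) (h0 : 0 < r) (h1 : r < 1) (hd : r.den ≤ 2 ^ t)
    (hd2 : 2 ^ t ≤ 16 * r.den) : ∃ k p' : ℤ, Adm t r.num r.den k p' := by
  have hq : (0 : ℤ) < r.den := by exact_mod_cast r.den_pos
  have hnum : 0 < r.num := Rat.num_pos.2 h0
  have hlt : r.num < r.den := by
    exact Rat.num_lt_denom_iff.2 h1
  have hcop : IsCoprime r.num (r.den : ℤ) := by
    have := r.reduced
    rw [Int.isCoprime_iff_gcd_eq_one]
    exact this
  obtain ⟨x, y, hxy⟩ := hcop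
  -- x * num + y * den = 1
  set k : ℤ := 3 * r.den + (-x) % (r.den : ℤ) with hk
  have hmod0 := Int.emod_nonneg (-x) hq.ne'
  have hmod1 := Int.emod_lt_of_pos (-x) hq
  have hdvd : (r.den : ℤ) ∣ (-1 - r.num * k) := by
    have h2 : (-x) % (r.den : ℤ) = -x - r.den * ((-x) / r.den) := by
      rw [Int.emod_def]
    rw [hk, h2]
    refine ⟨-y - 3 * r.num + r.num * ((-x) / (r.den : ℤ)), ?_⟩
    have h3 : (1 : ℤ) = x * r.num + y * r.den := hxy.symm
    linear_combination (-1 : ℤ) * h3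
  obtain ⟨p', hp'⟩ := hdvd
  refine ⟨k, p', hnum.le, hlt, by exact_mod_cast hd, by exact_mod_cast hd2, by omega, by omega, ?_⟩
  linarith [mul_comm p' (r.den : ℤ)]

/-- the points near rational numbers with a small denominator -/
theorem low_bound (t : ℕ) (u v : ℝ) (huv : u < v) :
    volume {y : ℝ | y ∈ Icc u v ∧ ∃ r : ℚ, 16 * r.den ≤ 2 ^ t ∧
      |y - r| ≤ 1 / (2 ^ t * r.den)} ≤
      ENNReal.ofReal ((v - u) / 8 + 6 * (1 + t) / 2 ^ t) := by
  classical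
  set N : ℕ := 2 ^ t / 16 with hN
  have hT : (0 : ℝ) < 2 ^ t := by positivity
  set J : ℕ → Finset ℤ := fun q => Finset.Icc ⌈(q : ℝ) * u - 1⌉ ⌊(q : ℝ) * v + 1⌋ with hJ
  set s : Finset (Σ _ : ℕ, ℤ) := (Finset.Icc 1 N).sigma J with hs
  have hsub : {y : ℝ | y ∈ Icc u v ∧ ∃ r : ℚ, 16 * r.den ≤ 2 ^ t ∧
      |y - r| ≤ 1 / (2 ^ t * r.den)} ⊆
      {y : ℝ | ∃ i ∈ s, |y - (i.2 : ℝ) / (i.1 : ℝ)| ≤ 1 / (2 ^ t * (i.1 : ℝ))} := by
    rintro y ⟨⟨hy1, hy2⟩, r, hr1, hr2⟩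
    have hd : (0 : ℝ) < r.den := by exact_mod_cast r.den_pos
    have hd1 : (1 : ℝ) ≤ r.den := by exact_mod_cast r.den_pos
    have hrr : (r : ℝ) = (r.num : ℝ) / (r.den : ℝ) := by
      exact_mod_cast (Rat.num_div_den r).symm
    refine ⟨⟨r.den, r.num⟩, ?_, by rw [← hrr]; exact hr2⟩
    rw [hs, Finset.mem_sigma]
    have hle : |(r.den : ℝ) * y - r.num| ≤ 1 := by
      have e1 : (r.den : ℝ) * y - r.num = r.den * (y - r) := by
        rw [hrr]; field_simp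
      rw [e1, abs_mul, abs_of_pos hd]
      calc (r.den : ℝ) * |y - r| ≤ r.den * (1 / (2 ^ t * r.den)) :=
            mul_le_mul_of_nonneg_left hr2 hd.le
        _ = 1 / 2 ^ t := by field_simp
        _ ≤ 1 := by
            rw [div_le_one hT]
            exact one_le_pow₀ (by norm_num)
    rw [abs_le] at hle
    refine ⟨Finset.mem_Icc.2 ⟨r.den_pos, ?_⟩, Finset.mem_Icc.2 ⟨?_, ?_⟩⟩
    · rw [hN, Nat.le_div_iff_mul_le (by norm_num)]
      simp only
      omega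
    · apply Int.ceil_le.2
      have : (r.den : ℝ) * u ≤ r.den * y := mul_le_mul_of_nonneg_left hy1 hd.le
      simp only
      linarith [hle.1]
    · apply Int.le_floor.2
      have : (r.den : ℝ) * y ≤ r.den * v := mul_le_mul_of_nonneg_left hy2 hd.le
      simp only
      linarith [hle.2]
  refine (measure_mono hsub).trans ((vol_union_balls s (fun i => (i.2 : ℝ) / (i.1 : ℝ))
    (fun i => 1 / (2 ^ t * (i.1 : ℝ))) (fun i _ => by positivity)).trans ?_)
  apply ENNReal.ofReal_le_ofReal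
  rw [hs, Finset.sum_sigma]
  simp only [Finset.sum_const, nsmul_eq_mul]
  have hcard : ∀ q ∈ Finset.Icc 1 N, ((J q).card : ℝ) ≤ q * (v - u) + 3 := by
    intro q hq
    rw [hJ]
    simp only [Int.card_Icc]
    have hq0 : (0 : ℝ) < q := by
      have := (Finset.mem_Icc.1 hq).1
      exact_mod_cast this
    have h1 : (((⌊(q : ℝ) * v + 1⌋ + 1 - ⌈(q : ℝ) * u - 1⌉).toNat : ℤ) : ℝ) ≤
        q * (v - u) + 3 := by
      rw [Int.toNat_eq_max]
      push_cast
      apply max_le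
      · have h2 := Int.floor_le ((q : ℝ) * v + 1)
        have h3 := Int.le_ceil ((q : ℝ) * u - 1)
        nlinarith
      · nlinarith
    exact_mod_cast h1
  have hstep : ∀ q ∈ Finset.Icc 1 N, ((J q).card : ℝ) * (2 * (1 / (2 ^ t * (q : ℝ)))) ≤
      2 * (v - u) / 2 ^ t + 6 / 2 ^ t * (q : ℝ)⁻¹ := by
    intro q hq
    have hq0 : (0 : ℝ) < q := by
      have := (Finset.mem_Icc.1 hq).1
      exact_mod_cast this
    calc ((J q).card : ℝ) * (2 * (1 / (2 ^ t * (q : ℝ))))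
        ≤ (q * (v - u) + 3) * (2 * (1 / (2 ^ t * (q : ℝ)))) :=
          mul_le_mul_of_nonneg_right (hcard q hq) (by positivity)
      _ = 2 * (v - u) / 2 ^ t + 6 / 2 ^ t * (q : ℝ)⁻¹ := by
          field_simp
          ring
  refine (Finset.sum_le_sum hstep).trans ?_
  rw [Finset.sum_add_distrib, Finset.sum_const, ← Finset.mul_sum, Nat.card_Icc, nsmul_eq_mul]
  have hNT : (N : ℝ) ≤ 2 ^ t / 16 := by
    rw [le_div_iff₀ (by norm_num)]
    have : N * 16 ≤ 2 ^ t := Nat.div_mul_le_self _ _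
    exact_mod_cast this
  have hharm : (∑ q ∈ Finset.Icc 1 N, (q : ℝ)⁻¹) ≤ 1 + t := by
    have h1 : ((harmonic N : ℚ) : ℝ) ≤ 1 + Real.log N := harmonic_le_one_add_log N
    rw [harmonic_eq_sum_Icc] at h1
    push_cast at h1
    refine h1.trans ?_
    rcases Nat.eq_zero_or_pos N with h0 | h0
    · rw [h0]; simp
    · have h2 : Real.log N ≤ Real.log (2 ^ t) := by
        apply Real.log_le_log (by exact_mod_cast h0)
        linarith
      rw [Real.log_pow] at h2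
      have h3 : Real.log 2 ≤ 1 := by
        have := Real.log_two_lt_d9
        linarith
      have h4 : (t : ℝ) * Real.log 2 ≤ t * 1 := mul_le_mul_of_nonneg_left h3 (by positivity)
      linarith
  have e1 : ((N + 1 - 1 : ℕ) : ℝ) * (2 * (v - u) / 2 ^ t) ≤ (v - u) / 8 := by
    rw [Nat.add_sub_cancel]
    have hw : 0 ≤ 2 * (v - u) / 2 ^ t := by
      have : 0 < v - u := by linarith
      positivity
    calc (N : ℝ) * (2 * (v - u) / 2 ^ t) ≤ (2 ^ t / 16) * (2 * (v - u) / 2 ^ t) :=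
          mul_le_mul_of_nonneg_right hNT hw
      _ = (v - u) / 8 := by field_simp; ring
  have e2 : 6 / 2 ^ t * (∑ q ∈ Finset.Icc 1 N, (q : ℝ)⁻¹) ≤ 6 * (1 + t) / 2 ^ t := by
    calc 6 / 2 ^ t * (∑ q ∈ Finset.Icc 1 N, (q : ℝ)⁻¹) ≤ 6 / 2 ^ t * (1 + t) :=
          mul_le_mul_of_nonneg_left hharm (by positivity)
      _ = 6 * (1 + t) / 2 ^ t := by ring
  linarith

/-- the points near the forbidden balls -/
theorem near_bound (u v w e : ℝ) (hw : 0 ≤ w) (he : 0 ≤ e) (F : Finset (ℝ × ℝ))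
    (h : volume ({y | ∃ c ∈ F, |y - c.1| ≤ c.2} ∩ Icc u v) ≤ ENNReal.ofReal w) :
    volume {y : ℝ | y ∈ Icc u v ∧ ∃ c ∈ F, |y - c.1| ≤ c.2 + e} ≤
      ENNReal.ofReal (w + F.card * (4 * e)) := by
  have hsub : {y : ℝ | y ∈ Icc u v ∧ ∃ c ∈ F, |y - c.1| ≤ c.2 + e} ⊆
      ({y | ∃ c ∈ F, |y - c.1| ≤ c.2} ∩ Icc u v) ∪
        ({y | ∃ c ∈ F, |y - (c.1 + c.2)| ≤ e} ∪ {y | ∃ c ∈ F, |y - (c.1 - c.2)| ≤ e}) := by
    rintro y ⟨hy, c, hc, hyc⟩
    by_cases h1 : |y - c.1| ≤ c.2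
    · exact Or.inl ⟨⟨c, hc, h1⟩, hy⟩
    · right
      push Not at h1
      rcases le_or_gt 0 (y - c.1) with h2 | h2
      · left
        refine ⟨c, hc, ?_⟩
        rw [abs_of_nonneg h2] at h1 hyc
        rw [abs_le]; constructor <;> linarith
      · right
        refine ⟨c, hc, ?_⟩
        rw [abs_of_neg h2] at h1 hyc
        rw [abs_le]; constructor <;> linarith
  refine (measure_mono hsub).trans ((measure_union_le _ _).trans ?_)
  have h1 := vol_union_balls F (fun c => c.1 + c.2) (fun _ => e) (fun _ _ => he)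
  have h2 := vol_union_balls F (fun c => c.1 - c.2) (fun _ => e) (fun _ _ => he)
  rw [Finset.sum_const, nsmul_eq_mul] at h1 h2
  have e1 : w + F.card * (4 * e) = w + (F.card * (2 * e) + F.card * (2 * e)) := by ring
  rw [e1, ENNReal.ofReal_add hw (by positivity), ENNReal.ofReal_add (by positivity) (by positivity)]
  exact add_le_add h ((measure_union_le _ _).trans (add_le_add h1 h2))

/-- choice of a generic approximant, with the two inputs as hypotheses -/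
theorem select_core (a b m : ℕ) (ε x₀ Xa Xb : ℝ)
    (hbad : ∀ d X, (d = a ∧ X = Xa) ∨ (d = b ∧ X = Xb) → ∃ δ : ℝ, 0 < δ ∧ ∃ t0 : ℕ,
      ∀ t : ℕ, t0 ≤ t → ∀ S : Finset (ℤ × ℤ × ℤ × ℤ), (∀ s ∈ S, Adm t s.1 s.2.1 s.2.2.1 s.2.2.2 ∧
      ¬ Gen d ε x₀ X t (al m s.1 s.2.1 s.2.2.1 s.2.2.2)) → (S.card : ℝ) ≤ 2 * pw t (2 - δ))
    (hnear : ∀ (t : ℕ) (p q k p' : ℤ), Adm t p q k p' →
      |al m p q k p' - p / q| ≤ 1 / (q : ℝ) ^ 2)
    (u v : ℝ) (hu : 1 / 4 ≤ u) (huv : u < v) (hv : v ≤ 1 / 2) :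
    ∃ t0 : ℕ, ∀ t : ℕ, t0 ≤ t → ∀ F : Finset (ℝ × ℝ), (∀ c ∈ F, 0 ≤ c.2) →
      (F.card : ℝ) ≤ pw t (1 / 2) →
      volume ({y | ∃ c ∈ F, |y - c.1| ≤ c.2} ∩ Icc u v) ≤ ENNReal.ofReal ((v - u) / 4) →
      ∃ p q k p' : ℤ, Adm t p q k p' ∧ u < al m p q k p' ∧ al m p q k p' + pw t (-1) < v ∧
        Gen a ε x₀ Xa t (al m p q k p') ∧ Gen b ε x₀ Xb t (al m p q k p') ∧
        ∀ c ∈ F, c.2 + pw t (-1) < |al m p q k p' - c.1| := by
  classical
  obtain ⟨δa, hδa, ta, hta⟩ := hbad a Xa (Or.inl ⟨rfl, rfl⟩)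
  obtain ⟨δb, hδb, tb, htb⟩ := hbad b Xb (Or.inr ⟨rfl, rfl⟩)
  set w : ℝ := v - u with hw
  have hw0 : 0 < w := by rw [hw]; linarith
  obtain ⟨t1, ht1⟩ := pw_small δa (w / 2048) hδa (by positivity)
  obtain ⟨t2, ht2⟩ := pw_small δb (w / 2048) hδb (by positivity)
  obtain ⟨t3, ht3⟩ := pw_small (1 / 2) (w / 128) (by norm_num) (by positivity)
  obtain ⟨t4, ht4⟩ := pw_small 1 (w / 192) (by norm_num) (by positivity)
  obtain ⟨t5, ht5⟩ : ∃ t5 : ℕ, ∀ t : ℕ, t5 ≤ t → 6 * (1 + (t : ℝ)) / 2 ^ t ≤ w / 16 := by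
    have h1 : Filter.Tendsto (fun t : ℕ => ((t : ℝ) ^ 1 / 2 ^ t)) Filter.atTop (nhds 0) :=
      tendsto_pow_const_div_const_pow_of_one_lt 1 (by norm_num)
    have h2 : Filter.Tendsto (fun t : ℕ => (1 / (2 : ℝ) ^ t)) Filter.atTop (nhds 0) := by
      have := tendsto_pow_const_div_const_pow_of_one_lt 0 (r := (2 : ℝ)) (by norm_num)
      simpa using this
    have h3 : Filter.Tendsto (fun t : ℕ => 6 * (1 + (t : ℝ)) / 2 ^ t) Filter.atTop (nhds 0) := by
      have h4 := (h2.add h1).const_mul 6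
      simp only [add_zero, mul_zero] at h4
      refine h4.congr fun t => ?_
      ring
    have h5 := h3.eventually_lt_const (u := w / 16) (by positivity)
    obtain ⟨t5, ht5⟩ := Filter.eventually_atTop.1 h5
    exact ⟨t5, fun t ht => (ht5 t ht).le⟩
  refine ⟨ta + tb + t1 + t2 + t3 + t4 + t5 + 10, fun t ht F hF hFc hFv => ?_⟩
  have hT : (0 : ℝ) < 2 ^ t := by positivity
  have hT1 : (1024 : ℝ) ≤ 2 ^ t := by
    calc (1024 : ℝ) = 2 ^ 10 := by norm_num
      _ ≤ 2 ^ t := pow_le_pow_right₀ (by norm_num) (by omega)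
  have hpw : pw t (-1) = 1 / 2 ^ t := by rw [pw_neg, pw_one, one_div]
  have hpw2 : pw t 2 = (2 ^ t) ^ 2 := by
    have := pw_nat t 2
    exact_mod_cast this
  -- the finite set of bad data
  obtain ⟨A, hA⟩ := adm_finite t
  set Sa := A.filter fun s => Adm t s.1 s.2.1 s.2.2.1 s.2.2.2 ∧
      ¬ Gen a ε x₀ Xa t (al m s.1 s.2.1 s.2.2.1 s.2.2.2) with hSa
  set Sb := A.filter fun s => Adm t s.1 s.2.1 s.2.2.1 s.2.2.2 ∧
      ¬ Gen b ε x₀ Xb t (al m s.1 s.2.1 s.2.2.1 s.2.2.2) with hSb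
  have hSac : (Sa.card : ℝ) ≤ 2 * pw t (2 - δa) := by
    apply hta t (by omega)
    intro s hs
    exact (Finset.mem_filter.1 hs).2
  have hSbc : (Sb.card : ℝ) ≤ 2 * pw t (2 - δb) := by
    apply htb t (by omega)
    intro s hs
    exact (Finset.mem_filter.1 hs).2
  -- the four removed sets
  have m1 := low_bound t u v huv
  have m2a := vol_union_balls Sa (fun s => (s.1 : ℝ) / (s.2.1 : ℝ)) (fun _ => 16 / (2 ^ t) ^ 2)
    (fun _ _ => by positivity)
  have m2b := vol_union_balls Sb (fun s => (s.1 : ℝ) / (s.2.1 : ℝ)) (fun _ => 16 / (2 ^ t) ^ 2)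
    (fun _ _ => by positivity)
  have m3 := near_bound u v (w / 4) (2 / 2 ^ t) (by positivity) (by positivity) F hFv
  have m4 : volume {y : ℝ | |y - u| ≤ 3 / 2 ^ t} ≤ ENNReal.ofReal (w / 32) := by
    have h1 := vol_union_balls ({u} : Finset ℝ) (fun s => s) (fun _ => 3 / 2 ^ t)
      (fun _ _ => by positivity)
    simp only [Finset.mem_singleton, exists_eq_left, Finset.sum_singleton] at h1
    refine h1.trans (ENNReal.ofReal_le_ofReal ?_)
    have := ht4 t (by omega)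
    rw [hpw] at this
    have e : 2 * (3 / (2 : ℝ) ^ t) = 6 * (1 / 2 ^ t) := by ring
    rw [e]; linarith
  have m5 : volume {y : ℝ | |y - v| ≤ 3 / 2 ^ t} ≤ ENNReal.ofReal (w / 32) := by
    have h1 := vol_union_balls ({v} : Finset ℝ) (fun s => s) (fun _ => 3 / 2 ^ t)
      (fun _ _ => by positivity)
    simp only [Finset.mem_singleton, exists_eq_left, Finset.sum_singleton] at h1
    refine h1.trans (ENNReal.ofReal_le_ofReal ?_)
    have := ht4 t (by omega)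
    rw [hpw] at this
    have e : 2 * (3 / (2 : ℝ) ^ t) = 6 * (1 / 2 ^ t) := by ring
    rw [e]; linarith
  have hbadm : ∀ (S : Finset (ℤ × ℤ × ℤ × ℤ)) (δ : ℝ), (S.card : ℝ) ≤ 2 * pw t (2 - δ) →
      pw t (-δ) ≤ w / 2048 → ∑ _i ∈ S, 2 * (16 / ((2 : ℝ) ^ t) ^ 2) ≤ w / 32 := by
    intro S δ h1 h2
    rw [Finset.sum_const, nsmul_eq_mul]
    have h3 : pw t (2 - δ) = (2 ^ t) ^ 2 * pw t (-δ) := by
      rw [sub_eq_add_neg, pw_add, hpw2]
    calc (S.card : ℝ) * (2 * (16 / ((2 : ℝ) ^ t) ^ 2))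
        ≤ (2 * ((2 ^ t) ^ 2 * pw t (-δ))) * (2 * (16 / ((2 : ℝ) ^ t) ^ 2)) := by
          rw [← h3]
          exact mul_le_mul_of_nonneg_right h1 (by positivity)
      _ = 64 * pw t (-δ) := by field_simp; ring
      _ ≤ w / 32 := by linarith
  have k1 : (v - u) / 8 + 6 * (1 + (t : ℝ)) / 2 ^ t ≤ w / 8 + w / 16 := by
    have := ht5 t (by omega)
    rw [← hw]; linarith
  have k3 : w / 4 + F.card * (4 * (2 / 2 ^ t)) ≤ w / 4 + w / 16 := by
    have h1 : pw t (1 / 2) * (1 / 2 ^ t) = pw t (-(1 / 2)) := by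
      rw [← hpw, ← pw_add]; norm_num
    have h2 : (F.card : ℝ) * (1 / 2 ^ t) ≤ pw t (-(1 / 2)) := by
      rw [← h1]; exact mul_le_mul_of_nonneg_right hFc (by positivity)
    have h3 := ht3 t (by omega)
    have e : (F.card : ℝ) * (4 * (2 / 2 ^ t)) = 8 * ((F.card : ℝ) * (1 / 2 ^ t)) := by ring
    rw [e]; linarith
  have m1' := m1.trans (ENNReal.ofReal_le_ofReal k1)
  have m2a' := m2a.trans (ENNReal.ofReal_le_ofReal (hbadm Sa δa hSac (ht1 t (by omega))))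
  have m2b' := m2b.trans (ENNReal.ofReal_le_ofReal (hbadm Sb δb hSbc (ht2 t (by omega))))
  have m3' := m3.trans (ENNReal.ofReal_le_ofReal k3)
  -- a point outside
  obtain ⟨y, hy, hy1, hy2a, hy2b, hy3, hy4, hy5⟩ : ∃ y ∈ Icc u v,
      y ∉ {y : ℝ | y ∈ Icc u v ∧ ∃ r : ℚ, 16 * r.den ≤ 2 ^ t ∧ |y - r| ≤ 1 / (2 ^ t * r.den)} ∧
      y ∉ {y : ℝ | ∃ i ∈ Sa, |y - (i.1 : ℝ) / (i.2.1 : ℝ)| ≤ 16 / (2 ^ t) ^ 2} ∧
      y ∉ {y : ℝ | ∃ i ∈ Sb, |y - (i.1 : ℝ) / (i.2.1 : ℝ)| ≤ 16 / (2 ^ t) ^ 2} ∧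
      y ∉ {y : ℝ | y ∈ Icc u v ∧ ∃ c ∈ F, |y - c.1| ≤ c.2 + 2 / 2 ^ t} ∧
      y ∉ {y : ℝ | |y - u| ≤ 3 / 2 ^ t} ∧ y ∉ {y : ℝ | |y - v| ≤ 3 / 2 ^ t} := by
    by_contra hcon
    push Not at hcon
    have hsub : Icc u v ⊆
        {y : ℝ | y ∈ Icc u v ∧ ∃ r : ℚ, 16 * r.den ≤ 2 ^ t ∧ |y - r| ≤ 1 / (2 ^ t * r.den)} ∪
        ({y : ℝ | ∃ i ∈ Sa, |y - (i.1 : ℝ) / (i.2.1 : ℝ)| ≤ 16 / (2 ^ t) ^ 2} ∪
        ({y : ℝ | ∃ i ∈ Sb, |y - (i.1 : ℝ) / (i.2.1 : ℝ)| ≤ 16 / (2 ^ t) ^ 2} ∪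
        ({y : ℝ | y ∈ Icc u v ∧ ∃ c ∈ F, |y - c.1| ≤ c.2 + 2 / 2 ^ t} ∪
        ({y : ℝ | |y - u| ≤ 3 / 2 ^ t} ∪ {y : ℝ | |y - v| ≤ 3 / 2 ^ t})))) := by
      intro y hy
      by_contra h
      simp only [mem_union, not_or] at h
      obtain ⟨h1, h2, h3, h4, h5, h6⟩ := h
      exact h6 (hcon y hy h1 h2 h3 h4 h5)
    have h1 := measure_mono (μ := volume) hsub
    have h2 : volume (Icc u v) ≤ ENNReal.ofReal (w / 8 + w / 16) + (ENNReal.ofReal (w / 32) +
        (ENNReal.ofReal (w / 32) + (ENNReal.ofReal (w / 4 + w / 16) + (ENNReal.ofReal (w / 32) +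
          ENNReal.ofReal (w / 32))))) := by
      refine h1.trans ((measure_union_le _ _).trans (add_le_add m1' ?_))
      refine (measure_union_le _ _).trans (add_le_add m2a' ?_)
      refine (measure_union_le _ _).trans (add_le_add m2b' ?_)
      refine (measure_union_le _ _).trans (add_le_add m3' ?_)
      exact (measure_union_le _ _).trans (add_le_add m4 m5)
    rw [Real.volume_Icc, ← ENNReal.ofReal_add (by positivity) (by positivity),
      ← ENNReal.ofReal_add (by positivity) (by positivity),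
      ← ENNReal.ofReal_add (by positivity) (by positivity),
      ← ENNReal.ofReal_add (by positivity) (by positivity),
      ← ENNReal.ofReal_add (by positivity) (by positivity),
      ENNReal.ofReal_le_ofReal_iff (by positivity)] at h2
    rw [← hw] at h2
    linarith
  -- Dirichlet
  obtain ⟨r, hr1, hr2⟩ := Real.exists_rat_abs_sub_le_and_den_le y (n := 2 ^ t) (by positivity)
  have hden : (0 : ℝ) < r.den := by exact_mod_cast r.den_pos
  have hden1 : (1 : ℝ) ≤ r.den := by exact_mod_cast r.den_pos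
  have hr3 : |y - r| ≤ 1 / (2 ^ t * r.den) := by
    refine hr1.trans ?_
    apply one_div_le_one_div_of_le (by positivity)
    push_cast
    nlinarith
  have hr4 : 2 ^ t < 16 * r.den := by
    by_contra h
    push Not at h
    exact hy1 ⟨hy, r, h, hr3⟩
  have hr4' : (2 : ℝ) ^ t < 16 * r.den := by exact_mod_cast hr4
  have hr5 : |y - r| ≤ 16 / (2 ^ t) ^ 2 := by
    refine hr3.trans ?_
    rw [div_le_div_iff₀ (by positivity) (by positivity)]
    nlinarith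
  have hsmall : 16 / ((2 : ℝ) ^ t) ^ 2 ≤ 1 / 8 := by
    rw [div_le_div_iff₀ (by positivity) (by norm_num)]
    nlinarith
  have hy' : u ≤ y ∧ y ≤ v := hy
  have hr6 := abs_le.1 (hr5.trans hsmall)
  have hrpos : (0 : ℝ) < r := by linarith [hr6.1, hr6.2, hy'.1, hy'.2]
  have hrlt : (r : ℝ) < 1 := by linarith [hr6.1, hr6.2, hy'.1, hy'.2]
  obtain ⟨k, p', hadm⟩ := exists_adm t r (by exact_mod_cast hrpos) (by exact_mod_cast hrlt) hr2
    (by omega)
  have hrr : (r : ℝ) = (r.num : ℝ) / ((r.den : ℤ) : ℝ) := by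
    have := (Rat.num_div_den r).symm
    exact_mod_cast this
  have hal := hnear t _ _ _ _ hadm
  rw [← hrr] at hal
  have hal2 : |al m r.num r.den k p' - y| ≤ 1 / 2 ^ t := by
    have h1 : |al m r.num r.den k p' - y| ≤ |al m r.num r.den k p' - r| + |y - r| := by
      have := abs_sub_le (al m r.num r.den k p') (r : ℝ) y
      rw [abs_sub_comm (r : ℝ) y] at this
      exact this
    have h2 : 1 / (((r.den : ℤ) : ℝ)) ^ 2 ≤ 256 / (2 ^ t) ^ 2 := by
      rw [div_le_div_iff₀ (by positivity) (by positivity)]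
      push_cast
      nlinarith
    have h3 : 256 / ((2 : ℝ) ^ t) ^ 2 + 16 / (2 ^ t) ^ 2 ≤ 1 / 2 ^ t := by
      rw [← add_div, div_le_div_iff₀ (by positivity) (by positivity)]
      nlinarith
    linarith
  have hal3 := abs_le.1 hal2
  have hyu : u + 3 / 2 ^ t < y := by
    by_contra h
    push Not at h
    apply hy4
    change |y - u| ≤ 3 / 2 ^ t
    rw [abs_le]
    have : (0 : ℝ) ≤ 3 / 2 ^ t := by positivity
    constructor <;> linarith [hy'.1]
  have hyv : y < v - 3 / 2 ^ t := by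
    by_contra h
    push Not at h
    apply hy5
    change |y - v| ≤ 3 / 2 ^ t
    rw [abs_le]
    have : (0 : ℝ) ≤ 3 / 2 ^ t := by positivity
    constructor <;> linarith [hy'.2]
  have hpos1 : (0 : ℝ) < 1 / 2 ^ t := by positivity
  have e3 : (3 : ℝ) / 2 ^ t = 3 * (1 / 2 ^ t) := by ring
  have e2 : (2 : ℝ) / 2 ^ t = 2 * (1 / 2 ^ t) := by ring
  rw [e3] at hyu hyv
  refine ⟨r.num, r.den, k, p', hadm, by linarith [hal3.1], by rw [hpw]; linarith [hal3.2],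
    ?_, ?_, ?_⟩
  · by_contra h
    apply hy2a
    refine ⟨(r.num, (r.den : ℤ), k, p'), ?_, ?_⟩
    · rw [hSa, Finset.mem_filter]
      exact ⟨hA _ _ _ _ hadm, hadm, h⟩
    · simp only
      rw [← hrr]
      exact hr5
  · by_contra h
    apply hy2b
    refine ⟨(r.num, (r.den : ℤ), k, p'), ?_, ?_⟩
    · rw [hSb, Finset.mem_filter]
      exact ⟨hA _ _ _ _ hadm, hadm, h⟩
    · simp only
      rw [← hrr]
      exact hr5
  · intro c hc
    rw [hpw]
    by_contra h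
    push Not at h
    apply hy3
    refine ⟨hy, c, hc, ?_⟩
    have h1 : |y - c.1| ≤ |y - al m r.num r.den k p'| + |al m r.num r.den k p' - c.1| :=
      abs_sub_le _ _ _
    rw [abs_sub_comm y (al m r.num r.den k p')] at h1
    rw [e2]
    linarith

end Pool.Agent.JS
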