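import Pool.Agent.Lib_MP_b52a92_nt.Select
import Pool.Agent.Lib_MP_b52a92_nt.AlPoly
import Pool.Agent.Lib_MP_b52a92_nt.Harm

set_option autoImplicit false

/-! One stage of the construction. -/

namespace Pool.Agent.JS

open Polynomial MeasureTheory Set

theorem choose_x (m d : ℕ) (hm : 1 ≤ m) (E Ed ε : ℝ) (hE : 0 < E) (hEd : (d : ℝ) + 1 ≤ Ed)
    (hε : 0 < ε) (h : m ≤ d → E ≤ Ed) : ∃ xg : ℝ, 0 < xg ∧ ((d : ℝ) + 1 + ε / 4) * xg < m * E ∧
      m * E < (Ed + ε) * xg ∧ (m ≤ d → xg < m) := by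
  have hm0 : (0 : ℝ) < m := by exact_mod_cast hm
  have hd0 : (0 : ℝ) ≤ d := by positivity
  have hA : 0 < Ed + ε := by linarith
  have hB : 0 < (d : ℝ) + 1 + ε / 4 := by positivity
  have hmE : 0 < m * E := by positivity
  have h1 : m * E / (Ed + ε) < m * E / ((d : ℝ) + 1 + ε / 4) := by
    apply div_lt_div_of_pos_left hmE hB; linarith
  have hpos : 0 < m * E / (Ed + ε) := by positivity
  by_cases hmd : m ≤ d
  · have h2 : m * E / (Ed + ε) < m := by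
      rw [div_lt_iff₀ hA]
      have := h hmd
      nlinarith
    obtain ⟨x, hx1, hx2⟩ := exists_between (lt_min h1 h2)
    rw [lt_min_iff] at hx2
    refine ⟨x, hpos.trans hx1, ?_, ?_, fun _ => hx2.2⟩
    · have := (lt_div_iff₀ hB).1 hx2.1; linarith
    · have := (div_lt_iff₀ hA).1 hx1; linarith
  · obtain ⟨x, hx1, hx2⟩ := exists_between h1
    refine ⟨x, hpos.trans hx1, ?_, ?_, fun h' => absurd h' hmd⟩
    · have := (lt_div_iff₀ hB).1 hx2; linarith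
    · have := (div_lt_iff₀ hA).1 hx1; linarith

/-- the finitely many balls of small height -/
theorem balls (d : ℕ) (E : ℝ) (e : ℕ → ℝ) (Y : ℕ) (h : ℝ) (hh : 1 ≤ h) :
    ∃ F : Finset (ℝ × ℝ), (∀ c ∈ F, 0 ≤ c.2) ∧ (F.card : ℝ) ≤ d * (3 * h) ^ (d + 1) ∧
      {y | ∃ c ∈ F, |y - c.1| ≤ c.2} ⊆ Zd d E e Y ∧
      ∀ g : Fin (d + 1) → ℤ, g ≠ 0 → Y < H g → (H g : ℝ) ≤ h → ∀ γ, ev γ g = 0 →
        (γ, (H g : ℝ) ^ (-(E + e (H g)))) ∈ F := by
  classical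
  have hfin : {g : Fin (d + 1) → ℤ | g ≠ 0 ∧ Y < H g ∧ (H g : ℝ) ≤ h}.Finite :=
    (H_finite d h).subset fun g hg => hg.2.2
  choose! R hR1 hR2 using fun (g : Fin (d + 1) → ℤ) (hg : g ≠ 0) => roots_finite g hg
  refine ⟨hfin.toFinset.biUnion fun g => (R g).image fun γ =>
    (γ, (H g : ℝ) ^ (-(E + e (H g)))), ?_, ?_, ?_, ?_⟩
  · intro c hc
    simp only [Finset.mem_biUnion, Finset.mem_image] at hc
    obtain ⟨g, _, γ, _, rfl⟩ := hc
    simp only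
    positivity
  · have h1 : (hfin.toFinset.biUnion fun g => (R g).image fun γ =>
        (γ, (H g : ℝ) ^ (-(E + e (H g))))).card ≤ hfin.toFinset.card * d := by
      apply Finset.card_biUnion_le_card_mul
      intro g hg
      rw [Set.Finite.mem_toFinset] at hg
      exact Finset.card_image_le.trans (hR1 g hg.1)
    have h2 : (hfin.toFinset.card : ℝ) ≤ (3 * h) ^ (d + 1) := by
      apply H_card d h hh
      intro g hg
      rw [Set.Finite.mem_toFinset] at hg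
      exact hg.2.2
    have h3 : (((hfin.toFinset.card * d : ℕ)) : ℝ) = hfin.toFinset.card * d := by push_cast; rfl
    calc _ ≤ (((hfin.toFinset.card * d : ℕ)) : ℝ) := by exact_mod_cast h1
      _ = hfin.toFinset.card * d := h3
      _ ≤ (3 * h) ^ (d + 1) * d := mul_le_mul_of_nonneg_right h2 (by positivity)
      _ = _ := by ring
  · rintro y ⟨c, hc, hy⟩
    simp only [Finset.mem_biUnion, Finset.mem_image] at hc
    obtain ⟨g, hg, γ, hγ, rfl⟩ := hc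
    rw [Set.Finite.mem_toFinset] at hg
    exact ⟨g, hg.1, hg.2.1, γ, (hR2 g hg.1 γ).2 hγ, hy⟩
  · intro g hg hY hle γ hγ
    simp only [Finset.mem_biUnion, Finset.mem_image]
    refine ⟨g, ?_, γ, (hR2 g hg γ).1 hγ, rfl⟩
    rw [Set.Finite.mem_toFinset]
    exact ⟨hg, hY, hle⟩

theorem stage (a b : ℕ) (ha : 1 ≤ a) (hab : a < b) (Ea Eb : ℝ) (hEa : a + 1 ≤ Ea)
    (hEb : b + 1 ≤ Eb) (m : ℕ) (hm : 1 ≤ m) (E : ℝ) (hE : 2 ≤ E) (h1 : m ≤ a → E ≤ Ea)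
    (h2 : m ≤ b → E ≤ Eb) (e : ℕ → ℝ) (ε : ℝ) (hε : 0 < ε) (he : ∃ N0, ∀ h ≥ N0, e h = ε)
    (Y : ℕ) (u v : ℝ) (hu : 1 / 4 ≤ u) (huv : u < v) (hv : v ≤ 1 / 2)
    (hZ : volume ((Zd a Ea e Y ∪ Zd b Eb e Y) ∩ Icc u v) ≤ ENNReal.ofReal ((v - u) / 8))
    (N : ℕ) :
    ∃ (u' v' α : ℝ) (P : ℤ[X]), u ≤ u' ∧ u' < v' ∧ v' ≤ v ∧ Irreducible P ∧ P.natDegree = m ∧
      aeval α P = 0 ∧
      (∀ ξ ∈ Icc u' v', 0 < |ξ - α| ∧ |ξ - α| < (ht P : ℝ) ^ (-E) ∧ |ξ - α| < 1 / (N + 1)) ∧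
      (∀ ξ ∈ Icc u' v', ∀ g : Fin (a + 1) → ℤ, g ≠ 0 → Y < H g → H g ≤ N → ∀ γ, ev γ g = 0 →
        (H g : ℝ) ^ (-(Ea + e (H g))) < |ξ - γ|) ∧
      (∀ ξ ∈ Icc u' v', ∀ g : Fin (b + 1) → ℤ, g ≠ 0 → Y < H g → H g ≤ N → ∀ γ, ev γ g = 0 →
        (H g : ℝ) ^ (-(Eb + e (H g))) < |ξ - γ|) ∧
      volume ((Zd a Ea e Y ∪ Zd b Eb e Y) ∩ Icc u' v') ≤
        ENNReal.ofReal ((v' - u') / 16) := by
  classical
  have hb : 1 ≤ b := by omega
  have hm0 : (1 : ℝ) ≤ m := by exact_mod_cast hm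
  have hE0 : 0 < E := by linarith
  obtain ⟨xa, hxa0, hxa1, hxa2, hxa3⟩ := choose_x m a hm E Ea ε hE0 hEa hε h1
  obtain ⟨xb, hxb0, hxb1, hxb2, hxb3⟩ := choose_x m b hm E Eb ε hE0 hEb hε h2
  obtain ⟨C, hC1, hC⟩ := al_poly m hm
  obtain ⟨N0, hN0⟩ := he
  have hC0 : 0 < C := by linarith
  set c : ℝ := C ^ (-E) / 2 with hc
  have hCE : 0 < C ^ (-E) := Real.rpow_pos_of_pos hC0 _
  have hc0 : 0 < c := by positivity
  have hc1 : c ≤ 1 / 2 := by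
    have : C ^ (-E) ≤ 1 := Real.rpow_le_one_of_one_le_of_nonpos hC1 (by linarith)
    rw [hc]; linarith
  -- the exponent `x₀`
  have hb4 : (0 : ℝ) < 1 / (4 * ((b : ℝ) + 1)) := by positivity
  obtain ⟨x₀, hx00, hx0m⟩ : ∃ x₀ : ℝ, 0 < x₀ ∧ x₀ < min (min xa xb) (1 / (4 * ((b : ℝ) + 1))) :=
    exists_between (lt_min (lt_min hxa0 hxb0) hb4)
  rw [lt_min_iff, lt_min_iff] at hx0m
  obtain ⟨⟨hx0a, hx0b⟩, hx04⟩ := hx0m
  -- thresholds for `t`
  obtain ⟨t1, ht1⟩ := select a b m ha hb hm (ε / 4) x₀ xa xb (by positivity) hx00 hxa3 hxb3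
    u v hu huv hv
  obtain ⟨t2, ht2⟩ := harm a ha (m * E) Ea ε (ε / 4) x₀ xa c hEa (by positivity) (by linarith)
    hx00 hx0a hc0 hxa1 hxa2
  obtain ⟨t3, ht3⟩ := harm b hb (m * E) Eb ε (ε / 4) x₀ xb c hEb (by positivity) (by linarith)
    hx00 hx0b hc0 hxb1 hxb2
  obtain ⟨t4, ht4⟩ := pw_large x₀ (max (N : ℝ) N0) hx00
  obtain ⟨t5, ht5⟩ := pw_small 1 (1 / (2 * ((N : ℝ) + 1))) one_pos (by positivity)
  obtain ⟨t6, ht6⟩ := pw_large (1 / 4) (2 * b * 3 ^ (b + 1)) (by norm_num)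
  obtain ⟨t, hta⟩ : ∃ t : ℕ, t1 ≤ t ∧ t2 ≤ t ∧ t3 ≤ t ∧ t4 ≤ t ∧ t5 ≤ t ∧ t6 ≤ t :=
    ⟨t1 + t2 + t3 + t4 + t5 + t6, by omega, by omega, by omega, by omega, by omega, by omega⟩
  obtain ⟨hta1, hta2, hta3, hta4, hta5, hta6⟩ := hta
  have ht4' := ht4 t hta4
  have ht5' := ht5 t hta5
  have ht6' := ht6 t hta6
  have hpw1 : 1 ≤ pw t x₀ := pw_ge_one t hx00.le
  -- the balls
  obtain ⟨Fa, hFa0, hFac, hFas, hFam⟩ := balls a Ea e Y (pw t x₀) hpw1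
  obtain ⟨Fb, hFb0, hFbc, hFbs, hFbm⟩ := balls b Eb e Y (pw t x₀) hpw1
  have hcard : (((Fa ∪ Fb).card : ℕ) : ℝ) ≤ pw t (1 / 2) := by
    have h3 : (((Fa ∪ Fb).card : ℕ) : ℝ) ≤ Fa.card + Fb.card := by
      exact_mod_cast Finset.card_union_le Fa Fb
    have h4 : (1 : ℝ) ≤ 3 * pw t x₀ := by linarith
    have h5 : (3 * pw t x₀) ^ (a + 1) ≤ (3 * pw t x₀) ^ (b + 1) :=
      pow_le_pow_right₀ h4 (by omega)
    have hab' : (a : ℝ) ≤ b := by exact_mod_cast hab.le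
    have h6 : (a : ℝ) * (3 * pw t x₀) ^ (a + 1) ≤ b * (3 * pw t x₀) ^ (b + 1) :=
      mul_le_mul hab' h5 (by positivity) (by positivity)
    have h7 : (pw t x₀) ^ (b + 1) ≤ pw t (1 / 4) := by
      have h8 : (pw t x₀) ^ (b + 1) = pw t (x₀ * ((b : ℝ) + 1)) := by
        rw [← pw_rpow, ← Real.rpow_natCast]; push_cast; rfl
      rw [h8]
      apply pw_mono
      rw [lt_div_iff₀ (by positivity)] at hx04
      nlinarith
    have h9 : pw t (1 / 2) = pw t (1 / 4) * pw t (1 / 4) := by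
      rw [← pw_add]; norm_num
    have h10 : 0 < pw t (1 / 4) := pw_pos _ _
    calc (((Fa ∪ Fb).card : ℕ) : ℝ) ≤ 2 * b * 3 ^ (b + 1) * (pw t x₀) ^ (b + 1) := by
          have h11 : (3 * pw t x₀) ^ (b + 1) = 3 ^ (b + 1) * (pw t x₀) ^ (b + 1) := mul_pow _ _ _
          have h12 := (h3.trans (add_le_add hFac hFbc)).trans (add_le_add_left h6 _)
          rw [h11] at h12
          linarith
      _ ≤ pw t (1 / 4) * pw t (1 / 4) := mul_le_mul ht6' h7 (by positivity) h10.le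
      _ = _ := h9.symm
  have hF0 : ∀ c ∈ Fa ∪ Fb, 0 ≤ c.2 := by
    intro c hc
    rcases Finset.mem_union.1 hc with h | h
    · exact hFa0 c h
    · exact hFb0 c h
  have hvol : volume ({y | ∃ c ∈ Fa ∪ Fb, |y - c.1| ≤ c.2} ∩ Icc u v) ≤
      ENNReal.ofReal ((v - u) / 4) := by
    refine (measure_mono ?_).trans (hZ.trans (ENNReal.ofReal_le_ofReal (by linarith)))
    rintro y ⟨⟨c, hc, hy⟩, hyI⟩
    refine ⟨?_, hyI⟩
    rcases Finset.mem_union.1 hc with h | h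
    · exact Or.inl (hFas ⟨c, h, hy⟩)
    · exact Or.inr (hFbs ⟨c, h, hy⟩)
  obtain ⟨p, q, k, p', hadm, hαu, hαv, hGa, hGb, hfar⟩ := ht1 t hta1 (Fa ∪ Fb) hF0 hcard hvol
  obtain ⟨P, hP, hdeg, hroot, hht⟩ := hC t p q k p' hadm
  set α := al m p q k p' with hα
  set r : ℝ := c * pw t (-(m * E)) with hr
  have hr0 : 0 < r := mul_pos hc0 (pw_pos _ _)
  have hr1 : r ≤ pw t (-1) / 2 := by
    have h3 : pw t (-(m * E)) ≤ pw t (-1) := pw_mono t (by nlinarith)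
    have := pw_pos t (-(m * E))
    rw [hr]
    nlinarith
  have hpm1 : 0 < pw t (-1) := pw_pos _ _
  have hα0 : 0 ≤ α := by linarith
  have hα1 : α ≤ 1 := by linarith
  have hHa := ht2 t hta2 α hα0 hα1 hGa
  have hHb := ht3 t hta3 α hα0 hα1 hGb
  have hdist : ∀ ξ ∈ Icc (α + r / 2) (α + r), r / 2 ≤ |ξ - α| ∧ |ξ - α| ≤ r := by
    intro ξ hξ
    rw [mem_Icc] at hξ
    rw [abs_of_nonneg (by linarith [hξ.1])]
    constructor <;> linarith [hξ.1, hξ.2]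
  -- the avoidance property
  have havoid : ∀ ξ ∈ Icc (α + r / 2) (α + r), ∀ c ∈ Fa ∪ Fb, c.2 < |ξ - c.1| := by
    intro ξ hξ c hc
    have h3 := hfar c hc
    obtain ⟨_, h4⟩ := hdist ξ hξ
    have h5 : |α - c.1| ≤ |ξ - c.1| + |ξ - α| := by
      have : α - c.1 = (ξ - c.1) - (ξ - α) := by ring
      rw [this]
      exact abs_sub _ _
    linarith
  have hava : ∀ ξ ∈ Icc (α + r / 2) (α + r), ∀ g : Fin (a + 1) → ℤ, g ≠ 0 → Y < H g →
      (H g : ℝ) ≤ pw t x₀ → ∀ γ, ev γ g = 0 → (H g : ℝ) ^ (-(Ea + e (H g))) < |ξ - γ| := by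
    intro ξ hξ g hg hY hle γ hγ
    exact havoid ξ hξ _ (Finset.mem_union_left _ (hFam g hg hY hle γ hγ))
  have havb : ∀ ξ ∈ Icc (α + r / 2) (α + r), ∀ g : Fin (b + 1) → ℤ, g ≠ 0 → Y < H g →
      (H g : ℝ) ≤ pw t x₀ → ∀ γ, ev γ g = 0 → (H g : ℝ) ^ (-(Eb + e (H g))) < |ξ - γ| := by
    intro ξ hξ g hg hY hle γ hγ
    exact havoid ξ hξ _ (Finset.mem_union_right _ (hFbm g hg hY hle γ hγ))
  have hN : ∀ n : ℕ, n ≤ N → (n : ℝ) ≤ pw t x₀ := fun n hn =>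
    le_trans (by exact_mod_cast hn) ((le_max_left _ _).trans ht4')
  have heε : ∀ n : ℕ, pw t x₀ < n → e n = ε := by
    intro n hn
    apply hN0
    have : (N0 : ℝ) < n := lt_of_le_of_lt ((le_max_right _ _).trans ht4') hn
    exact_mod_cast this.le
  have hhtP : 1 ≤ ht P := by
    rw [← vec_H P (le_refl _)]
    exact H_pos _ (vec_ne_zero P (le_refl _) hP.ne_zero)
  refine ⟨α + r / 2, α + r, α, P, by linarith, by linarith, by linarith, hP, hdeg, hroot,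
    ?_, ?_, ?_, ?_⟩
  · intro ξ hξ
    obtain ⟨h3, h4⟩ := hdist ξ hξ
    refine ⟨by linarith, ?_, ?_⟩
    · refine lt_of_le_of_lt h4 ?_
      have h5 : (C * pw t m) ^ (-E) ≤ (ht P : ℝ) ^ (-E) :=
        Real.rpow_le_rpow_of_nonpos (by exact_mod_cast hhtP) hht (by linarith)
      refine lt_of_lt_of_le ?_ h5
      rw [Real.mul_rpow hC0.le (pw_pos _ _).le, pw_rpow, hr, hc]
      have h6 : (m : ℝ) * -E = -(m * E) := by ring
      rw [h6]
      have := pw_pos t (-(m * E))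
      nlinarith [mul_pos hCE this]
    · refine lt_of_le_of_lt (h4.trans hr1) ?_
      have h6 : (0 : ℝ) < 1 / ((N : ℝ) + 1) := by positivity
      have h7 : 1 / (2 * ((N : ℝ) + 1)) = (1 / ((N : ℝ) + 1)) / 2 := by
        field_simp
      rw [h7] at ht5'
      linarith
  · intro ξ hξ g hg hY hle γ hγ
    exact hava ξ hξ g hg hY (hN _ hle) γ hγ
  · intro ξ hξ g hg hY hle γ hγ
    exact havb ξ hξ g hg hY (hN _ hle) γ hγ
  · have hsub : (Zd a Ea e Y ∪ Zd b Eb e Y) ∩ Icc (α + r / 2) (α + r) ⊆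
        {ξ | ξ ∈ Icc (α + c * pw t (-(m * E)) / 2) (α + c * pw t (-(m * E))) ∧
          ∃ g : Fin (a + 1) → ℤ, g ≠ 0 ∧ pw t x₀ < H g ∧ ∃ γ : ℝ, ev γ g = 0 ∧
            |ξ - γ| ≤ (H g : ℝ) ^ (-(Ea + ε))} ∪
        {ξ | ξ ∈ Icc (α + c * pw t (-(m * E)) / 2) (α + c * pw t (-(m * E))) ∧
          ∃ g : Fin (b + 1) → ℤ, g ≠ 0 ∧ pw t x₀ < H g ∧ ∃ γ : ℝ, ev γ g = 0 ∧
            |ξ - γ| ≤ (H g : ℝ) ^ (-(Eb + ε))} := by
      rintro ξ ⟨⟨g, hg, hY, γ, hγ, hle⟩ | ⟨g, hg, hY, γ, hγ, hle⟩, hξ⟩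
      · left
        refine ⟨hξ, g, hg, ?_, γ, hγ, ?_⟩
        · by_contra hcon
          push Not at hcon
          exact absurd hle (not_le.2 (hava ξ hξ g hg hY hcon γ hγ))
        · by_contra hcon
          by_cases hbig : pw t x₀ < H g
          · rw [heε _ hbig] at hle
            exact hcon hle
          · push Not at hbig
            exact absurd hle (not_le.2 (hava ξ hξ g hg hY hbig γ hγ))
      · right
        refine ⟨hξ, g, hg, ?_, γ, hγ, ?_⟩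
        · by_contra hcon
          push Not at hcon
          exact absurd hle (not_le.2 (havb ξ hξ g hg hY hcon γ hγ))
        · by_contra hcon
          by_cases hbig : pw t x₀ < H g
          · rw [heε _ hbig] at hle
            exact hcon hle
          · push Not at hbig
            exact absurd hle (not_le.2 (havb ξ hξ g hg hY hbig γ hγ))
    calc _ ≤ _ := measure_mono hsub
      _ ≤ _ := measure_union_le _ _
      _ ≤ ENNReal.ofReal (r / 64) + ENNReal.ofReal (r / 64) := add_le_add hHa hHb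
      _ = ENNReal.ofReal ((α + r - (α + r / 2)) / 16) := by
          rw [← ENNReal.ofReal_add (by positivity) (by positivity)]
          ring_nf

end Pool.Agent.JS
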